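import Pool.Agent.H6.OR.ADefs

/-!
# Row Ac (project OR): towers

`Spn A B N`, `z ∈ S` with `z^d = ∑_(k < d) b_k z^k`, `b_k ∈ B`, `d ≥ 1`.  Then `Spn A (B ⊔ adjoin {z}) (N d)`.
Let `T` be the set of the `∑_(k < d) c_k z^k`, `c_k ∈ B`.  It is closed under addition, under multiplication by
elements of `B`, and by `z` (`z ∑ c_k z^k = ∑_(k<d-1) c_k z^(k+1) + c_(d-1) z^d`), hence under multiplication by elements of
`T`; it contains `B` (`d ≥ 1`) and `z` (`z * 1`).  So `T` is a subalgebra containing `B` and `z`, hence `B ⊔ adjoin {z} ≤ T`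
(`Algebra.adjoin_le`, `sup_le`).  If `s` spans `B` over `A`, the products `z' z^k`, `z' ∈ s`, `k < d`, span `T`
(image of `s ×ˢ range d`, `Finset.card_image_le`); `1 = 1 * z^0` is among them.
`Spn_refl`: `s = {1}`.  `Spn_mono`: `N ≤ N'`.
-/

namespace Pool.Agent.H6.OR

variable {K S : Type*} [CommRing K] [CommRing S] [Algebra K S]

theorem Spn_refl (A : Subalgebra K S) : Spn A A 1 := by
  refine ⟨le_rfl, {1}, by simp, by simp, ?_, ?_⟩
  · intro z hz
    rw [Finset.mem_singleton] at hz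
    rw [hz]
    exact A.one_mem
  · intro b hb
    have h : b = (⟨b, hb⟩ : A) • (1 : S) := by
      rw [Subalgebra.smul_def, smul_eq_mul, mul_one]
    rw [h]
    apply Submodule.smul_mem
    apply Submodule.subset_span
    simp

theorem Spn_mono {A B : Subalgebra K S} {N N' : ℕ} (h : Spn A B N) (hN : N ≤ N') :
    Spn A B N' := by
  obtain ⟨h1, s, h2, h3⟩ := h
  exact ⟨h1, s, h2.trans hN, h3⟩

/-- the set of the `∑_(k < d) c_k z^k`, `c_k ∈ B` -/
def AcT (B : Subalgebra K S) (z : S) (d : ℕ) (t : S) : Prop :=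
  ∃ c : ℕ → S, (∀ k, c k ∈ B) ∧ t = ∑ k ∈ Finset.range d, c k * z ^ k

theorem AcT_add {B : Subalgebra K S} {z : S} {d : ℕ} {t t' : S} (h : AcT B z d t)
    (h' : AcT B z d t') : AcT B z d (t + t') := by
  obtain ⟨c, hc, rfl⟩ := h
  obtain ⟨c', hc', rfl⟩ := h'
  refine ⟨fun k => c k + c' k, fun k => B.add_mem (hc k) (hc' k), ?_⟩
  rw [← Finset.sum_add_distrib]
  exact Finset.sum_congr rfl fun k _ => by ring

theorem AcT_smul {B : Subalgebra K S} {z : S} {d : ℕ} {t b : S} (hb : b ∈ B)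
    (h : AcT B z d t) : AcT B z d (b * t) := by
  obtain ⟨c, hc, rfl⟩ := h
  refine ⟨fun k => b * c k, fun k => B.mul_mem hb (hc k), ?_⟩
  rw [Finset.mul_sum]
  exact Finset.sum_congr rfl fun k _ => by ring

theorem AcT_base {B : Subalgebra K S} {z : S} {d : ℕ} (hd : 1 ≤ d) {b : S} (hb : b ∈ B) :
    AcT B z d b := by
  refine ⟨fun k => if k = 0 then b else 0, fun k => ?_, ?_⟩
  · dsimp only
    split_ifs
    · exact hb
    · exact B.zero_mem
  · rw [Finset.sum_eq_single 0]
    · simp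
    · intro k _ hk
      simp [hk]
    · intro h
      exact absurd (Finset.mem_range.2 (by omega)) h

theorem AcT_zero {B : Subalgebra K S} {z : S} {d : ℕ} : AcT B z d 0 :=
  ⟨fun _ => 0, fun _ => B.zero_mem, by simp⟩

theorem AcT_z {B : Subalgebra K S} {z : S} {d : ℕ} (hd : 1 ≤ d) {b : ℕ → S}
    (hb : ∀ k, b k ∈ B) (hz : z ^ d = ∑ k ∈ Finset.range d, b k * z ^ k) {t : S}
    (h : AcT B z d t) : AcT B z d (z * t) := by
  obtain ⟨c, hc, rfl⟩ := h
  obtain ⟨e, rfl⟩ : ∃ e, d = e + 1 := ⟨d - 1, by omega⟩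
  have h1 : z * ∑ k ∈ Finset.range (e + 1), c k * z ^ k =
      (∑ k ∈ Finset.range (e + 1), (if k = 0 then 0 else c (k - 1)) * z ^ k) +
        c e * ∑ k ∈ Finset.range (e + 1), b k * z ^ k := by
    rw [← hz, Finset.sum_range_succ, Finset.sum_range_succ', mul_add, Finset.mul_sum]
    simp only [Nat.add_eq_zero_iff, one_ne_zero, and_false, if_false, if_true,
      Nat.add_sub_cancel, zero_mul, add_zero]
    rw [pow_succ' z e]
    have h2 : ∑ k ∈ Finset.range e, z * (c k * z ^ k) = ∑ k ∈ Finset.range e, c k * z ^ (k + 1) :=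
      Finset.sum_congr rfl fun k _ => by rw [pow_succ]; ring
    rw [h2]
    ring
  rw [h1]
  refine AcT_add ⟨_, fun k => ?_, rfl⟩ (AcT_smul (hc e) ⟨b, hb, rfl⟩)
  split_ifs
  · exact B.zero_mem
  · exact hc _

theorem AcT_pow {B : Subalgebra K S} {z : S} {d : ℕ} (hd : 1 ≤ d) {b : ℕ → S}
    (hb : ∀ k, b k ∈ B) (hz : z ^ d = ∑ k ∈ Finset.range d, b k * z ^ k) {t : S}
    (h : AcT B z d t) (k : ℕ) : AcT B z d (z ^ k * t) := by
  induction k with
  | zero => simpa using h
  | succ k ih =>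
    rw [pow_succ', mul_assoc]
    exact AcT_z hd hb hz ih

theorem AcT_mul {B : Subalgebra K S} {z : S} {d : ℕ} (hd : 1 ≤ d) {b : ℕ → S}
    (hb : ∀ k, b k ∈ B) (hz : z ^ d = ∑ k ∈ Finset.range d, b k * z ^ k) {t t' : S}
    (h : AcT B z d t) (h' : AcT B z d t') : AcT B z d (t * t') := by
  obtain ⟨c, hc, rfl⟩ := h
  rw [Finset.sum_mul]
  have key : ∀ s : Finset ℕ, AcT B z d (∑ k ∈ s, c k * z ^ k * t') := by
    intro s
    induction s using Finset.induction_on with
    | empty => simpa using AcT_zero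
    | insert k s hk ih =>
      rw [Finset.sum_insert hk]
      refine AcT_add ?_ ih
      rw [mul_assoc]
      exact AcT_smul (hc k) (AcT_pow hd hb hz h' k)
  exact key _

theorem Spn_step {A B : Subalgebra K S} {N : ℕ} (h : Spn A B N) (z : S) (d : ℕ) (hd : 1 ≤ d)
    (b : ℕ → S) (hb : ∀ k, b k ∈ B) (hz : z ^ d = ∑ k ∈ Finset.range d, b k * z ^ k) :
    Spn A (B ⊔ Algebra.adjoin K {z}) (N * d) := by
  classical
  obtain ⟨hAB, s, hs, hs1, hsB, hspan⟩ := h
  refine ⟨hAB.trans le_sup_left, (s ×ˢ Finset.range d).image (fun x => x.1 * z ^ x.2), ?_, ?_, ?_, ?_⟩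
  · refine Finset.card_image_le.trans ?_
    rw [Finset.card_product, Finset.card_range]
    exact Nat.mul_le_mul_right d hs
  · rw [Finset.mem_image]
    exact ⟨(1, 0), Finset.mem_product.2 ⟨hs1, Finset.mem_range.2 (by omega)⟩, by simp⟩
  · intro y hy
    rw [Finset.mem_image] at hy
    obtain ⟨x, hx, rfl⟩ := hy
    rw [Finset.mem_product] at hx
    refine Subalgebra.mul_mem _ ?_ (Subalgebra.pow_mem _ ?_ _)
    · exact (le_sup_left : B ≤ _) (hsB _ hx.1)
    · exact (le_sup_right : Algebra.adjoin K {z} ≤ _) (Algebra.subset_adjoin rfl)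
  · intro y hy
    have hT : AcT B z d y := by
      let T : Subalgebra K S :=
        { carrier := {t | AcT B z d t}
          mul_mem' := fun h1 h2 => AcT_mul hd hb hz h1 h2
          add_mem' := fun h1 h2 => AcT_add h1 h2
          algebraMap_mem' := fun r => AcT_base hd (B.algebraMap_mem r) }
      have hle : B ⊔ Algebra.adjoin K {z} ≤ T := by
        refine sup_le (fun x hx => AcT_base hd hx) (Algebra.adjoin_le ?_)
        rintro x rfl
        have h1 := AcT_z hd hb hz (AcT_base (z := x) hd B.one_mem)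
        rwa [mul_one] at h1
      exact hle hy
    obtain ⟨c, hc, rfl⟩ := hT
    refine Submodule.sum_mem _ fun k hk => ?_
    have h1 := hspan (c k) (hc k)
    refine Submodule.span_induction (p := fun x _ => x * z ^ k ∈ Submodule.span A
      (((s ×ˢ Finset.range d).image (fun x => x.1 * z ^ x.2) : Finset S) : Set S)) ?_ ?_ ?_ ?_ h1
    · intro x hx
      apply Submodule.subset_span
      rw [Finset.mem_coe, Finset.mem_image]
      exact ⟨(x, k), Finset.mem_product.2 ⟨hx, hk⟩, rfl⟩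
    · rw [zero_mul]
      exact Submodule.zero_mem _
    · intro x y _ _ hx hy
      rw [add_mul]
      exact Submodule.add_mem _ hx hy
    · intro a x _ hx
      rw [smul_mul_assoc]
      exact Submodule.smul_mem _ a hx

end Pool.Agent.H6.OR
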