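import Pool.Agent.H6.OR.Aa
import Pool.Agent.H6.OR.Ac

/-!
# Row Ad (project OR): the levels

`K` a field, `2 ≠ 0`.  `fld_dblU : 2 dbl U = U + V`, `fld_dblV : (dbl V)^2 = U V` (in `Pool/Agent/H85/OT/Fld.lean`).
`dd (i+1) g = dd i (dbl g)` (`PowerSeries.expand_mul`, or compare coefficients) so, applying `dd i`:
`2 uT (i+1) = uT i + vT i`, `(vT (i+1))^2 = uT i * vT i` (multiply by `T`, `T²`).
* `Rl_mono`; `uT_mem`: `uT j ∈ Rl i` for `j ≤ i` (`uT 0 ∈ A0`; `uT (i+1) = (1/2)(uT i + vT i) ∈ Rl i`); `vT_mem`: `vT j ∈ Rl i`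
  for `j ≤ i`.
* `Spn_Rl`: `Spn (A0 K) (Rl K i) (2^i)`: `Spn_step` with `z = vT (i+1)`, `d = 2`, `b_0 = uT i * vT i`, `b_1 = 0`.
* `dd_mem_Rl`: `y = U^w P(x)`, `deg P ≤ w`: `y = ∑ c_j U^(w-j) V^j`, `dd j y T^w = ∑ c_j' (uT j)^(w-j') (vT j)^j' ∈ Rl i`, `j ≤ i`.
-/

open PowerSeries

namespace Pool.Agent.H6.OR

open Pool.Agent.H85.OT

variable {K : Type*} [Field K]

theorem dd_succ (i : ℕ) (g : K⟦X⟧) : dd K (i + 1) g = dd K i (dbl K g) := by
  unfold dd dbl
  rw [← PowerSeries.expand_mul]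
  congr 1

theorem Rl_mono {i j : ℕ} (h : i ≤ j) : Rl K i ≤ Rl K j := by
  induction j, h using Nat.le_induction with
  | base => exact le_rfl
  | succ j _ ih => exact ih.trans le_sup_left

private lemma Ad_u0 : uT K 0 ∈ A0 K := by
  have : uT K 0 = Polynomial.C (U K) * Polynomial.X := by
    unfold uT dd
    simp
  rw [this]
  exact Algebra.subset_adjoin (by simp)

private lemma Ad_v0 : vT K 0 ∈ A0 K := by
  have : vT K 0 = Polynomial.C (V K) * Polynomial.X := by
    unfold vT dd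
    simp
  rw [this]
  exact Algebra.subset_adjoin (by simp)

theorem vT_mem {i j : ℕ} (h : j ≤ i) : vT K j ∈ Rl K i := by
  refine Rl_mono h ?_
  cases j with
  | zero => exact Ad_v0
  | succ j =>
    have h1 : Algebra.adjoin K {vT K (j + 1)} ≤ Rl K (j + 1) := le_sup_right
    exact h1 (Algebra.subset_adjoin rfl)

private lemma Ad_two (i : ℕ) : 2 * uT K (i + 1) = uT K i + vT K i := by
  unfold uT vT
  rw [dd_succ, ← add_mul, ← mul_assoc, ← map_add, ← map_add, ← fld_dblU, map_mul, map_mul, map_ofNat,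
    map_ofNat]

private lemma Ad_sq (i : ℕ) : vT K (i + 1) ^ 2 = uT K i * vT K i := by
  unfold uT vT
  rw [dd_succ, mul_pow, ← map_pow, ← map_pow, fld_dblV, map_mul, map_mul]
  ring

theorem uT_mem (h2 : (2 : K) ≠ 0) {i j : ℕ} (h : j ≤ i) : uT K j ∈ Rl K i := by
  refine Rl_mono h ?_
  clear h
  induction j with
  | zero => exact Ad_u0
  | succ j ih =>
    have h1 : uT K (j + 1) = (2⁻¹ : K) • (uT K j + vT K j) := by
      rw [← Ad_two, ← smul_mul_assoc]
      have : (2⁻¹ : K) • (2 : SS K) = 1 := by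
        rw [show (2 : SS K) = algebraMap K (SS K) 2 by rw [map_ofNat], Algebra.smul_def, ← map_mul,
          inv_mul_cancel₀ h2, map_one]
      rw [this, one_mul]
    rw [h1]
    exact Subalgebra.smul_mem _ (Subalgebra.add_mem _ (Rl_mono (Nat.le_succ j) ih)
      (vT_mem (Nat.le_succ j))) _

theorem Spn_Rl (h2 : (2 : K) ≠ 0) (i : ℕ) : Spn (A0 K) (Rl K i) (2 ^ i) := by
  induction i with
  | zero => exact Spn_refl (A0 K)
  | succ i ih =>
    have h := Spn_step ih (vT K (i + 1)) 2 (by norm_num)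
      (fun k => if k = 0 then uT K i * vT K i else 0) (fun k => by
        by_cases hk : k = 0
        · simp only [hk, if_true]
          exact Subalgebra.mul_mem _ (uT_mem h2 le_rfl) (vT_mem le_rfl)
        · simp only [hk, if_false]
          exact Subalgebra.zero_mem _) (by
        rw [Finset.sum_range_succ, Finset.sum_range_one, Ad_sq]
        simp)
    rw [pow_succ]
    exact h

theorem dd_mem_Rl (h2 : (2 : K) ≠ 0) {i j w : ℕ} (h : j ≤ i) {y : K⟦X⟧} (hy : IsX K w y) :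
    Polynomial.C (dd K j y) * Polynomial.X ^ w ∈ Rl K i := by
  obtain ⟨P, hP, rfl⟩ := hy
  have h1 : U K ^ w * Polynomial.aeval (xx K) P =
      ∑ m ∈ Finset.range (w + 1), P.coeff m • (U K ^ (w - m) * V K ^ m) := by
    rw [Polynomial.aeval_eq_sum_range' (Nat.lt_succ_of_le hP), Finset.mul_sum]
    refine Finset.sum_congr rfl fun m hm => ?_
    have hm' : m ≤ w := Nat.lt_succ_iff.1 (Finset.mem_range.1 hm)
    rw [mul_smul_comm, ← xx_mul_U, mul_pow]
    congr 1
    have : U K ^ w = U K ^ (w - m) * U K ^ m := by rw [← pow_add, Nat.sub_add_cancel hm']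
    rw [this]
    ring
  rw [h1, map_sum, map_sum, Finset.sum_mul]
  refine Subalgebra.sum_mem _ fun m hm => ?_
  have hm' : m ≤ w := Nat.lt_succ_iff.1 (Finset.mem_range.1 hm)
  have h3 : Polynomial.C (dd K j (P.coeff m • (U K ^ (w - m) * V K ^ m))) * Polynomial.X ^ w =
      P.coeff m • (uT K j ^ (w - m) * vT K j ^ m) := by
    have e1 : (Polynomial.X : SS K) ^ w = Polynomial.X ^ (w - m) * Polynomial.X ^ m := by
      rw [← pow_add, Nat.sub_add_cancel hm']
    have e2 : ∀ (c : K) (z : K⟦X⟧), (Polynomial.C (c • z) : SS K) = c • Polynomial.C z := by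
      intro c z
      exact (Polynomial.smul_C c z).symm
    rw [map_smul, e2, smul_mul_assoc, map_mul, map_pow, map_pow, map_mul, map_pow, map_pow, e1]
    unfold uT vT
    congr 1
    ring
  rw [h3]
  exact Subalgebra.smul_mem _ (Subalgebra.mul_mem _ (Subalgebra.pow_mem _ (uT_mem h2 h) _)
    (Subalgebra.pow_mem _ (vT_mem h) _)) _

end Pool.Agent.H6.OR
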