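import Pool.Agent.H6.OR.ADefs
import Pool.Agent.H85.OT.Hd

/-!
# Row Ae (project OR): facts mod `p`

* `hasse_X`: `1 = U^(p-1) P(x)`, `deg P ≤ p - 1` (`hasse`: `U^(2 mm) hh(λ) = 1`, `2 mm p + 1 = p` (`two_mm`), `λ = 1 - x²`,
  `hh` of degree `≤ mm p`: `P = (hh p).comp (1 - X^2)`; see `Mf_x` in `Pool/Agent/H85/OT/Hx.lean`).
* `pow_p`: `g^p = g(q^p)` in `F_p[[q]]` (`MvPowerSeries.Expand`: the statement `(f.expand p hp).map (frobenius R p) = f ^ p` for
  power series; `frobenius (ZMod p) p` is the identity: `ZMod.frobenius_zmod`; or prove the polynomial statement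
  `ZMod.expand_card` and truncate).
* `Dq_expand`: `D (g(q^p)) = 0` in `F_p[[q]]` (coefficients `n` with `p ∣ n`, and `n = 0` in `F_p`).
-/

open PowerSeries

namespace Pool.Agent.H6.OR

open Pool.Agent.H85.OT

theorem hasse_X {p : ℕ} [hp : Fact p.Prime] (h2 : p ≠ 2) : IsX (ZMod p) (p - 1) 1 := by
  have hm := two_mm hp.out h2
  refine ⟨(hh p).comp (1 - Polynomial.X ^ 2), ?_, ?_⟩
  · refine Polynomial.natDegree_comp_le.trans ?_
    have h1 : (1 - Polynomial.X ^ 2 : Polynomial (ZMod p)).natDegree ≤ 2 := by compute_degree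
    have h3 : (hh p).natDegree ≤ mm p := by
      unfold hh
      refine Polynomial.natDegree_sum_le_of_forall_le _ _ fun i hi => ?_
      refine (Polynomial.natDegree_C_mul_X_pow_le _ _).trans ?_
      exact Nat.lt_succ_iff.1 (Finset.mem_range.1 hi)
    calc (hh p).natDegree * (1 - Polynomial.X ^ 2 : Polynomial (ZMod p)).natDegree ≤ mm p * 2 :=
          Nat.mul_le_mul h3 h1
      _ = p - 1 := by omega
  · have h := hasse (p := p) h2
    have e : 2 * mm p = p - 1 := by omega
    rw [e] at h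
    rw [Polynomial.aeval_comp, map_sub, map_one, map_pow, Polynomial.aeval_X]
    exact h.symm

theorem pow_p {p : ℕ} [hp : Fact p.Prime] (g : (ZMod p)⟦X⟧) :
    g ^ p = PowerSeries.expand p hp.out.ne_zero g := by
  have h := MvPowerSeries.map_frobenius_expand (σ := Unit) (R := ZMod p) p hp.out.ne_zero (f := g)
  rw [ZMod.frobenius_zmod, MvPowerSeries.map_id] at h
  exact h.symm

theorem Dq_expand {p : ℕ} [hp : Fact p.Prime] (g : (ZMod p)⟦X⟧) :
    Dq (ZMod p) (PowerSeries.expand p hp.out.ne_zero g) = 0 := by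
  ext n
  rw [coeff_Dq, map_zero, PowerSeries.coeff_expand]
  split_ifs with h
  · obtain ⟨m, rfl⟩ := h
    rw [Nat.cast_mul, CharP.cast_eq_zero, zero_mul, zero_mul]
  · rw [mul_zero]

end Pool.Agent.H6.OR
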