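import Pool.Agent.H6.OR.Ab
import Pool.Agent.H6.OR.Ad
import Pool.Agent.H6.OR.Ae

/-!
# Row Af (project OR): `P(H)` vanishes if it vanishes to high order

`K = F_p`, `p ≠ 2`, `h` with `IsX K (κ p) h`.  `PP_mem`: `PP t h * T^W ∈ Rl (r-1)`, `W = n + κ p (r E)`.  For each `s` (exponents `e`,
`|e| ≤ r E`, `v ≤ n`): `gu s = U^(W_s - v) V^v`, `W_s = n + κ (rE - |e|)`, so `gu s * T^(W_s) ∈ A0` (`mem_A0`, `IsX`: `P = X^v`,
`V = x U`); `mon h e * T^(κ p |e|) = ∏ (dd i h T^(κ p))^(e_i) ∈ Rl (r-1)` (`dd_mem_Rl`, `i ≤ r - 1`);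
`T^((p-1) κ (rE-|e|)) ∈ A0` (`hasse_X`, `mem_A0`, power).  The product of the three is `gu s * mon h e * T^W`:
`n + κ (rE-|e|) + κ p |e| + (p-1) κ (rE-|e|) = n + κ p r E`.  Multiply by the constant `t_s` and sum.
`PP_form`: `det_order` with `Spn_Rl (r-1)`.
-/

open PowerSeries

namespace Pool.Agent.H6.OR

open Pool.Agent.H85.OT

private theorem af_wt_le {r E n : ℕ} (s : Ix r E n) : wt (ex s) ≤ r * E := by
  unfold wt
  calc ∑ i, ex s i ≤ ∑ _i : Fin r, E := Finset.sum_le_sum (fun i _ => (s.1 i).isLt.le)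
    _ = r * E := by rw [Finset.sum_const, Finset.card_univ, Fintype.card_fin, smul_eq_mul]

theorem gu_IsX {K : Type*} [Field K] (r κ E n : ℕ) (s : Ix r E n) :
    IsX K (n + κ * (r * E - wt (ex s))) (gu K r κ E n s) := by
  classical
  unfold gu
  have hv : (s.2 : ℕ) ≤ n := Nat.lt_succ_iff.mp s.2.isLt
  generalize hW : n + κ * (r * E - wt (ex s)) = W
  have hvW : (s.2 : ℕ) ≤ W := by rw [← hW]; omega
  refine ⟨Polynomial.X ^ (s.2 : ℕ), (Polynomial.natDegree_X_pow_le _).trans hvW, ?_⟩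
  rw [map_pow, Polynomial.aeval_X, ← xx_mul_U K, mul_pow]
  have h1 : U K ^ W = U K ^ (W - (s.2 : ℕ)) * U K ^ (s.2 : ℕ) := by
    rw [← pow_add, Nat.sub_add_cancel hvW]
  rw [h1]
  ring

theorem PP_mem {p : ℕ} [hp : Fact p.Prime] (h2 : p ≠ 2) (κ r : ℕ) (hr : 1 ≤ r)
    (h : (ZMod p)⟦X⟧) (hh : IsX (ZMod p) (κ * p) h) (E n : ℕ) (t : Ix r E n → ZMod p) :
    Polynomial.C (PP (ZMod p) r κ E n t h) * Polynomial.X ^ (n + κ * p * (r * E)) ∈
      Rl (ZMod p) (r - 1) := by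
  classical
  have h20 : (2 : ZMod p) ≠ 0 := two_ne h2
  have hA : A0 (ZMod p) ≤ Rl (ZMod p) (r - 1) := Rl_mono (K := ZMod p) (Nat.zero_le (r - 1))
  have hp1 : 1 ≤ p := hp.out.one_lt.le
  unfold PP
  rw [map_sum, Finset.sum_mul]
  refine Subalgebra.sum_mem _ (fun s _ => ?_)
  have hwt : wt (ex s) ≤ r * E := af_wt_le s
  have m1 : Polynomial.C (gu (ZMod p) r κ E n s) *
      Polynomial.X ^ (n + κ * (r * E - wt (ex s))) ∈ Rl (ZMod p) (r - 1) :=
    hA (mem_A0 (gu_IsX r κ E n s))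
  have m2 : Polynomial.C (mon (ZMod p) h (ex s)) * Polynomial.X ^ (κ * p * wt (ex s)) ∈
      Rl (ZMod p) (r - 1) := by
    have e : Polynomial.C (mon (ZMod p) h (ex s)) * Polynomial.X ^ (κ * p * wt (ex s)) =
        ∏ i : Fin r, (Polynomial.C (dd (ZMod p) (i : ℕ) h) * Polynomial.X ^ (κ * p)) ^ ex s i := by
      unfold mon wt
      rw [map_prod, Finset.mul_sum, ← Finset.prod_pow_eq_pow_sum, ← Finset.prod_mul_distrib]
      refine Finset.prod_congr rfl (fun i _ => ?_)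
      rw [map_pow, mul_pow, ← pow_mul]
    rw [e]
    refine Subalgebra.prod_mem _ (fun i _ => Subalgebra.pow_mem _ ?_ _)
    have hi : (i : ℕ) ≤ r - 1 := by have := i.isLt; omega
    exact dd_mem_Rl h20 hi hh
  have m3 : (Polynomial.X : SS (ZMod p)) ^ ((p - 1) * (κ * (r * E - wt (ex s)))) ∈
      Rl (ZMod p) (r - 1) := by
    have h3 := mem_A0 (K := ZMod p) (hasse_X (p := p) h2)
    rw [map_one, one_mul] at h3
    have h4 := Subalgebra.pow_mem _ (hA h3) (κ * (r * E - wt (ex s)))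
    rw [← pow_mul] at h4
    exact h4
  have m0 : (Polynomial.C (PowerSeries.C (t s)) : SS (ZMod p)) ∈ Rl (ZMod p) (r - 1) :=
    Subalgebra.algebraMap_mem (Rl (ZMod p) (r - 1)) (t s)
  have m := Subalgebra.mul_mem _ m0 (Subalgebra.mul_mem _ (Subalgebra.mul_mem _ m1 m2) m3)
  have hexp : n + κ * p * (r * E) = n + κ * (r * E - wt (ex s)) + κ * p * wt (ex s) +
      (p - 1) * (κ * (r * E - wt (ex s))) := by
    obtain ⟨d, hd⟩ := Nat.exists_eq_add_of_le hwt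
    obtain ⟨p', hp'⟩ := Nat.exists_eq_add_of_le hp1
    have e1 : r * E - wt (ex s) = d := by omega
    have e2 : p - 1 = p' := by omega
    rw [e1, e2, hd, hp']
    ring
  have hfin : Polynomial.C (PowerSeries.C (t s) * (gu (ZMod p) r κ E n s *
        mon (ZMod p) h (ex s))) * Polynomial.X ^ (n + κ * p * (r * E)) =
      Polynomial.C (PowerSeries.C (t s)) * (Polynomial.C (gu (ZMod p) r κ E n s) *
        Polynomial.X ^ (n + κ * (r * E - wt (ex s))) *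
        (Polynomial.C (mon (ZMod p) h (ex s)) * Polynomial.X ^ (κ * p * wt (ex s))) *
        Polynomial.X ^ ((p - 1) * (κ * (r * E - wt (ex s))))) := by
    rw [hexp, pow_add, pow_add, map_mul, map_mul]
    ring
  rw [hfin]
  exact m

theorem PP_form {p : ℕ} [hp : Fact p.Prime] (h2 : p ≠ 2) (κ r : ℕ) (hr : 1 ≤ r)
    (h : (ZMod p)⟦X⟧) (hh : IsX (ZMod p) (κ * p) h) (E n : ℕ) (t : Ix r E n → ZMod p)
    (h0 : ∀ l ≤ 2 ^ (r - 1) * (n + κ * p * (r * E)),
      PowerSeries.coeff l (PP (ZMod p) r κ E n t h) = 0) :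
    PP (ZMod p) r κ E n t h = 0 := by
  by_contra hne
  obtain ⟨l, hl, hl0⟩ := det_order (K := ZMod p) (two_ne h2) (Spn_Rl (two_ne h2) (r - 1)) hne
    (PP_mem h2 κ r hr h hh E n t)
  exact hl0 (h0 l hl)

end Pool.Agent.H6.OR
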