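import Pool.Agent.H6.OR.Ab
import Pool.Agent.H6.OR.Ad
import Pool.Agent.H6.OR.Ae
import Pool.Agent.H6.OR.Af

/-!
# Row Ag (project OR): the order of `P(F)` mod `p` (section 2a)

`K = F_p`, `p ≠ 2`, `c ≠ 0`, `h = g - c g(q^p)` with `IsX K (κ p) h`.  `Φ_i = C (dd i g) * T^κ`.
`(dd i g)^p = dd i (g^p) = dd i (g(q^p))` (`pow_p`), and `dd i h = dd i g - c dd i (g(q^p))`, so
`(dd i g)^p = c⁻¹ (dd i g - dd i h)` and `Φ_i^p = c⁻¹ T^(κ(p-1)) Φ_i - c⁻¹ dd i h T^(κ p)`: a relation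
`z^p = ∑_(k < p) b_k z^k` with `b_0 = - c⁻¹ dd i h T^(κ p) ∈ Rl (r-1)` (`dd_mem_Rl`), `b_1 = c⁻¹ T^(κ(p-1)) ∈ A0`
(`hasse_X`, `mem_A0`), other `b_k = 0`.  Let `B_0 = Rl (r-1)`, `B_(j+1) = B_j ⊔ adjoin {Φ_j}`, `j < r`: by `Spn_step`
`Spn (A0 K) B_r (2^(r-1) p^r)`.  And `PP t g * T^(n + κ (r p)) ∈ B_r` (`E = p`): `gu s T^(n + κ(rp - |e|)) ∈ A0` (`gu_IsX`) times
`∏ Φ_i^(e_i)`.  `det_order` gives the claim.
-/

open PowerSeries

namespace Pool.Agent.H6.OR

open Pool.Agent.H85.OT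

private lemma Ag_sum {S : Type*} [CommRing S] {m : ℕ} (hm : 2 ≤ m) (b0 b1 z : S) :
    ∑ k ∈ Finset.range m, (if k = 0 then b0 else if k = 1 then b1 else 0) * z ^ k =
      b0 + b1 * z := by
  obtain ⟨m', rfl⟩ : ∃ m', m = m' + 2 := ⟨m - 2, by omega⟩
  rw [Finset.sum_range_succ', Finset.sum_range_succ']
  simp
  ring

private lemma Ag_two {p : ℕ} [hp : Fact p.Prime] (h2 : p ≠ 2) : (2 : ZMod p) ≠ 0 := by
  intro h
  have h1 : ((2 : ℕ) : ZMod p) = 0 := by exact_mod_cast h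
  rw [ZMod.natCast_eq_zero_iff] at h1
  exact h2 ((Nat.prime_dvd_prime_iff_eq hp.out Nat.prime_two).1 h1)

private lemma Ag_wt {r E n : ℕ} (s : Ix r E n) : wt (ex s) ≤ r * E := by
  unfold wt
  calc ∑ i, ex s i ≤ ∑ _i : Fin r, E := Finset.sum_le_sum fun i _ => (s.1 i).2.le
    _ = r * E := by simp

/-- scalars of the field -/
private lemma Ag_C {K : Type*} [Field K] (B : Subalgebra K (SS K)) (a : K) :
    Polynomial.C (PowerSeries.C a) ∈ B := by
  have h : algebraMap K (SS K) a = Polynomial.C (PowerSeries.C a) := rfl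
  rw [← h]
  exact B.algebraMap_mem a

private lemma Ag_ddC {K : Type*} [Field K] (i : ℕ) (a : K) :
    dd K i (PowerSeries.C a) = PowerSeries.C a := by
  have h : algebraMap K K⟦X⟧ a = PowerSeries.C a := rfl
  rw [← h]
  exact (dd K i).commutes a

/-- the levels with the elements `Φ_j` adjoined -/
private noncomputable def Ag_B (K : Type*) [Field K] (R : Subalgebra K (SS K)) (Φ : ℕ → SS K) :
    ℕ → Subalgebra K (SS K)
  | 0 => R
  | j + 1 => Ag_B K R Φ j ⊔ Algebra.adjoin K {Φ j}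

private lemma Ag_B_mono {K : Type*} [Field K] (R : Subalgebra K (SS K)) (Φ : ℕ → SS K) {i j : ℕ}
    (h : i ≤ j) : Ag_B K R Φ i ≤ Ag_B K R Φ j := by
  induction j, h using Nat.le_induction with
  | base => exact le_rfl
  | succ j _ ih => exact ih.trans le_sup_left

private lemma Ag_B_mem {K : Type*} [Field K] (R : Subalgebra K (SS K)) (Φ : ℕ → SS K) {i j : ℕ}
    (h : i < j) : Φ i ∈ Ag_B K R Φ j := by
  apply Ag_B_mono R Φ h
  have h1 : Φ i ∈ Algebra.adjoin K {Φ i} := Algebra.subset_adjoin rfl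
  exact (le_sup_right : Algebra.adjoin K {Φ i} ≤ Ag_B K R Φ i ⊔ Algebra.adjoin K {Φ i}) h1

private lemma Ag_X {p : ℕ} [hp : Fact p.Prime] (h2 : p ≠ 2) (κ : ℕ) :
    (Polynomial.X : SS (ZMod p)) ^ ((p - 1) * κ) ∈ A0 (ZMod p) := by
  have h := mem_A0 (hasse_X (p := p) h2)
  rw [map_one, one_mul] at h
  rw [pow_mul]
  exact pow_mem h κ

/-- the relation for `Φ_i` -/
private lemma Ag_rel {p : ℕ} [hp : Fact p.Prime] (κ i : ℕ)
    (g : (ZMod p)⟦X⟧) (c : ZMod p) (hc : c ≠ 0) :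
    (Polynomial.C (dd (ZMod p) i g) * Polynomial.X ^ κ : SS (ZMod p)) ^ p =
      -(Polynomial.C (PowerSeries.C c⁻¹) *
        (Polynomial.C (dd (ZMod p) i (Hh (ZMod p) p hp.out.ne_zero c g)) *
          Polynomial.X ^ (κ * p))) +
      (Polynomial.C (PowerSeries.C c⁻¹) * Polynomial.X ^ ((p - 1) * κ)) *
        (Polynomial.C (dd (ZMod p) i g) * Polynomial.X ^ κ) := by
  have h1 : dd (ZMod p) i (Hh (ZMod p) p hp.out.ne_zero c g) =
      dd (ZMod p) i g - PowerSeries.C c * dd (ZMod p) i g ^ p := by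
    rw [Hh, map_sub, map_mul, Ag_ddC, ← pow_p, map_pow]
  have h2 : dd (ZMod p) i g ^ p = PowerSeries.C c⁻¹ *
      (dd (ZMod p) i g - dd (ZMod p) i (Hh (ZMod p) p hp.out.ne_zero c g)) := by
    rw [h1, sub_sub_cancel, ← mul_assoc, ← map_mul, inv_mul_cancel₀ hc, map_one, one_mul]
  have h3 : κ * p = (p - 1) * κ + κ := by
    have := hp.out.one_lt
    obtain ⟨q, rfl⟩ : ∃ q, p = q + 1 := ⟨p - 1, by omega⟩
    rw [Nat.add_sub_cancel]
    ring
  rw [mul_pow, ← map_pow, h2, ← pow_mul, h3, pow_add, map_mul, map_sub]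
  ring

theorem PP_order {p : ℕ} [hp : Fact p.Prime] (h2 : p ≠ 2) (κ r : ℕ) (hr : 1 ≤ r)
    (g : (ZMod p)⟦X⟧) (c : ZMod p) (hc : c ≠ 0)
    (hh : IsX (ZMod p) (κ * p) (Hh (ZMod p) p hp.out.ne_zero c g)) (n : ℕ)
    (t : Ix r p n → ZMod p) (h0 : PP (ZMod p) r κ p n t g ≠ 0) :
    ∃ l ≤ 2 ^ (r - 1) * p ^ r * (n + κ * (r * p)),
      PowerSeries.coeff l (PP (ZMod p) r κ p n t g) ≠ 0 := by
  have h2' := Ag_two (p := p) h2
  let Φ : ℕ → SS (ZMod p) := fun i => Polynomial.C (dd (ZMod p) i g) * Polynomial.X ^ κ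
  let B := Ag_B (ZMod p) (Rl (ZMod p) (r - 1)) Φ
  have hA : A0 (ZMod p) ≤ Rl (ZMod p) (r - 1) := (Rl_mono (K := ZMod p) (Nat.zero_le (r - 1)))
  have hspn : ∀ j ≤ r, Spn (A0 (ZMod p)) (B j) (2 ^ (r - 1) * p ^ j) := by
    intro j
    induction j with
    | zero =>
      intro _
      rw [pow_zero, mul_one]
      exact Spn_Rl h2' (r - 1)
    | succ j ih =>
      intro hj
      have h3 := ih (by omega)
      rw [pow_succ, ← mul_assoc]
      have hj' : j ≤ r - 1 := by omega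
      refine Spn_step h3 (Φ j) p hp.out.one_lt.le
        (fun k => if k = 0 then -(Polynomial.C (PowerSeries.C c⁻¹) *
          (Polynomial.C (dd (ZMod p) j (Hh (ZMod p) p hp.out.ne_zero c g)) *
          Polynomial.X ^ (κ * p))) else if k = 1 then
            Polynomial.C (PowerSeries.C c⁻¹) * Polynomial.X ^ ((p - 1) * κ) else 0) ?_ ?_
      · intro k
        split_ifs with hk0 hk1
        · apply Ag_B_mono _ Φ (Nat.zero_le j)
          exact neg_mem (mul_mem (Ag_C _ _) (dd_mem_Rl h2' hj' hh))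
        · apply Ag_B_mono _ Φ (Nat.zero_le j)
          exact mul_mem (Ag_C _ _) (hA (Ag_X h2 κ))
        · exact zero_mem _
      · rw [Ag_sum hp.out.two_le]
        exact Ag_rel κ j g c hc
  have hmem : Polynomial.C (PP (ZMod p) r κ p n t g) * Polynomial.X ^ (n + κ * (r * p)) ∈
      B r := by
    rw [PP, map_sum, Finset.sum_mul]
    refine sum_mem fun s _ => ?_
    have hw := Ag_wt s
    have e1 : Polynomial.C (PowerSeries.C (t s) * (gu (ZMod p) r κ p n s *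
        mon (ZMod p) g (ex s))) * Polynomial.X ^ (n + κ * (r * p)) =
        Polynomial.C (PowerSeries.C (t s)) * ((Polynomial.C (gu (ZMod p) r κ p n s) *
          Polynomial.X ^ (n + κ * (r * p - wt (ex s)))) * ∏ i : Fin r, Φ (i : ℕ) ^ ex s i) := by
      have e2 : ∏ i : Fin r, Φ (i : ℕ) ^ ex s i =
          Polynomial.C (mon (ZMod p) g (ex s)) * Polynomial.X ^ (κ * wt (ex s)) := by
        rw [mon, map_prod, wt, Finset.mul_sum, ← Finset.prod_pow_eq_pow_sum,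
          ← Finset.prod_mul_distrib]
        refine Finset.prod_congr rfl fun i _ => ?_
        rw [mul_pow, ← map_pow, ← pow_mul]
      have e3 : n + κ * (r * p) = n + κ * (r * p - wt (ex s)) + κ * wt (ex s) := by
        rw [add_assoc, ← mul_add, Nat.sub_add_cancel hw]
      rw [e2]
      rw [e3]
      rw [pow_add, map_mul, map_mul]
      ring
    rw [e1]
    refine mul_mem (Ag_C _ _) (mul_mem ?_ (prod_mem fun i _ => pow_mem (Ag_B_mem _ Φ i.2) _))
    exact Ag_B_mono _ Φ (Nat.zero_le r) (hA (mem_A0 (gu_IsX r κ p n s)))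
  exact det_order h2' (hspn r le_rfl) h0 hmem

end Pool.Agent.H6.OR
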