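import Pool.Agent.H6.OR.Ai

/-!
# Row Aj (project OR): the mod `p` lemma for polynomials in `x`

As `mp_lemma` in `Pool/Agent/H85/OT/Hg.lean`.  `κ ≥ 1`, `k = κ + 2`, `p > κ + 2`; `f ≠ 0`, `IsX k f`, `D F = f`, `F_n = 0` for
`p ∣ n`.
1. `F = D^(p-2) f` (as in `Mf_prim`), so `IsX (k + (p-2)(p+1)) F` (`Dq_IsX`).
2. `N0` minimal with `IsX N0 F` (`Nat.find`), `F = U^(N0) P(x)`, `P ≠ 0`.  `hx ∤ P`: `P = hx Q` gives `deg Q = deg P - (p-1)`,
   `N0 ≥ p - 1` and `F = U^(N0-(p-1)) Q(x)` by `hasse_hx`: contradiction to minimality.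
3. `2 f = 2 D F = U^(N0+p+1) S(x)`, `S = 2 N0 Bx P - hx X(1-X²)P'` (`Dq_UP`), and `2 f = U^k (2 Pf)(x)`, `k ≤ p ≤ N0+p+1`.  `X_congr`:
   `N0 + p + 1 = k + j (p-1)`, `S = hx^j 2 Pf`.  `j = 0` impossible (`k ≤ p`).  So `hx ∣ S`, `hx ∣ 2 N0 Bx P`, coprime: `hx ∣ 2 N0 P`, so
   (`hx ∤ P`) `p ∣ N0`, `N0 = p s`.
4. `N0 ≤ k + (p-2)(p+1) = k + p² - p - 2 < p²` as `k < p + 2`, so `s ≤ p - 1`.
   `p s + p + 1 = κ + 2 + j (p-1)`: modulo `p - 1`: `s + 2 = κ + 2`, `s ≡ κ mod (p-1)`; `1 ≤ κ < p - 1`, `0 ≤ s ≤ p-1`: `s = κ`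
   (`s = κ + i (p-1)` with `i ≤ -1` gives `s < 0`, `i ≥ 1` gives `s ≥ p`).
So `N0 = κ p`.
-/

open PowerSeries

namespace Pool.Agent.H6.OR

open Pool.Agent.H85.OT

theorem mp_lemma_x {p : ℕ} [hp : Fact p.Prime] (κ : ℕ) (hκ : 1 ≤ κ) (hpκ : κ + 2 < p)
    (f F : (ZMod p)⟦X⟧) (hf0 : f ≠ 0) (hf : IsX (ZMod p) (κ + 2) f)
    (hF : Dq (ZMod p) F = f) (hF0 : ∀ n, p ∣ n → PowerSeries.coeff n F = 0) :
    IsX (ZMod p) (κ * p) F := by
  classical
  have h2 : p ≠ 2 := by omega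
  have hp2 := hp.out.two_le
  have hprim : IsX (ZMod p) (κ + 2 + (p - 2) * (p + 1)) F := by
    have h1 : ∀ k : ℕ, IsX (ZMod p) (κ + 2 + k * (p + 1)) ((fun G => Dq (ZMod p) G)^[k] f) := by
      intro k
      induction k with
      | zero => simpa using hf
      | succ k ih =>
        rw [Function.iterate_succ_apply']
        have h3 := Dq_IsX h2 ih
        have h4 : κ + 2 + k * (p + 1) + p + 1 = κ + 2 + (k + 1) * (p + 1) := by ring
        rwa [h4] at h3
    have h5 : ∀ (k n : ℕ), PowerSeries.coeff n ((fun G => Dq (ZMod p) G)^[k] f) =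
        (n : ZMod p) ^ k * PowerSeries.coeff n f := by
      intro k n
      induction k with
      | zero => simp
      | succ k ih =>
        rw [Function.iterate_succ_apply', coeff_Dq, ih, pow_succ]
        ring
    have h6 : (fun G => Dq (ZMod p) G)^[p - 2] f = F := by
      ext n
      rw [h5, ← hF, coeff_Dq]
      by_cases hn : p ∣ n
      · rw [hF0 n hn, mul_zero, mul_zero]
      · have hn' : (n : ZMod p) ≠ 0 := fun h => hn ((ZMod.natCast_eq_zero_iff _ _).1 h)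
        rw [← mul_assoc, ← pow_succ, show p - 2 + 1 = p - 1 by omega,
          ZMod.pow_card_sub_one_eq_one hn', one_mul]
    have h7 := h1 (p - 2)
    rwa [h6] at h7
  have hex : ∃ N, IsX (ZMod p) N F := ⟨_, hprim⟩
  have hmin : ∀ N, IsX (ZMod p) N F → Nat.find hex ≤ N := fun N h => Nat.find_min' hex h
  have hspec := Nat.find_spec hex
  generalize Nat.find hex = N0 at hmin hspec
  have hup := hmin _ hprim
  obtain ⟨P, hPd, hPF⟩ := hspec
  obtain ⟨Pf, hPfd, hPff⟩ := hf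
  have hPf0 : Pf ≠ 0 := by
    rintro rfl
    rw [map_zero, mul_zero] at hPff
    exact hf0 hPff
  have hP0 : P ≠ 0 := by
    rintro rfl
    rw [map_zero, mul_zero] at hPF
    rw [hPF, map_zero] at hF
    exact hf0 hF.symm
  have hH := hasse_hx (p := p) h2
  have hx0 : hx p ≠ 0 := by
    intro h
    have h3 := hx_natDegree (p := p) h2
    rw [h, Polynomial.natDegree_zero] at h3
    omega
  have hnd : ¬ hx p ∣ P := by
    rintro ⟨Q, rfl⟩
    have hQ0 : Q ≠ 0 := right_ne_zero_of_mul hP0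
    have h3 : (hx p * Q).natDegree = (p - 1) + Q.natDegree := by
      rw [Polynomial.natDegree_mul hx0 hQ0, hx_natDegree h2]
    have h4 : IsX (ZMod p) (N0 - (p - 1)) F := by
      refine ⟨Q, by omega, ?_⟩
      have h5 : N0 = (N0 - (p - 1)) + (p - 1) := by omega
      have h6 : F = U (ZMod p) ^ ((N0 - (p - 1)) + (p - 1)) *
          Polynomial.aeval (xx (ZMod p)) (hx p * Q) := by
        rw [← h5]
        exact hPF
      rw [h6, map_mul, pow_add]
      linear_combination (U (ZMod p) ^ (N0 - (p - 1)) * Polynomial.aeval (xx (ZMod p)) Q) * hH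
    have h6 := hmin _ h4
    omega
  have hD := Dq_UP h2 N0 P
  rw [← hPF, hF, hPff] at hD
  have hD' : U (ZMod p) ^ (κ + 2) * Polynomial.aeval (xx (ZMod p)) (2 * Pf) =
      U (ZMod p) ^ (N0 + p + 1) * Polynomial.aeval (xx (ZMod p))
        (2 * (N0 : Polynomial (ZMod p)) * Bx p * P -
          hx p * Polynomial.X * (1 - Polynomial.X ^ 2) * Polynomial.derivative P) := by
    rw [← hD, map_mul, map_ofNat]
    ring
  have h2Pf : (2 * Pf : Polynomial (ZMod p)) ≠ 0 := by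
    refine mul_ne_zero ?_ hPf0
    rw [show (2 : Polynomial (ZMod p)) = Polynomial.C (2 : ZMod p) from rfl]
    exact Polynomial.C_ne_zero.2 (two_ne h2)
  obtain ⟨j, hj1, hj2⟩ := X_congr h2 (κ + 2) (N0 + p + 1) (2 * Pf) _ h2Pf (by omega) hD'
  have hj0 : j ≠ 0 := by
    rintro rfl
    omega
  have hdiv : hx p ∣ 2 * (N0 : Polynomial (ZMod p)) * Bx p * P := by
    have h7 : hx p ∣ hx p ^ j * (2 * Pf) := Dvd.dvd.mul_right (dvd_pow_self _ hj0) _
    rw [← hj2] at h7
    have h8 : hx p ∣ hx p * Polynomial.X * (1 - Polynomial.X ^ 2) * Polynomial.derivative P :=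
      ⟨Polynomial.X * (1 - Polynomial.X ^ 2) * Polynomial.derivative P, by ring⟩
    exact (dvd_sub_left h8).1 h7
  have hdiv2 : hx p ∣ Polynomial.C (2 * (N0 : ZMod p)) * P := by
    have h9 : hx p ∣ Bx p * (Polynomial.C (2 * (N0 : ZMod p)) * P) := by
      have h10 : Bx p * (Polynomial.C (2 * (N0 : ZMod p)) * P) =
          2 * (N0 : Polynomial (ZMod p)) * Bx p * P := by
        rw [Polynomial.C_mul, Polynomial.C_ofNat, ← Polynomial.C_eq_natCast]
        ring
      rw [h10]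
      exact hdiv
    exact (hx_coprime h2).dvd_of_dvd_mul_left h9
  have hpN : p ∣ N0 := by
    by_contra hcon
    have hN' : (N0 : ZMod p) ≠ 0 := fun h => hcon ((ZMod.natCast_eq_zero_iff _ _).1 h)
    have h11 : (2 * (N0 : ZMod p)) ≠ 0 := mul_ne_zero (two_ne h2) hN'
    exact hnd ((Polynomial.dvd_C_mul h11).1 hdiv2)
  obtain ⟨s, hs⟩ := hpN
  obtain ⟨r, rfl⟩ : ∃ r, p = r + 2 := ⟨p - 2, by omega⟩
  have hr1 : r + 2 - 2 = r := by omega
  have hr2 : r + 2 - 1 = r + 1 := by omega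
  rw [hr1] at hup
  rw [hr2] at hj1
  have hsm : s ≤ r + 1 := by
    by_contra hcon
    have h12 : r + 2 ≤ s := by omega
    have h13 : (r + 2) * (r + 2) ≤ (r + 2) * s := Nat.mul_le_mul_left (r + 2) h12
    have h14 : r * (r + 2 + 1) + 2 + κ < (r + 2) * (r + 2) := by
      have h15 : (r + 2) * (r + 2) = r * (r + 2 + 1) + r + 4 := by ring
      omega
    omega
  have hsw : s = κ := by
    have h19 : (r + 2) * s + (r + 2) + 1 = κ + 2 + j * (r + 1) := by
      rw [← hs]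
      exact hj1
    have h20 : ((s : ℤ) - κ) = ((j : ℤ) - s - 1) * ((r : ℤ) + 1) := by
      have h21 : (((r : ℤ) + 2) * s + (r + 2) + 1) = κ + 2 + j * (r + 1) := by exact_mod_cast h19
      linear_combination h21
    have h22 : ((j : ℤ) - s - 1) = 0 := by
      by_contra hcon
      rcases lt_or_gt_of_ne hcon with h23 | h23
      · have h24 : ((j : ℤ) - s - 1) * ((r : ℤ) + 1) ≤ -1 * ((r : ℤ) + 1) :=
          mul_le_mul_of_nonneg_right (by omega) (by positivity)
        rw [← h20] at h24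
        omega
      · have h24 : 1 * ((r : ℤ) + 1) ≤ ((j : ℤ) - s - 1) * ((r : ℤ) + 1) :=
          mul_le_mul_of_nonneg_right (by omega) (by positivity)
        rw [← h20] at h24
        omega
    rw [h22, zero_mul] at h20
    omega
  have hN0 : N0 = κ * (r + 2) := by
    rw [hs, hsw, mul_comm]
  refine ⟨P, ?_, ?_⟩
  · rw [← hN0]
    exact hPd
  · rw [← hN0]
    exact hPF

end Pool.Agent.H6.OR
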