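import Pool.Agent.H6.OR.ADefs
import Pool.Agent.H85.OT.Cform
import Pool.Agent.H85.OT.Cbd

/-!
# Row Ak (project OR): `f` mod `p`, growth of `F1 f`

`M f = ∑_(j ≤ k) c_j (th3²)^(k-j) (th4²)^j`.
* `formX_mod`: `p > |M|`: over `K = F_p`: `th3² ↦ U`, `th4² ↦ V = x U` (`xx_mul_U`), so `f ↦ U^k ∑ (c_j/M) x^j` (as `form_x`,
  `form_lam` in `Pool/Agent/H85/OT/Cform.lean`).  A given nonzero coefficient of `f` is nonzero mod `p` for `p` larger than its
  absolute value.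
* `formX_bd`: as `exists_Bd_F` in `Pool/Agent/H85/OT/Cbd.lean`: `th3, th4` have bound `2/(1-ρ)`, so `f` has bounded partial sums, and
  `|a_n/n| ≤ |a_n|`.
-/

/-!
# Row Ak (project OR): `f` mod `p`, growth of `F1 f`

`M f = ∑_(j ≤ k) c_j (th3²)^(k-j) (th4²)^j`.
* `formX_mod`: `p > |M|`: over `K = F_p`: `th3² ↦ U`, `th4² ↦ V = x U` (`xx_mul_U`), so `f ↦ U^k ∑ (c_j/M) x^j` (as `form_x`,
  `form_lam` in `Pool/Agent/H85/OT/Cform.lean`).  A given nonzero coefficient of `f` is nonzero mod `p` for `p` larger than its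
  absolute value.
* `formX_bd`: as `exists_Bd_F` in `Pool/Agent/H85/OT/Cbd.lean`: `th3, th4` have bound `2/(1-ρ)`, so `f` has bounded partial sums, and
  `|a_n/n| ≤ |a_n|`.
-/

open PowerSeries

namespace Pool.Agent.H6.OR

open Pool.Agent.H85.OT

private theorem Ak_K (K : Type*) [Field K] {w : ℕ} {f : ℤ⟦X⟧} {M : ℤ} {c : ℕ → ℤ}
    (hM : (M : K) ≠ 0)
    (h : PowerSeries.C M * f =
      ∑ j ∈ Finset.range (w + 1), PowerSeries.C (c j) * (th3 ^ 2) ^ (w - j) * (th4 ^ 2) ^ j) :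
    PowerSeries.map (Int.castRingHom K) f =
      ∑ j ∈ Finset.range (w + 1), PowerSeries.C ((c j : K) / (M : K)) * (U K) ^ (w - j) *
        (V K) ^ j := by
  have e3 : U K = PowerSeries.map (Int.castRingHom K) (th3 ^ 2) := rfl
  have e4 : V K = PowerSeries.map (Int.castRingHom K) (th4 ^ 2) := rfl
  have h1 := congrArg (PowerSeries.map (Int.castRingHom K)) h
  rw [map_mul, PowerSeries.map_C, map_sum, Int.coe_castRingHom] at h1
  have hC : (PowerSeries.C (M : K) : K⟦X⟧) ≠ 0 := by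
    intro h0
    apply hM
    have h2 := congrArg (PowerSeries.constantCoeff (R := K)) h0
    simpa using h2
  apply mul_left_cancel₀ hC
  rw [h1, Finset.mul_sum]
  refine Finset.sum_congr rfl fun j _ => ?_
  rw [map_mul, map_mul, map_pow _ (th3 ^ 2) (w - j), map_pow _ (th4 ^ 2) j, PowerSeries.map_C,
    ← e3, ← e4, ← mul_assoc, ← mul_assoc, ← map_mul, mul_div_cancel₀ _ hM, Int.coe_castRingHom]

private theorem Ak_V (K : Type*) [Field K] {w j : ℕ} (hj : j ≤ w) (a : K) :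
    (PowerSeries.C a : K⟦X⟧) * (U K) ^ (w - j) * (V K) ^ j =
      U K ^ w * (PowerSeries.C a * (xx K) ^ j) := by
  obtain ⟨k, rfl⟩ := Nat.exists_eq_add_of_le hj
  rw [← xx_mul_U, Nat.add_sub_cancel_left]
  ring

private theorem Ak_C (K : Type*) [Field K] (a : K) (y : K⟦X⟧) (Q : Polynomial K) :
    Polynomial.aeval y (Polynomial.C a * Q) = PowerSeries.C a * Polynomial.aeval y Q := by
  rw [map_mul, Polynomial.aeval_C]
  rfl

theorem formX_mod {k : ℕ} {f : ℤ⟦X⟧} (hf : IsFormX k f) (n0 : ℕ)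
    (hn0 : PowerSeries.coeff n0 f ≠ 0) :
    ∃ p0 : ℕ, ∀ (p : ℕ) [Fact p.Prime], p0 < p →
      IsX (ZMod p) k (PowerSeries.map (Int.castRingHom (ZMod p)) f) ∧
      PowerSeries.coeff n0 (PowerSeries.map (Int.castRingHom (ZMod p)) f) ≠ 0 := by
  obtain ⟨M, c, hM, h⟩ := hf
  have key : ∀ (a : ℤ), a ≠ 0 → ∀ (p : ℕ) [Fact p.Prime], a.natAbs < p → (a : ZMod p) ≠ 0 := by
    intro a ha p _ hp h0
    rw [ZMod.intCast_zmod_eq_zero_iff_dvd] at h0
    have h1 := Int.natCast_dvd.1 h0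
    have h2 := Nat.le_of_dvd (Int.natAbs_pos.2 ha) h1
    omega
  refine ⟨M.natAbs + (PowerSeries.coeff n0 f).natAbs, fun p _ hp => ⟨?_, ?_⟩⟩
  · have hM' : (M : ZMod p) ≠ 0 := key M hM p (by omega)
    refine ⟨∑ j ∈ Finset.range (k + 1), Polynomial.C ((c j : ZMod p) / (M : ZMod p)) *
      Polynomial.X ^ j, ?_, ?_⟩
    · refine Polynomial.natDegree_sum_le_of_forall_le _ _ fun j hj => ?_
      refine (Polynomial.natDegree_C_mul_X_pow_le _ _).trans ?_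
      exact Nat.lt_succ_iff.1 (Finset.mem_range.1 hj)
    · rw [Ak_K (ZMod p) hM' h, map_sum, Finset.mul_sum]
      refine Finset.sum_congr rfl fun j hj => ?_
      rw [Ak_V (ZMod p) (Nat.lt_succ_iff.1 (Finset.mem_range.1 hj)), Ak_C, map_pow,
        Polynomial.aeval_X]
  · rw [PowerSeries.coeff_map]
    exact key _ hn0 p (by omega)

private theorem Ak_form {w : ℕ} {f : ℤ⟦X⟧} (hf : IsFormX w f) {ρ : ℝ} (hρ : 0 < ρ) (hρ1 : ρ < 1) :
    ∃ B : ℝ, ∀ N : ℕ, ∑ n ∈ Finset.range N, |((PowerSeries.coeff n f : ℤ) : ℝ)| * ρ ^ n ≤ B := by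
  obtain ⟨M, c, hM, h⟩ := hf
  have h1 := congrArg (PowerSeries.map (Int.castRingHom ℚ)) h
  rw [map_mul, map_sum] at h1
  have h2 : ∃ B, Bd ρ B ((PowerSeries.map (Int.castRingHom ℚ)) (PowerSeries.C M) *
      (PowerSeries.map (Int.castRingHom ℚ)) f) := by
    rw [h1]
    refine Cbd_sum hρ _ _ fun j _ => ?_
    rw [map_mul, map_mul, map_pow, map_pow, map_pow, map_pow, PowerSeries.map_C]
    exact ⟨_, ((Cbd_C (ρ := ρ) _).mul hρ (((Cbd_bq3 hρ hρ1).pow hρ 2).pow hρ (w - j))).mul hρ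
      (((Cbd_bq4 hρ hρ1).pow hρ 2).pow hρ j)⟩
  obtain ⟨B, hB⟩ := h2
  refine ⟨B, fun N => le_trans (Finset.sum_le_sum fun n _ => ?_) (hB N)⟩
  refine mul_le_mul_of_nonneg_right ?_ (by positivity)
  rw [PowerSeries.map_C, PowerSeries.coeff_C_mul, PowerSeries.coeff_map, eq_intCast, eq_intCast,
    Rat.cast_mul, Rat.cast_intCast, Rat.cast_intCast, abs_mul]
  have h3 : (1 : ℝ) ≤ |(M : ℝ)| := by
    have := Int.one_le_abs hM
    exact_mod_cast this
  exact le_mul_of_one_le_left (abs_nonneg _) h3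

theorem formX_bd {k : ℕ} {f : ℤ⟦X⟧} (hf : IsFormX k f) {ρ : ℝ} (hρ : 0 < ρ) (hρ1 : ρ < 1) :
    ∃ B : ℝ, Bd ρ B (F1 f) := by
  obtain ⟨B, hB⟩ := Ak_form hf hρ hρ1
  refine ⟨B, fun N => le_trans (Finset.sum_le_sum fun n _ => ?_) (hB N)⟩
  refine mul_le_mul_of_nonneg_right ?_ (by positivity)
  unfold F1
  rw [PowerSeries.coeff_mk, Rat.cast_div, Rat.cast_intCast, Rat.cast_natCast, abs_div,
    Nat.abs_cast]
  rcases Nat.eq_zero_or_pos n with h0 | h0
  · rw [h0, Nat.cast_zero, div_zero]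
    exact abs_nonneg _
  · exact div_le_self (abs_nonneg _) (by exact_mod_cast h0)

end Pool.Agent.H6.OR
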