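import Pool.Agent.H6.OR.Defs
import Pool.Agent.H85.OT.Cred

/-!
# Row Al (project OR): the reduction of `F1 f` mod `p`

(see `exists_F1p`, `Cred_norm` in `Pool/Agent/H85/OT/Cred.lean`.)
* `exists_red`: `¬ Ord0 f p`, `a_0 = 0`: `p^(v_p(n)) ∣ a_n` for all `n ≥ 1`, so `a_n/n` has norm `≤ 1` (`Cred_norm` with `k = 0`): the
  series over `ℤ_[p]` with these coefficients.
* `red_unique`: `ℤ_[p] → ℚ_[p]` is injective (`PowerSeries.map_injective`), so the lift is unique.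
* `red_Dq`: `n * (a_n/n) = a_n` in `ℤ_[p]`, then mod `p` (as in `exists_F1p`).
* `red_zero`: coefficient `0` of `g` is `0`.
* `red_Sl2`: if `coeff n g = 0` for all `n` with `p ∣ n`, then for `n ≥ 1`, `p ∣ n` the number `a_n/n ∈ ℤ_[p]` is divisible by `p`, so
  `a_n = n (a_n/n)` has norm `≤ p^(-(v_p(n)+1))`, i.e. `p^(v_p(n)+1) ∣ a_n` (`Padic.norm_int_le_pow_iff_dvd`).
-/

open PowerSeries

namespace Pool.Agent.H6.OR

open Pool.Agent.H85.OT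

theorem exists_red (f : ℤ⟦X⟧) (h0 : PowerSeries.coeff 0 f = 0) (p : ℕ) [hp : Fact p.Prime]
    (hO : ¬ Ord0 f p) : ∃ g : (ZMod p)⟦X⟧, IsRed f p g := by
  have hle : ∀ n : ℕ, ‖((((PowerSeries.coeff n f : ℤ) : ℚ) / n : ℚ) : ℚ_[p])‖ ≤ 1 := by
    intro n
    by_cases hn : n = 0
    · subst hn
      rw [h0]
      simp
    · have h1 : (p : ℤ) ^ (padicValNat p n + 0) ∣ PowerSeries.coeff n f := by
        by_contra hcon
        exact hO ⟨n, Nat.one_le_iff_ne_zero.2 hn, by simpa using hcon⟩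
      have h2 := Cred_norm p hn h1
      simpa using h2
  obtain ⟨g, hg⟩ : ∃ g : ℕ → ℤ_[p], ∀ n, (g n : ℚ_[p]) =
      ((((PowerSeries.coeff n f : ℤ) : ℚ) / n : ℚ) : ℚ_[p]) := ⟨fun n => ⟨_, hle n⟩, fun n => rfl⟩
  refine ⟨_, PowerSeries.mk g, ?_, rfl⟩
  ext n
  rw [PowerSeries.coeff_map, PowerSeries.coeff_map, PowerSeries.coeff_mk, F1, PowerSeries.coeff_mk]
  exact hg n

theorem red_unique {f : ℤ⟦X⟧} {p : ℕ} [hp : Fact p.Prime] {g g' : (ZMod p)⟦X⟧}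
    (h : IsRed f p g) (h' : IsRed f p g') : g = g' := by
  obtain ⟨G, hG, rfl⟩ := h
  obtain ⟨G', hG', rfl⟩ := h'
  have h1 : G = G' := by
    ext n
    have h2 := congrArg (PowerSeries.coeff n) (hG.trans hG'.symm)
    rw [PowerSeries.coeff_map, PowerSeries.coeff_map] at h2
    have h3 : ((PowerSeries.coeff n G : ℤ_[p]) : ℚ_[p]) = ((PowerSeries.coeff n G' : ℤ_[p]) : ℚ_[p]) := h2
    exact Subtype.ext h3
  rw [h1]

/-- the coefficients of the lift -/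
theorem Al_coeff {f : ℤ⟦X⟧} {p : ℕ} [hp : Fact p.Prime] {G : ℤ_[p]⟦X⟧}
    (hG : PowerSeries.map (PadicInt.Coe.ringHom (p := p)) G =
      PowerSeries.map (Rat.castHom ℚ_[p]) (F1 f)) (n : ℕ) :
    ((PowerSeries.coeff n G : ℤ_[p]) : ℚ_[p]) =
      ((((PowerSeries.coeff n f : ℤ) : ℚ) / n : ℚ) : ℚ_[p]) := by
  have h2 := congrArg (PowerSeries.coeff n) hG
  rw [PowerSeries.coeff_map, PowerSeries.coeff_map, F1, PowerSeries.coeff_mk] at h2
  exact h2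

/-- `n * (a_n/n) = a_n` in `ℤ_[p]` -/
theorem Al_mul {f : ℤ⟦X⟧} {p : ℕ} [hp : Fact p.Prime] {G : ℤ_[p]⟦X⟧}
    (hG : PowerSeries.map (PadicInt.Coe.ringHom (p := p)) G =
      PowerSeries.map (Rat.castHom ℚ_[p]) (F1 f)) {n : ℕ} (hn : n ≠ 0) :
    (n : ℤ_[p]) * PowerSeries.coeff n G = ((PowerSeries.coeff n f : ℤ) : ℤ_[p]) := by
  apply Subtype.ext
  rw [PadicInt.coe_mul, PadicInt.coe_natCast, PadicInt.coe_intCast, Al_coeff hG]
  have hn' : ((n : ℕ) : ℚ_[p]) ≠ 0 := Nat.cast_ne_zero.2 hn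
  push_cast
  field_simp

theorem red_Dq {f : ℤ⟦X⟧} (h0 : PowerSeries.coeff 0 f = 0) {p : ℕ} [hp : Fact p.Prime]
    {g : (ZMod p)⟦X⟧} (h : IsRed f p g) :
    Dq (ZMod p) g = PowerSeries.map (Int.castRingHom (ZMod p)) f := by
  obtain ⟨G, hG, rfl⟩ := h
  ext n
  rw [coeff_Dq, PowerSeries.coeff_map, PowerSeries.coeff_map]
  by_cases hn : n = 0
  · subst hn
    rw [h0]
    simp
  · have h2 := congrArg (PadicInt.toZMod (p := p)) (Al_mul hG hn)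
    rw [map_mul, map_natCast, map_intCast] at h2
    exact h2

theorem red_zero {f : ℤ⟦X⟧} {p : ℕ} [hp : Fact p.Prime] {g : (ZMod p)⟦X⟧}
    (h : IsRed f p g) : PowerSeries.coeff 0 g = 0 := by
  obtain ⟨G, hG, rfl⟩ := h
  have h1 : PowerSeries.coeff 0 G = (0 : ℤ_[p]) := by
    apply Subtype.ext
    rw [Al_coeff hG]
    simp
  rw [PowerSeries.coeff_map, h1, map_zero]

theorem red_Sl2 {f : ℤ⟦X⟧} {p : ℕ} [hp : Fact p.Prime] {g : (ZMod p)⟦X⟧}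
    (h : IsRed f p g) (hg : ∀ n, p ∣ n → PowerSeries.coeff n g = 0) : Sl2 f p := by
  obtain ⟨G, hG, rfl⟩ := h
  intro n hn1 hpn
  have hn : n ≠ 0 := by omega
  have hp0 : (0 : ℝ) < p := by exact_mod_cast hp.out.pos
  have h1 := hg n hpn
  rw [PowerSeries.coeff_map] at h1
  have h2 : PowerSeries.coeff n G ∈ RingHom.ker (PadicInt.toZMod (p := p)) := h1
  rw [PadicInt.ker_toZMod, PadicInt.maximalIdeal_eq_span_p, Ideal.mem_span_singleton] at h2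
  obtain ⟨y, hy⟩ := h2
  have h3 := Al_mul hG hn
  rw [hy] at h3
  have h4 : ‖((PowerSeries.coeff n f : ℤ) : ℚ_[p])‖ ≤
      (p : ℝ) ^ (-((padicValNat p n + 1 : ℕ) : ℤ)) := by
    have h5 : ((PowerSeries.coeff n f : ℤ) : ℚ_[p]) = ((n : ℚ) : ℚ_[p]) * ((p : ℚ_[p]) * (y : ℚ_[p])) := by
      have h6 := congrArg (fun z : ℤ_[p] => (z : ℚ_[p])) h3
      simp only [PadicInt.coe_mul, PadicInt.coe_natCast, PadicInt.coe_intCast] at h6
      rw [← h6]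
      push_cast
      rfl
    rw [h5, norm_mul, norm_mul, Cred_norm_nat p hn, Padic.norm_p]
    have h7 : ‖(y : ℚ_[p])‖ ≤ 1 := y.2
    have e : (p : ℝ) ^ (-((padicValNat p n + 1 : ℕ) : ℤ)) =
        (p : ℝ) ^ (-(padicValNat p n : ℤ)) * ((p : ℝ)⁻¹ * 1) := by
      rw [mul_one, ← zpow_neg_one, ← zpow_add₀ hp0.ne']
      congr 1
      push_cast
      ring
    rw [e]
    gcongr
  exact_mod_cast (Padic.norm_int_le_pow_iff_dvd _ _).1 h4

end Pool.Agent.H6.OR
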