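import Pool.Agent.H6.OR.Defs
import Pool.Agent.H85.OT.Weig

/-!
# Row Am (project OR): the Hecke relation mod `p`

`a_(pn) = a_p a_n - χ p^(k-1) a_(n/p)` for `n ≥ 1`, `k ≥ 4`.  Let `G ∈ ℤ_[p]⟦X⟧` be the lift in `IsRed`, so `n G_n = a_n` in `ℤ_[p]` for
`n ≥ 1` (image in `ℚ_[p]`), `G_0 = 0`.
* `frb`: for `n ≥ 1`: `p n G_(pn) = (p G_p)(n G_n) - χ p^(k-1) (n/p) G_(n/p)` if `p ∣ n`, where `(n/p) = n/p`, so
  `p n (G_(pn) - G_p G_n + χ p^(k-3) G_(n/p)) = 0`, and `ℤ_[p]` is a domain of characteristic `0`; reduce mod `p`: `k - 3 ≥ 1`.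
  `n = 0`: both sides `0`.
* `ord0_iff`: if `p ∣ a_p` then `¬ Ord0 f p` (`not_ord0R_of_dvd` with `R = ℤ`; `Ord0R` unfolds to `Ord0`, or copy the proof).
-/

open PowerSeries

namespace Pool.Agent.H6.OR

open Pool.Agent.H85.OT

theorem Am_coe (f : ℤ⟦X⟧) {p : ℕ} [hp : Fact p.Prime] {G : ℤ_[p]⟦X⟧}
    (hG : PowerSeries.map (PadicInt.Coe.ringHom (p := p)) G =
      PowerSeries.map (Rat.castHom ℚ_[p]) (F1 f)) (n : ℕ) :
    ((PowerSeries.coeff n G : ℤ_[p]) : ℚ_[p]) =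
      ((PowerSeries.coeff n f : ℤ) : ℚ_[p]) / (n : ℚ_[p]) := by
  have h1 := congrArg (PowerSeries.coeff n) hG
  rw [PowerSeries.coeff_map, PowerSeries.coeff_map, F1, PowerSeries.coeff_mk, map_div₀,
    map_intCast, map_natCast] at h1
  exact h1

theorem Am_key (f : ℤ⟦X⟧) (k p : ℕ) [hp : Fact p.Prime] (hk : 4 ≤ k) (χ : ℤ)
    (h : ∀ n : ℕ, 1 ≤ n → PowerSeries.coeff (p * n) f =
      PowerSeries.coeff p f * PowerSeries.coeff n f -
        χ * (p : ℤ) ^ (k - 1) * (if p ∣ n then PowerSeries.coeff (n / p) f else 0))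
    {G : ℤ_[p]⟦X⟧}
    (hG : PowerSeries.map (PadicInt.Coe.ringHom (p := p)) G =
      PowerSeries.map (Rat.castHom ℚ_[p]) (F1 f)) (n : ℕ) (hn : 1 ≤ n) :
    ∃ x : ℤ_[p], PowerSeries.coeff (p * n) G =
      PowerSeries.coeff p G * PowerSeries.coeff n G - (p : ℤ_[p]) * x := by
  have hp0 : (p : ℚ_[p]) ≠ 0 := by exact_mod_cast hp.out.ne_zero
  have hn0 : (n : ℚ_[p]) ≠ 0 := by exact_mod_cast (by omega : n ≠ 0)
  by_cases hpn : p ∣ n
  · obtain ⟨m, rfl⟩ := hpn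
    have hm0 : (m : ℚ_[p]) ≠ 0 := by
      intro h0
      apply hn0
      push_cast
      rw [h0, mul_zero]
    refine ⟨(χ : ℤ_[p]) * (p : ℤ_[p]) ^ (k - 4) * PowerSeries.coeff m G, Subtype.ext ?_⟩
    have h1 := h (p * m) hn
    rw [if_pos (dvd_mul_right p m), Nat.mul_div_cancel_left m hp.out.pos] at h1
    have h2 : ((PowerSeries.coeff (p * (p * m)) f : ℤ) : ℚ_[p]) =
        ((PowerSeries.coeff p f : ℤ) : ℚ_[p]) * ((PowerSeries.coeff (p * m) f : ℤ) : ℚ_[p]) -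
          (χ : ℚ_[p]) * (p : ℚ_[p]) ^ (k - 1) * ((PowerSeries.coeff m f : ℤ) : ℚ_[p]) := by
      rw [h1]
      push_cast
      rfl
    push_cast
    rw [Am_coe f hG, Am_coe f hG, Am_coe f hG, Am_coe f hG, h2]
    have h3 : (p : ℚ_[p]) ^ (k - 1) = (p : ℚ_[p]) ^ (k - 4) * (p : ℚ_[p]) ^ 3 := by
      rw [← pow_add]
      congr 1
      omega
    rw [h3]
    push_cast
    field_simp
  · refine ⟨0, Subtype.ext ?_⟩
    have h1 := h n hn
    rw [if_neg hpn, mul_zero, sub_zero] at h1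
    push_cast
    rw [Am_coe f hG, Am_coe f hG, Am_coe f hG, h1]
    push_cast
    field_simp
    ring

theorem frb (f : ℤ⟦X⟧) (k p : ℕ) [hp : Fact p.Prime] (hk : 4 ≤ k) (χ : ℤ)
    (h : ∀ n : ℕ, 1 ≤ n → PowerSeries.coeff (p * n) f =
      PowerSeries.coeff p f * PowerSeries.coeff n f -
        χ * (p : ℤ) ^ (k - 1) * (if p ∣ n then PowerSeries.coeff (n / p) f else 0))
    (g : (ZMod p)⟦X⟧) (hg : IsRed f p g) (n : ℕ) :
    PowerSeries.coeff (p * n) g = PowerSeries.coeff p g * PowerSeries.coeff n g := by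
  obtain ⟨G, hG, rfl⟩ := hg
  rw [PowerSeries.coeff_map, PowerSeries.coeff_map, PowerSeries.coeff_map]
  rcases Nat.eq_zero_or_pos n with h0 | h0
  · have h1 : PowerSeries.coeff 0 G = 0 := by
      apply Subtype.ext
      rw [Am_coe f hG]
      simp
    rw [h0, mul_zero, h1, map_zero, mul_zero]
  · obtain ⟨x, hx⟩ := Am_key f k p hk χ h hG n h0
    rw [hx, map_sub, map_mul, map_mul, map_natCast, ZMod.natCast_self, zero_mul, sub_zero]

theorem not_ord0_of_dvd (f : ℤ⟦X⟧) (k p : ℕ) (hp : p.Prime) (hk : 4 ≤ k) (χ : ℤ)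
    (h : ∀ n : ℕ, 1 ≤ n → PowerSeries.coeff (p * n) f =
      PowerSeries.coeff p f * PowerSeries.coeff n f -
        χ * (p : ℤ) ^ (k - 1) * (if p ∣ n then PowerSeries.coeff (n / p) f else 0))
    (hd : (p : ℤ) ∣ PowerSeries.coeff p f) : ¬ Ord0 f p := by
  have h1 := not_ord0R_of_dvd (R := ℤ) f k p hk hp χ h (by exact_mod_cast hd)
  intro h2
  apply h1
  obtain ⟨n, hn, h3⟩ := h2
  exact ⟨n, hn, h3⟩

end Pool.Agent.H6.OR
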