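import Pool.Agent.H6.OR.Af
import Pool.Agent.H6.OR.Ag
import Pool.Agent.H6.OR.Aj
import Pool.Agent.H6.OR.Ak
import Pool.Agent.H6.OR.Al
import Pool.Agent.H6.OR.Am

/-!
# Row An (project OR): `OrdData` for eigenforms that are polynomials in `θ₃², θ₄²`

`NZ κ` is the nonvanishing statement (block of helper68).  Take `s = 2^(r-1)`, `κ = k - 2`, `p0` = maximum of `N`, `k`, and the bound of
`formX_mod` (for the odd `n0`).  Let `p > p0` be prime, `¬ Ord0 f p`: `g` from `exists_red`, `c = coeff p g`, `H = Hh p c g = g - c g(q^p)`.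
* `frb` (`p ∤ N` as `p > N ≥ 1`): `coeff (p n) g = c coeff n g`, so `coeff m H = 0` for `p ∣ m` (`PowerSeries.coeff_expand_mul`).
* `D H = D g - c D(g(q^p)) = f mod p` (`red_Dq`, `Dq_expand`; `D (C c * y) = C c * D y`: compare coefficients), and
  `IsX k (f mod p)` with coefficient `n0` nonzero (`formX_mod`), so `mp_lemma_x` gives `IsX (κ p) H` (`κ + 2 = k < p`).
* `form`: `PP_form` (`r ≥ 1`).
* `ze`: `¬ Sl2 f p`; any `g'` with `IsRed f p g'` equals `g` (`red_unique`).  `c ≠ 0`: otherwise `coeff (p n) g = 0` for all `n`, and `red_Sl2`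
  gives `Sl2 f p`.  `NZ κ` gives `PP t g ≠ 0`, and `PP_order` the bound.
* `bdd`: `formX_bd`.
-/

open PowerSeries

namespace Pool.Agent.H6.OR

open Pool.Agent.H85.OT

/-- nonvanishing of `P(F)` mod `p` -/
def NZ (κ : ℕ) : Prop :=
  ∀ (p : ℕ) [hp : Fact p.Prime], κ + 2 < p → ∀ (g : (ZMod p)⟦X⟧) (c : ZMod p), c ≠ 0 →
    IsX (ZMod p) (κ * p) (Hh (ZMod p) p hp.out.ne_zero c g) →
    IsX (ZMod p) (κ + 2) (Dq (ZMod p) (Hh (ZMod p) p hp.out.ne_zero c g)) →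
    (∃ n, ¬ 2 ∣ n ∧
      PowerSeries.coeff n (Dq (ZMod p) (Hh (ZMod p) p hp.out.ne_zero c g)) ≠ 0) →
    ∀ (r n : ℕ) (t : Ix r p n → ZMod p), t ≠ 0 → PP (ZMod p) r κ p n t g ≠ 0

private theorem An_D {p : ℕ} [hp : Fact p.Prime] {f : ℤ⟦X⟧}
    (h0 : PowerSeries.coeff 0 f = 0) {g : (ZMod p)⟦X⟧} (hg : IsRed f p g) (c : ZMod p) :
    Dq (ZMod p) (Hh (ZMod p) p hp.out.ne_zero c g) =
      PowerSeries.map (Int.castRingHom (ZMod p)) f := by
  rw [Hh, map_sub, red_Dq h0 hg, ← PowerSeries.smul_eq_C_mul, Derivation.map_smul, Dq_expand,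
    smul_zero, sub_zero]

private theorem An_X {p : ℕ} [hp : Fact p.Prime] {κ : ℕ} (hκ : 1 ≤ κ) (hpκ : κ + 2 < p)
    {f : ℤ⟦X⟧} (h0 : PowerSeries.coeff 0 f = 0)
    (hfX : IsX (ZMod p) (κ + 2) (PowerSeries.map (Int.castRingHom (ZMod p)) f)) {n0 : ℕ}
    (hfn : PowerSeries.coeff n0 (PowerSeries.map (Int.castRingHom (ZMod p)) f) ≠ 0)
    {g : (ZMod p)⟦X⟧} (hg : IsRed f p g)
    (hfr : ∀ n, PowerSeries.coeff (p * n) g = PowerSeries.coeff p g * PowerSeries.coeff n g) :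
    IsX (ZMod p) (κ * p) (Hh (ZMod p) p hp.out.ne_zero (PowerSeries.coeff p g) g) := by
  refine mp_lemma_x κ hκ hpκ (PowerSeries.map (Int.castRingHom (ZMod p)) f) _ ?_ hfX
    (An_D h0 hg _) ?_
  · intro h
    apply hfn
    rw [h, map_zero]
  · rintro n ⟨m, rfl⟩
    rw [Hh, map_sub, PowerSeries.coeff_C_mul, PowerSeries.coeff_expand_mul, hfr, sub_self]

theorem ordData (k : ℕ) (hk : 4 ≤ k) (hNZ : NZ (k - 2)) (f : ℤ⟦X⟧) (hf : IsFormX k f)
    (h0 : PowerSeries.coeff 0 f = 0) (N : ℕ) (hN : 1 ≤ N) (χ : ℕ → ℤ)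
    (hecke : ∀ p : ℕ, p.Prime → ¬ p ∣ N → ∀ n : ℕ, 1 ≤ n → PowerSeries.coeff (p * n) f =
      PowerSeries.coeff p f * PowerSeries.coeff n f -
        χ p * (p : ℤ) ^ (k - 1) * (if p ∣ n then PowerSeries.coeff (n / p) f else 0))
    (n0 : ℕ) (hn0 : ¬ 2 ∣ n0) (hn0' : PowerSeries.coeff n0 f ≠ 0) (r : ℕ) (hr : 1 ≤ r) :
    ∃ p0 : ℕ, OrdData f (k - 2) r (2 ^ (r - 1)) p0 := by
  obtain ⟨κ, rfl⟩ : ∃ κ, k = κ + 2 := ⟨k - 2, by omega⟩
  rw [Nat.add_sub_cancel] at hNZ ⊢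
  have hκ : 1 ≤ κ := by omega
  obtain ⟨p1, hp1⟩ := formX_mod hf n0 hn0'
  have hfr : ∀ (p : ℕ) [hp : Fact p.Prime], N < p → ∀ g : (ZMod p)⟦X⟧, IsRed f p g →
      ∀ n, PowerSeries.coeff (p * n) g = PowerSeries.coeff p g * PowerSeries.coeff n g := by
    intro p hp hNp g hg n
    have hpN : ¬ p ∣ N := fun h => absurd (Nat.le_of_dvd (by omega) h) (by omega)
    exact frb f (κ + 2) p hk (χ p) (hecke p hp.out hpN) g hg n
  refine ⟨max N (max (κ + 2) p1), h0, hκ, hr, Nat.one_le_two_pow,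
    fun ρ h h' => formX_bd hf h h', ?_, ?_⟩
  · intro p hp hpp hO
    have h1 : N < p := lt_of_le_of_lt (le_max_left _ _) hpp
    have h2 : κ + 2 < p := lt_of_le_of_lt ((le_max_left _ _).trans (le_max_right _ _)) hpp
    have h3 : p1 < p := lt_of_le_of_lt ((le_max_right _ _).trans (le_max_right _ _)) hpp
    obtain ⟨h4, h5⟩ := hp1 p h3
    obtain ⟨g, hg⟩ := exists_red f h0 p hO
    refine ⟨g, PowerSeries.coeff p g, hg, fun E n t ht => ?_⟩
    exact PP_form (by omega) κ r hr _ (An_X hκ h2 h0 h4 h5 hg (hfr p h1 g hg)) E n t ht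
  · intro p hp hpp hO hS g hg n t ht
    have h1 : N < p := lt_of_le_of_lt (le_max_left _ _) hpp
    have h2 : κ + 2 < p := lt_of_le_of_lt ((le_max_left _ _).trans (le_max_right _ _)) hpp
    have h3 : p1 < p := lt_of_le_of_lt ((le_max_right _ _).trans (le_max_right _ _)) hpp
    obtain ⟨h4, h5⟩ := hp1 p h3
    have hfr' := hfr p h1 g hg
    have hc : PowerSeries.coeff p g ≠ 0 := by
      intro hc
      apply hS
      refine red_Sl2 hg ?_
      rintro m ⟨l, rfl⟩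
      rw [hfr', hc, zero_mul]
    have hX := An_X hκ h2 h0 h4 h5 hg hfr'
    have hD := An_D h0 hg (PowerSeries.coeff p g)
    refine PP_order (by omega) κ r hr g _ hc hX n t ?_
    refine hNZ p h2 g _ hc hX ?_ ⟨n0, hn0, ?_⟩ r n t ht
    · rw [hD]
      exact h4
    · rw [hD]
      exact h5

end Pool.Agent.H6.OR
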