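import Pool.Agent.H6.OR.Defs
import Pool.Agent.H85.OT.Fld

/-!
# Definitions for part A of the project OR (graded rings, levels)

`K` a field.  `SS K = K⟦X⟧[T]`; the variable `T` (`Polynomial.X`) keeps track of the weight.
* `A0 K` : the `K`-subalgebra generated by `U T`, `V T`;
* `uT K i`, `vT K i` : `U(q^(2^i)) T`, `V(q^(2^i)) T`;
* `Rl K i` : `A0 K` with `vT 1, .., vT i` adjoined (forms of level `2^i`);
* `Spn A B N` : `A ≤ B` and `B` is spanned over `A` by at most `N` elements, among them `1`;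
* `IsX K w y` : `y = U^w P(x)`, `deg P ≤ w`;
* `IsFormX k f` : up to an integer factor `f` is a homogeneous polynomial of degree `k` in `θ₃², θ₄²`
  with integer coefficients.
-/

open PowerSeries

namespace Pool.Agent.H6.OR

open Pool.Agent.H85.OT

/-- `K⟦X⟧[T]` -/
abbrev SS (K : Type*) [Field K] : Type _ := Polynomial (K⟦X⟧)

/-- the subalgebra generated by `U T, V T` -/
noncomputable def A0 (K : Type*) [Field K] : Subalgebra K (SS K) :=
  Algebra.adjoin K {Polynomial.C (U K) * Polynomial.X, Polynomial.C (V K) * Polynomial.X}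

/-- `U(q^(2^i)) T` -/
noncomputable def uT (K : Type*) [Field K] (i : ℕ) : SS K :=
  Polynomial.C (dd K i (U K)) * Polynomial.X

/-- `V(q^(2^i)) T` -/
noncomputable def vT (K : Type*) [Field K] (i : ℕ) : SS K :=
  Polynomial.C (dd K i (V K)) * Polynomial.X

/-- `A0` with `V(q^2) T, .., V(q^(2^i)) T` adjoined -/
noncomputable def Rl (K : Type*) [Field K] : ℕ → Subalgebra K (SS K)
  | 0 => A0 K
  | i + 1 => Rl K i ⊔ Algebra.adjoin K {vT K (i + 1)}

/-- `B` is spanned over `A` by at most `N` elements, among them `1` -/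
def Spn {K S : Type*} [CommRing K] [CommRing S] [Algebra K S] (A B : Subalgebra K S)
    (N : ℕ) : Prop :=
  A ≤ B ∧ ∃ s : Finset S, s.card ≤ N ∧ (1 : S) ∈ s ∧ (∀ z ∈ s, z ∈ B) ∧
    ∀ b ∈ B, b ∈ Submodule.span A (s : Set S)

/-- `y = U^w P(x)`, `deg P ≤ w` -/
def IsX (K : Type*) [Field K] (w : ℕ) (y : K⟦X⟧) : Prop :=
  ∃ P : Polynomial K, P.natDegree ≤ w ∧ y = U K ^ w * Polynomial.aeval (xx K) P

/-- up to an integer factor `f` is a homogeneous polynomial of degree `k` in `θ₃², θ₄²` -/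
def IsFormX (k : ℕ) (f : ℤ⟦X⟧) : Prop :=
  ∃ (M : ℤ) (c : ℕ → ℤ), M ≠ 0 ∧
    PowerSeries.C M * f =
      ∑ j ∈ Finset.range (k + 1), PowerSeries.C (c j) * (th3 ^ 2) ^ (k - j) * (th4 ^ 2) ^ j

end Pool.Agent.H6.OR
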