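import Pool.Agent.H68.OR.Id
import Pool.Agent.H68.OR.Ns
import Pool.Agent.H6.OR.An

/-!
# Row Nz (project OR): the nonvanishing statement `NZ κ`

Adapted from the row ORZFin (helper68, proved by helper61) with `nsX` (helper49): `H` a homogeneous polynomial
of degree `κ p` in `U, V`, any `κ ≥ 1`.
-/

open PowerSeries

namespace Pool.Agent.H6.OR

open Pool.Agent.H85.OT Pool.Agent.H68.OR

variable {p : ℕ} [hp : Fact p.Prime]

theorem Nz_expand (G : (ZMod p)⟦X⟧) : PowerSeries.expand p hp.out.ne_zero G = G ^ p := by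
  have h := MvPowerSeries.map_frobenius_expand (σ := Unit) (R := ZMod p) p hp.out.ne_zero (f := G)
  rw [ZMod.frobenius_zmod, MvPowerSeries.map_id] at h
  exact h

theorem Nz_dd_C (i : ℕ) (c : ZMod p) :
    dd (ZMod p) i (PowerSeries.C c) = PowerSeries.C c :=
  PowerSeries.expand_C _ _ c

/-- `io ∘ dd i` of `c g^p = g - H` -/
theorem Nz_ioH (i : ℕ) (c : ZMod p) (g : (ZMod p)⟦X⟧) :
    io p (dd (ZMod p) i (Hh (ZMod p) p hp.out.ne_zero c g)) =
      io p (dd (ZMod p) i g) - io p (PowerSeries.C c) * io p (dd (ZMod p) i g) ^ p := by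
  unfold Hh
  rw [Nz_expand, map_sub, map_mul, map_pow, Nz_dd_C, map_sub, map_mul, map_pow]

theorem Nz_gu (κ n r : ℕ) (s : Ix r p n) (g : (ZMod p)⟦X⟧) :
    io p (gu (ZMod p) r κ p n s * mon (ZMod p) g (ex s)) =
      uL p 0 ^ (n + κ * (r * p)) * (xL p 0 ^ (s.2 : ℕ) *
        ∏ i : Fin r, (io p (dd (ZMod p) (i : ℕ) g) / uL p 0 ^ κ) ^ (s.1 i : ℕ)) := by
  have hV : io p (V (ZMod p)) = xL p 0 * uL p 0 := by
    unfold xL uL
    rw [← map_mul, dd_zero, dd_zero, xx_mul_U]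
  have hU : io p (U (ZMod p)) = uL p 0 := by
    unfold uL
    rw [dd_zero]
  have hu := uL_ne (p := p) 0
  have hwt : wt (ex s) ≤ r * p := by
    unfold wt ex
    calc ∑ i : Fin r, ((s.1 i : Fin p) : ℕ) ≤ ∑ _i : Fin r, p :=
          Finset.sum_le_sum fun i _ => (s.1 i).2.le
      _ = r * p := by rw [Finset.sum_const, Finset.card_univ, Fintype.card_fin, smul_eq_mul]
  have hv : (s.2 : ℕ) ≤ n := Nat.lt_succ_iff.1 s.2.2
  have hm : io p (mon (ZMod p) g (ex s)) = uL p 0 ^ (κ * wt (ex s)) *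
      ∏ i : Fin r, (io p (dd (ZMod p) (i : ℕ) g) / uL p 0 ^ κ) ^ (s.1 i : ℕ) := by
    unfold mon wt ex
    rw [map_prod, Finset.mul_sum, ← Finset.prod_pow_eq_pow_sum, ← Finset.prod_mul_distrib]
    refine Finset.prod_congr rfl fun i _ => ?_
    rw [map_pow, div_pow, pow_mul]
    exact (mul_div_cancel₀ _ (pow_ne_zero _ (pow_ne_zero _ hu))).symm
  have hk : κ * (r * p - wt (ex s)) + κ * wt (ex s) = κ * (r * p) := by
    rw [← mul_add, Nat.sub_add_cancel hwt]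
  have h1 : uL p 0 ^ (n + κ * (r * p - wt (ex s)) - (s.2 : ℕ)) * uL p 0 ^ (s.2 : ℕ) *
      uL p 0 ^ (κ * wt (ex s)) = uL p 0 ^ (n + κ * (r * p)) := by
    rw [← pow_add, ← pow_add]
    refine congrArg (fun k => uL p 0 ^ k) ?_
    omega
  rw [map_mul, hm]
  unfold gu
  rw [map_mul, map_pow, map_pow, hV, hU, mul_pow, ← h1]
  ring

/-- the auxiliary function does not vanish mod `p` -/
theorem PP_ne_zeroX (κ : ℕ) (hκ : 1 ≤ κ) (hpκ : κ + 2 < p) (g : (ZMod p)⟦X⟧) (c : ZMod p)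
    (hc : c ≠ 0) (hH : IsX (ZMod p) (κ * p) (Hh (ZMod p) p hp.out.ne_zero c g))
    (hD : IsX (ZMod p) (κ + 2) (Dq (ZMod p) (Hh (ZMod p) p hp.out.ne_zero c g)))
    (hodd : ∃ n, Odd n ∧
      PowerSeries.coeff n (Dq (ZMod p) (Hh (ZMod p) p hp.out.ne_zero c g)) ≠ 0) (r n : ℕ)
    (t : Ix r p n → ZMod p) (ht : t ≠ 0) : PP (ZMod p) r κ p n t g ≠ 0 := by
  intro h0
  have h2 : p ≠ 2 := by omega
  obtain ⟨m, hm⟩ : ∃ m, m = r - 1 := ⟨_, rfl⟩
  have hu := uL_ne (p := p) 0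
  obtain ⟨H, hHd⟩ : ∃ H, H = Hh (ZMod p) p hp.out.ne_zero c g := ⟨_, rfl⟩
  have hioH : ∀ i, io p (dd (ZMod p) i H) =
      io p (dd (ZMod p) i g) - io p (PowerSeries.C c) * io p (dd (ZMod p) i g) ^ p := by
    intro i
    rw [hHd]
    exact Nz_ioH i c g
  rw [← hHd] at hH hD hodd
  -- the data for `indep`
  have hb : ∀ i : Fin r, io p (dd (ZMod p) (i : ℕ) H) / uL p 0 ^ (κ * p) ∈ EE p 0 m := by
    intro i
    have h1 := Ns_wtE_formX h2 (κ * p) H hH (i := (i : ℕ)) (j := 0) (m := m) (Nat.zero_le _)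
      (by have := i.2; omega)
    exact h1
  have ha : (uL p 0 ^ (κ * (p - 1)))⁻¹ ∈ EE p 0 m := uL_inv_mem h2 κ (Nat.zero_le m)
  have hc' : io p (PowerSeries.C c) ∈ EE p 0 m := io_C_mem _ c
  have ha0 : (uL p 0 ^ (κ * (p - 1)))⁻¹ ≠ 0 := inv_ne_zero (pow_ne_zero _ hu)
  have hc0 : io p (PowerSeries.C c) ≠ 0 := by
    intro h
    have h3 : PowerSeries.C c = 0 := io_inj p (by rw [h, map_zero])
    exact hc ((map_eq_zero_iff _ (PowerSeries.C_injective)).1 h3)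
  have hφ : ∀ i : Fin r, io p (PowerSeries.C c) *
      (io p (dd (ZMod p) (i : ℕ) g) / uL p 0 ^ κ) ^ p =
      (uL p 0 ^ (κ * (p - 1)))⁻¹ * (io p (dd (ZMod p) (i : ℕ) g) / uL p 0 ^ κ) -
        io p (dd (ZMod p) (i : ℕ) H) / uL p 0 ^ (κ * p) := by
    intro i
    refine (sol_iff κ 0 c (dd (ZMod p) (i : ℕ) H) _).1 ?_
    rw [mul_div_cancel₀ _ (pow_ne_zero _ hu), hioH]
    ring
  have hns : ∀ lam : Fin r → ℕ, (∃ i, ¬ p ∣ lam i) → ∀ Y ∈ EE p 0 m,
      io p (PowerSeries.C c) * Y ^ p ≠ (uL p 0 ^ (κ * (p - 1)))⁻¹ * Y +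
        ∑ i : Fin r, (lam i : LL p) * (io p (dd (ZMod p) (i : ℕ) H) / uL p 0 ^ (κ * p)) := by
    intro lam hlam Y hY hYe
    obtain ⟨i0, hi0⟩ := hlam
    obtain ⟨lam', hlam'⟩ : ∃ lam' : ℕ → ZMod p, ∀ i : Fin r, lam' (i : ℕ) = -(lam i : ZMod p) :=
      ⟨fun j => if h : j < r then -(lam ⟨j, h⟩ : ZMod p) else 0, fun i => by
        simp only [dif_pos i.2, Fin.eta]⟩
    have hsol : Sol p κ 0 m c
        (∑ i ∈ Finset.range (m + 1), PowerSeries.C (lam' i) * dd (ZMod p) i H) := by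
      refine ⟨Y, hY, (sol_iff κ 0 c _ Y).2 ?_⟩
      have hm' : m + 1 = r := by have := i0.2; omega
      rw [hYe, hm', ← Fin.sum_univ_eq_sum_range
        (fun i => PowerSeries.C (lam' i) * dd (ZMod p) i H) r, map_sum, Finset.sum_div,
        sub_eq_add_neg, ← Finset.sum_neg_distrib]
      refine congrArg _ (Finset.sum_congr rfl fun i _ => ?_)
      have h5 : io p (PowerSeries.C (lam' (i : ℕ))) = -(lam i : LL p) := by
        rw [hlam', map_neg, map_neg, map_natCast, map_natCast]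
      rw [map_mul, h5]
      ring
    have h6 := nsX κ hκ hpκ H hH hD hodd c hc m lam' hsol (i0 : ℕ)
      (by have := i0.2; omega)
    rw [hlam', neg_eq_zero, ZMod.natCast_eq_zero_iff] at h6
    exact hi0 h6
  -- the coefficients
  have hx : io p (xx (ZMod p)) ∈ EE p 0 m := by
    have h1 := xL_mem (p := p) (i := 0) (j := 0) (m := m) le_rfl (Nat.zero_le m)
    unfold xL at h1
    rwa [dd_zero] at h1
  have hxL : xL p 0 = io p (xx (ZMod p)) := by
    unfold xL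
    rw [dd_zero]
  obtain ⟨Q, hQ⟩ : ∃ Q : (Fin r → Fin p) → Polynomial (ZMod p), ∀ e, Q e =
      ∑ v : Fin (n + 1), Polynomial.C (t (e, v)) * Polynomial.X ^ (v : ℕ) := ⟨_, fun e => rfl⟩
  have hσv : ∀ e, io p (Polynomial.aeval (xx (ZMod p)) (Q e)) =
      ∑ v : Fin (n + 1), io p (PowerSeries.C (t (e, v))) * xL p 0 ^ (v : ℕ) := by
    intro e
    rw [hQ, map_sum, map_sum]
    refine Finset.sum_congr rfl fun v _ => ?_
    rw [map_mul, Polynomial.aeval_C, map_pow, Polynomial.aeval_X, map_mul, map_pow, hxL]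
    rfl
  have hrel : ∑ e : Fin r → Fin p, io p (Polynomial.aeval (xx (ZMod p)) (Q e)) *
      ∏ i : Fin r, (io p (dd (ZMod p) (i : ℕ) g) / uL p 0 ^ κ) ^ (e i : ℕ) = 0 := by
    have h7 : io p (PP (ZMod p) r κ p n t g) = uL p 0 ^ (n + κ * (r * p)) *
        ∑ e : Fin r → Fin p, io p (Polynomial.aeval (xx (ZMod p)) (Q e)) *
          ∏ i : Fin r, (io p (dd (ZMod p) (i : ℕ) g) / uL p 0 ^ κ) ^ (e i : ℕ) := by
      unfold PP
      rw [map_sum, Fintype.sum_prod_type, Finset.mul_sum]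
      refine Finset.sum_congr rfl fun e _ => ?_
      rw [hσv, Finset.sum_mul, Finset.mul_sum]
      refine Finset.sum_congr rfl fun v _ => ?_
      rw [map_mul, Nz_gu]
      ring
    rw [h0, map_zero] at h7
    rcases mul_eq_zero.1 h7.symm with h8 | h8
    · exact absurd h8 (pow_ne_zero _ hu)
    · exact h8
  have hind := indep (EE p 0 m) (fun i : Fin r => io p (dd (ZMod p) (i : ℕ) g) / uL p 0 ^ κ)
    (fun i : Fin r => io p (dd (ZMod p) (i : ℕ) H) / uL p 0 ^ (κ * p)) hb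
    ((uL p 0 ^ (κ * (p - 1)))⁻¹) (io p (PowerSeries.C c)) ha hc' ha0 hc0 hφ hns
    (fun e => io p (Polynomial.aeval (xx (ZMod p)) (Q e)))
    (fun e => aeval_mem _ _ hx (Q e)) hrel
  apply ht
  funext s
  obtain ⟨e, v⟩ := s
  have h9 : io p (Polynomial.aeval (xx (ZMod p)) (Q e)) = 0 := congrFun hind e
  have h10 : Polynomial.aeval (xx (ZMod p)) (Q e) = 0 := io_inj p (by rw [h9, map_zero])
  have h11 : Q e = 0 := by
    by_contra hne
    obtain ⟨l, _, hl⟩ := ord_xx (two_ne h2) (Q e) hne _ le_rfl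
    apply hl
    rw [h10, map_zero]
  have h12 : (Q e).coeff (v : ℕ) = t (e, v) := by
    rw [hQ, Polynomial.finsetSum_coeff, Finset.sum_eq_single v]
    · rw [Polynomial.coeff_C_mul, Polynomial.coeff_X_pow, if_pos rfl, mul_one]
    · intro v' _ hv'
      rw [Polynomial.coeff_C_mul, Polynomial.coeff_X_pow, if_neg, mul_zero]
      intro h13
      exact hv' (Fin.ext h13.symm)
    · intro h13
      exact absurd (Finset.mem_univ v) h13
  rw [← h12, h11, Polynomial.coeff_zero]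
  rfl

/-- the nonvanishing statement `NZ κ` -/
theorem nz (κ : ℕ) (hκ : 1 ≤ κ) : NZ κ := by
  intro p hp hpκ g c hc h1 h2 h3 r n t ht
  obtain ⟨m, hm, hm'⟩ := h3
  refine PP_ne_zeroX κ hκ hpκ g c hc h1 h2 ⟨m, ?_, hm'⟩ r n t ht
  rcases Nat.even_or_odd m with h | h
  · exact absurd h.two_dvd hm
  · exact h

end Pool.Agent.H6.OR
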