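import Pool.Agent.H6.OR.Eb
import Pool.Agent.H6.OR.Nz

/-!
# Row Ec (project OR): the main theorem for polynomials in `θ₃², θ₄²`
-/

open PowerSeries

namespace Pool.Agent.H6.OR

open Pool.Agent.H85.OT

/-- `f` is a homogeneous polynomial of degree `k ≥ 4` in `θ₃², θ₄²` (up to an integer factor) with
integral `q`-expansion, `a_0 = 0`, an eigenform, and some `a_n` with `n` odd is nonzero.  Then the primes
`p` not dividing `a_p` have positive lower density. -/
theorem ordinary_main (k : ℕ) (hk : 4 ≤ k) (f : ℤ⟦X⟧) (hf : IsFormX k f)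
    (h0 : PowerSeries.coeff 0 f = 0) (N : ℕ) (hN : 1 ≤ N) (χ : ℕ → ℤ)
    (hecke : ∀ p : ℕ, p.Prime → ¬ p ∣ N → ∀ n : ℕ, 1 ≤ n → PowerSeries.coeff (p * n) f =
      PowerSeries.coeff p f * PowerSeries.coeff n f -
        χ p * (p : ℤ) ^ (k - 1) * (if p ∣ n then PowerSeries.coeff (n / p) f else 0))
    (n0 : ℕ) (hn0 : ¬ 2 ∣ n0) (hn0' : PowerSeries.coeff n0 f ≠ 0) :
    PosLower (fun p => ¬ (p : ℤ) ∣ PowerSeries.coeff p f) :=
  ordinary_of_NZ k hk (nz (k - 2) (by omega)) f hf h0 N hN χ hecke n0 hn0 hn0'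

end Pool.Agent.H6.OR
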