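import Pool.Agent.H6.OR.ADefs
import Pool.Agent.H85.OT.OrdL

/-!
# Row Aa (project OR): the ring `A0`

* `A0_coeff`: for `a ∈ A0 K` the coefficient of `T^w` is `U^w P(x)` with `deg P ≤ w`.  `Algebra.adjoin_induction`: the
  generators: coefficient `1` is `U = U^1 * 1`, resp. `V = U^1 x` (`xx_mul_U`), the other coefficients are `0`;
  scalars: coefficient `0` is a constant; sums: same `w`, add the polynomials; products: coefficient `w` of `a b` is
  `∑_(i+j=w) U^i P_i(x) U^j Q_j(x) = U^w ∑ P_i Q_j`.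
* `mem_A0`: conversely `U^w P(x) T^w ∈ A0`: `P = ∑_(j ≤ w) c_j X^j` and `U^w x^j T^w = (U T)^(w-j) (V T)^j`.
* `A0_order`: if `y` is the coefficient of `T^w` of an element of `A0`, `w ≤ N` and the coefficients `l ≤ N` of `y` vanish
  then `y = 0` (`ord_xx'`).
-/

open PowerSeries

namespace Pool.Agent.H6.OR

open Pool.Agent.H85.OT

variable {K : Type*} [Field K]

private theorem Aa_zero (w : ℕ) : IsX K w 0 :=
  ⟨0, by simp, by simp⟩

private theorem Aa_add {w : ℕ} {y z : K⟦X⟧} (hy : IsX K w y) (hz : IsX K w z) :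
    IsX K w (y + z) := by
  obtain ⟨P, hP, rfl⟩ := hy
  obtain ⟨Q, hQ, rfl⟩ := hz
  exact ⟨P + Q, Polynomial.natDegree_add_le_of_degree_le hP hQ, by rw [map_add, mul_add]⟩

private theorem Aa_mul {i j w : ℕ} (h : i + j = w) {y z : K⟦X⟧} (hy : IsX K i y)
    (hz : IsX K j z) : IsX K w (y * z) := by
  obtain ⟨P, hP, rfl⟩ := hy
  obtain ⟨Q, hQ, rfl⟩ := hz
  refine ⟨P * Q, ?_, ?_⟩
  · exact Polynomial.natDegree_mul_le.trans (by omega)
  · rw [map_mul, ← h, pow_add]
    ring

private theorem Aa_sum {ι : Type*} {w : ℕ} (s : Finset ι) (f : ι → K⟦X⟧)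
    (h : ∀ i ∈ s, IsX K w (f i)) : IsX K w (∑ i ∈ s, f i) := by
  classical
  induction s using Finset.induction_on with
  | empty =>
    rw [Finset.sum_empty]
    exact Aa_zero w
  | insert a s ha ih =>
    rw [Finset.sum_insert ha]
    exact Aa_add (h a (Finset.mem_insert_self a s))
      (ih fun i hi => h i (Finset.mem_insert_of_mem hi))

private theorem Aa_U : IsX K 1 (U K) :=
  ⟨1, by simp, by rw [map_one, mul_one, pow_one]⟩

private theorem Aa_V : IsX K 1 (V K) :=
  ⟨Polynomial.X, Polynomial.natDegree_X_le, by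
    rw [Polynomial.aeval_X, pow_one, mul_comm, xx_mul_U]⟩

private theorem Aa_gen {y : K⟦X⟧} (hy : IsX K 1 y) (w : ℕ) :
    IsX K w ((Polynomial.C y * Polynomial.X : SS K).coeff w) := by
  rw [Polynomial.coeff_C_mul, Polynomial.coeff_X]
  by_cases h : 1 = w
  · rw [if_pos h, mul_one, ← h]
    exact hy
  · rw [if_neg h, mul_zero]
    exact Aa_zero w

theorem A0_coeff {a : SS K} (ha : a ∈ A0 K) (w : ℕ) : IsX K w (a.coeff w) := by
  have key : ∀ a ∈ A0 K, ∀ w : ℕ, IsX K w (a.coeff w) := by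
    intro a ha
    refine Algebra.adjoin_induction (p := fun a _ => ∀ w : ℕ, IsX K w (a.coeff w))
      ?_ ?_ ?_ ?_ ha
    · intro x hx w
      rcases hx with hx | hx
      · rw [hx]
        exact Aa_gen Aa_U w
      · rw [hx]
        exact Aa_gen Aa_V w
    · intro r w
      have h1 : (algebraMap K (SS K)) r = Polynomial.C (algebraMap K K⟦X⟧ r) := rfl
      rw [h1, Polynomial.coeff_C]
      by_cases h : w = 0
      · rw [if_pos h, h]
        exact ⟨Polynomial.C r, by simp, by rw [pow_zero, one_mul, Polynomial.aeval_C]⟩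
      · rw [if_neg h]
        exact Aa_zero w
    · intro x y _ _ hx hy w
      rw [Polynomial.coeff_add]
      exact Aa_add (hx w) (hy w)
    · intro x y _ _ hx hy w
      rw [Polynomial.coeff_mul]
      apply Aa_sum
      intro i hi
      exact Aa_mul (Finset.HasAntidiagonal.mem_antidiagonal.1 hi) (hx _) (hy _)
  exact key a ha w

private theorem Aa_term (c : K) {w j : ℕ} (hj : j ≤ w) :
    (Polynomial.C (U K ^ w * (c • xx K ^ j)) * Polynomial.X ^ w : SS K) =
      c • ((Polynomial.C (U K) * Polynomial.X) ^ (w - j) *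
        (Polynomial.C (V K) * Polynomial.X) ^ j) := by
  have h1 : U K ^ w * (c • xx K ^ j) = c • (U K ^ (w - j) * V K ^ j) := by
    rw [mul_smul_comm, ← xx_mul_U, mul_pow]
    congr 1
    calc U K ^ w * xx K ^ j = U K ^ ((w - j) + j) * xx K ^ j := by rw [Nat.sub_add_cancel hj]
      _ = _ := by
        rw [pow_add]
        ring
  have h2 : (Polynomial.X : SS K) ^ w = Polynomial.X ^ (w - j) * Polynomial.X ^ j := by
    rw [← pow_add, Nat.sub_add_cancel hj]
  rw [h1, h2, ← Polynomial.smul_C, smul_mul_assoc]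
  congr 1
  rw [map_mul, map_pow, map_pow, mul_pow, mul_pow]
  ring

theorem mem_A0 {w : ℕ} {y : K⟦X⟧} (h : IsX K w y) :
    Polynomial.C y * Polynomial.X ^ w ∈ A0 K := by
  obtain ⟨P, hP, rfl⟩ := h
  rw [Polynomial.aeval_eq_sum_range' (Nat.lt_succ_of_le hP), Finset.mul_sum, map_sum,
    Finset.sum_mul]
  apply Subalgebra.sum_mem
  intro j hj
  rw [Aa_term (P.coeff j) (Nat.lt_succ_iff.1 (Finset.mem_range.1 hj))]
  apply Subalgebra.smul_mem
  apply Subalgebra.mul_mem
  · apply Subalgebra.pow_mem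
    exact Algebra.subset_adjoin (Or.inl rfl)
  · apply Subalgebra.pow_mem
    exact Algebra.subset_adjoin (Or.inr rfl)

theorem IsX_order (h2 : (2 : K) ≠ 0) {w N : ℕ} (hN : w ≤ N) {y : K⟦X⟧} (h : IsX K w y)
    (h0 : ∀ l ≤ N, PowerSeries.coeff l y = 0) : y = 0 := by
  obtain ⟨P, hP, rfl⟩ := h
  rw [ord_xx' h2 w P N (hP.trans hN) h0, map_zero, mul_zero]

end Pool.Agent.H6.OR
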