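import Pool.Agent.H6.OR.Aa

/-!
# Row Ab (project OR): the determinant lemma (order of vanishing)

`Spn (A0 K) B N`, `y T^w ∈ B`, `y ≠ 0`.  Claim: some coefficient `l ≤ N w` of `y` is nonzero.
Let `s` be the finite spanning set, `Y = C y * T^w`.  For `z ∈ s`: `Y z ∈ B`, so `Y z = ∑_(z' ∈ s) M_(z,z') z'` with
`M_(z,z') ∈ A0` (`Submodule.mem_span_finset` or `mem_span_set`; scalars in the subalgebra `A0 K`).  Let `M'` be the image of `M`
in `Matrix s s (SS K)`.  The vector `(z)_(z ∈ s)` is nonzero (`1 ∈ s`, `SS K` nontrivial) and killed by `Y 1 - M'`, so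
`det (Y 1 - M') = 0` (`Matrix.exists_mulVec_eq_zero_iff`, `SS K` is a domain), i.e. `Y` is a root of the characteristic
polynomial of `M'` (`Matrix.eval_charpoly` or `Matrix.charpoly`, `Matrix.eval_det`), which is the image of that of `M`
(`Matrix.charpoly_map`): `∑_(k ≤ c) b_k Y^k = 0`, `c = card s`, `b_k ∈ A0`, `b_c = 1` (`Matrix.charpoly_monic`,
`Matrix.charpoly_natDegree_eq_dim`).
`Y^k = C (y^k) T^(w k)`; take the coefficient of `T^(w c)`: `∑_(k ≤ c) β_k y^k = 0`, `β_k` = coefficient of `T^(w (c-k))` of `b_k`,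
`β_c = 1`, `IsX K (w (c-k)) β_k` (`A0_coeff`).  Let `k0` be minimal with `β_(k0) ≠ 0`.  `k0 = c` would give `y^c = 0`, so `y = 0`.
So `k0 < c` and `y^(k0) (β_(k0) + y (..)) = 0`, `y ∣ β_(k0)`.  If all coefficients `l ≤ N w` of `y` vanish then so do those of
`β_(k0)` (`PowerSeries.X_pow_dvd_iff`), and `w (c - k0) ≤ N w`, so `β_(k0) = 0` by `IsX_order`: contradiction.
-/

open PowerSeries

namespace Pool.Agent.H6.OR

open Pool.Agent.H85.OT

variable {K : Type*} [Field K]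

private theorem Ab_dvd {R : Type*} [CommRing R] [IsDomain R] {y : R} (hy : y ≠ 0) {c : ℕ}
    {β : ℕ → R} (hc : β c ≠ 0) (hs : ∑ k ∈ Finset.range (c + 1), β k * y ^ k = 0) :
    ∃ k ≤ c, β k ≠ 0 ∧ y ∣ β k := by
  classical
  have hex : ∃ k, β k ≠ 0 := ⟨c, hc⟩
  obtain ⟨k0, hk0⟩ : ∃ k0, k0 = Nat.find hex := ⟨_, rfl⟩
  have h1 : β k0 ≠ 0 := by
    rw [hk0]
    exact Nat.find_spec hex
  have h2 : ∀ k < k0, β k = 0 := by
    intro k hk
    rw [hk0] at hk
    by_contra h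
    exact Nat.find_min hex hk h
  have h3 : k0 ≤ c := by
    rw [hk0]
    exact Nat.find_min' hex hc
  refine ⟨k0, h3, h1, ?_⟩
  have hmem : k0 ∈ Finset.range (c + 1) := Finset.mem_range.2 (Nat.lt_succ_iff.2 h3)
  rw [← Finset.add_sum_erase _ _ hmem] at hs
  have h4 : y ^ k0 * y ∣ ∑ k ∈ (Finset.range (c + 1)).erase k0, β k * y ^ k := by
    refine Finset.dvd_sum fun k hk => ?_
    rcases lt_or_gt_of_ne (Finset.ne_of_mem_erase hk) with h | h
    · rw [h2 k h, zero_mul]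
      exact dvd_zero _
    · rw [← pow_succ]
      exact (pow_dvd_pow y h).mul_left _
  have h5 : y ^ k0 * y ∣ y ^ k0 * β k0 := by
    have h6 : y ^ k0 * β k0 = -∑ k ∈ (Finset.range (c + 1)).erase k0, β k * y ^ k := by
      rw [mul_comm]
      exact eq_neg_of_add_eq_zero_left hs
    rw [h6]
    exact (dvd_neg).2 h4
  exact (mul_dvd_mul_iff_left (pow_ne_zero k0 hy)).1 h5

theorem det_order (h2 : (2 : K) ≠ 0) {B : Subalgebra K (SS K)} {N : ℕ}
    (hB : Spn (A0 K) B N) {y : K⟦X⟧} (hy : y ≠ 0) {w : ℕ}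
    (h : Polynomial.C y * Polynomial.X ^ w ∈ B) :
    ∃ l ≤ N * w, PowerSeries.coeff l y ≠ 0 := by
  classical
  obtain ⟨_, s, hcard, h1s, hsB, hspan⟩ := hB
  obtain ⟨Y, hY⟩ : ∃ Y : SS K, Y = Polynomial.C y * Polynomial.X ^ w := ⟨_, rfl⟩
  rw [← hY] at h
  have hz : ∀ z : s, ∃ f : SS K → A0 K, ∑ a ∈ s, f a • a = Y * (z : SS K) := by
    intro z
    have h3 := hspan _ (mul_mem h (hsB z z.2))
    rw [Submodule.mem_span_finset] at h3
    obtain ⟨f, _, hf⟩ := h3
    exact ⟨f, hf⟩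
  choose f hf using hz
  obtain ⟨M, hM⟩ : ∃ M : Matrix s s (A0 K), ∀ z z', M z z' = f z z' :=
    ⟨fun z z' => f z z', fun _ _ => rfl⟩
  have hdet : (Matrix.scalar s Y - M.map (algebraMap (A0 K) (SS K))).det = 0 := by
    rw [← Matrix.exists_mulVec_eq_zero_iff]
    refine ⟨fun z => (z : SS K), ?_, ?_⟩
    · intro h0
      have h3 : (1 : SS K) = 0 := congrFun h0 ⟨1, h1s⟩
      exact one_ne_zero h3
    · funext z
      rw [Matrix.sub_mulVec, Pi.sub_apply, Matrix.scalar_apply, Matrix.mulVec_diagonal, Pi.zero_apply,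
        sub_eq_zero, ← hf z]
      have h3 : ∑ a ∈ s, f z a • a = ∑ a : s, f z a • (a : SS K) :=
        (Finset.sum_coe_sort s fun a => f z a • a).symm
      rw [h3]
      refine Finset.sum_congr rfl fun a _ => ?_
      change f z a • (a : SS K) = algebraMap (A0 K) (SS K) (M z a) * (a : SS K)
      rw [hM]
      rfl
  have hchar : (M.map (algebraMap (A0 K) (SS K))).charpoly.eval Y = 0 := by
    rw [Matrix.eval_charpoly]
    exact hdet
  have hmap : (M.map (algebraMap (A0 K) (SS K))).charpoly =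
      M.charpoly.map (algebraMap (A0 K) (SS K)) := Matrix.charpoly_map M _
  rw [hmap, Polynomial.eval_map, Polynomial.eval₂_eq_sum_range, Matrix.charpoly_natDegree_eq_dim,
    Fintype.card_coe] at hchar
  obtain ⟨b, hb⟩ : ∃ b : ℕ → SS K, ∀ k, b k = algebraMap (A0 K) (SS K) (M.charpoly.coeff k) :=
    ⟨_, fun _ => rfl⟩
  have hbA : ∀ k, b k ∈ A0 K := fun k => by
    rw [hb]
    exact (M.charpoly.coeff k).2
  have hbc : b s.card = 1 := by
    have h3 := Matrix.charpoly_monic M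
    rw [Polynomial.Monic, Polynomial.leadingCoeff, Matrix.charpoly_natDegree_eq_dim,
      Fintype.card_coe] at h3
    rw [hb, h3, map_one]
  have hterm : ∀ k ∈ Finset.range (s.card + 1), (b k * Y ^ k).coeff (w * s.card) =
      (b k).coeff (w * s.card - w * k) * y ^ k := by
    intro k hk
    have h3 : w * k ≤ w * s.card :=
      Nat.mul_le_mul_left w (Nat.lt_succ_iff.1 (Finset.mem_range.1 hk))
    rw [hY, mul_pow, ← Polynomial.C_pow, ← pow_mul, ← mul_assoc, Polynomial.coeff_mul_X_pow',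
      if_pos h3, Polynomial.coeff_mul_C]
  have hsum : ∑ k ∈ Finset.range (s.card + 1), (b k).coeff (w * s.card - w * k) * y ^ k = 0 := by
    rw [← Finset.sum_congr rfl hterm, ← Polynomial.finsetSum_coeff]
    have h3 : ∑ k ∈ Finset.range (s.card + 1), b k * Y ^ k = 0 := by
      rw [← hchar]
      exact Finset.sum_congr rfl fun k _ => by rw [hb]
    rw [h3, Polynomial.coeff_zero]
  obtain ⟨k, hk, hne, hdvd⟩ := Ab_dvd hy (by
    rw [hbc, Nat.sub_self, Polynomial.coeff_one_zero]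
    exact one_ne_zero) hsum
  by_contra hcon
  have hcoef : ∀ l < N * w + 1, PowerSeries.coeff l y = 0 := by
    intro l hl
    by_contra h3
    exact hcon ⟨l, Nat.lt_succ_iff.1 hl, h3⟩
  have hX : (PowerSeries.X : K⟦X⟧) ^ (N * w + 1) ∣ y := PowerSeries.X_pow_dvd_iff.2 hcoef
  have hX2 := PowerSeries.X_pow_dvd_iff.1 (hX.trans hdvd)
  refine hne (IsX_order h2 (N := N * w) ?_ (A0_coeff (hbA k) _)
    fun l hl => hX2 l (Nat.lt_succ_iff.2 hl))
  calc w * s.card - w * k ≤ w * s.card := Nat.sub_le _ _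
    _ ≤ w * N := Nat.mul_le_mul_left w hcard
    _ = N * w := Nat.mul_comm w N

end Pool.Agent.H6.OR
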