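import Pool.Agent.H6.OR.ADefs
import Pool.Agent.H85.OT.Hf

/-!
# Row Ah (project OR): the Hasse polynomial in the variable `x`

`hx p = h(1 - X²)`, `Bx p = B(1 - X²)`, `h = hh p`, `B = Bh p = X(1-X)h'`; `λ = 1 - x²`, `2 mm p + 1 = p`.
* `hx_natDegree`: `natDegree_comp`, degree of `1 - X²` is `2`, `hh_natDegree`: `2 mm p = p - 1`.
* `Bx_natDegree`: `Bh_natDegree` (`≤ mm p + 1`).
* `hx_coprime`: apply the ring map `comp (1 - X²)` to a Bezout relation (`hh_coprime`).
* `hx_simple`: `hx' = - 2 X h'(1-X²)`, and `Bx = (1-X²) X² h'(1-X²)`, so `2 Bx = - (1-X²) X hx'`; so `hx` is coprime to `hx'`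
  (`2` invertible), and an irreducible factor `π` of `hx` (degree `p - 1 ≥ 1`) does not divide it twice (if `hx = π² q` then
  `π ∣ hx'`); see `hh_simple_factor` in `Pool/Agent/H85/OT/Hc.lean`.
* `hasse_hx`, `ee_hx`: `hasse`, `ee_eq` and `Polynomial.aeval_comp`.
* `Dq_IsX`: `D(U^N P(x)) = N ε U^N P(x) + U^N P'(x) D x` (`Hf_Dpow`, `Derivation.map_aeval`), `2 D x = -x(1-x²)U²` (`Dq_xx`), insert
  `ε = U^(p+1) Bx(x)` and multiply the second term by `1 = U^(p-1) hx(x)`.
-/

open PowerSeries

namespace Pool.Agent.H6.OR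

open Pool.Agent.H85.OT

/-- `h(1 - X²)` -/
noncomputable def hx (p : ℕ) : Polynomial (ZMod p) := (hh p).comp (1 - Polynomial.X ^ 2)

/-- `B(1 - X²)` -/
noncomputable def Bx (p : ℕ) : Polynomial (ZMod p) := (Bh p).comp (1 - Polynomial.X ^ 2)

variable {p : ℕ} [hp : Fact p.Prime] (h2 : p ≠ 2)
include h2

omit h2 in
lemma ORAh_deg2 : (1 - Polynomial.X ^ 2 : Polynomial (ZMod p)).natDegree = 2 := by
  rw [← Polynomial.natDegree_neg, neg_sub]
  have h := Polynomial.natDegree_X_pow_sub_C (R := ZMod p) (n := 2) (r := 1)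
  rwa [Polynomial.C_1] at h

omit h2 in
lemma ORAh_two_Bx : 2 * Bx p =
    -(1 - Polynomial.X ^ 2) * Polynomial.X * Polynomial.derivative (hx p) := by
  rw [hx, Polynomial.derivative_comp, Bx, Bh]
  simp only [Polynomial.mul_comp, Polynomial.sub_comp, Polynomial.one_comp, Polynomial.X_comp,
    Polynomial.derivative_sub, Polynomial.derivative_one, Polynomial.derivative_X_pow]
  rw [show ((2 : ℕ) : ZMod p) = 2 from rfl, show (Polynomial.C (2 : ZMod p)) = 2 from rfl]
  norm_num
  ring

lemma ORAh_half (Q : Polynomial (ZMod p)) : Polynomial.C ((2 : ZMod p)⁻¹) * (2 * Q) = Q := by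
  rw [show (2 : Polynomial (ZMod p)) = Polynomial.C (2 : ZMod p) from rfl, ← mul_assoc,
    ← Polynomial.C_mul, inv_mul_cancel₀ (two_ne h2), Polynomial.C_1, one_mul]

omit h2 in
lemma ORAh_lam : Polynomial.aeval (xx (ZMod p)) (1 - Polynomial.X ^ 2 : Polynomial (ZMod p)) =
    lam (ZMod p) := by
  rw [lam, map_sub, map_one, map_pow, Polynomial.aeval_X]

theorem hx_natDegree : (hx p).natDegree = p - 1 := by
  rw [hx, Polynomial.natDegree_comp, hh_natDegree h2, ORAh_deg2]
  have := two_mm hp.out h2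
  omega

theorem Bx_natDegree : (Bx p).natDegree ≤ p + 1 := by
  rw [Bx, Polynomial.natDegree_comp, ORAh_deg2]
  have h1 := two_mm hp.out h2
  have h3 := Bh_natDegree (p := p) h2
  omega

theorem hx_coprime : IsCoprime (hx p) (Bx p) := by
  have h := (hh_coprime (p := p) h2).map
    (Polynomial.compRingHom (1 - Polynomial.X ^ 2 : Polynomial (ZMod p)))
  rw [Polynomial.coe_compRingHom_apply, Polynomial.coe_compRingHom_apply] at h
  exact h

theorem hx_simple : ∃ π : Polynomial (ZMod p), Irreducible π ∧ π ∣ hx p ∧ ¬ π ^ 2 ∣ hx p := by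
  have hm : 0 < (hx p).natDegree := by
    rw [hx_natDegree h2]
    have := hp.out.two_le
    omega
  obtain ⟨π, hπ, hd⟩ := Polynomial.exists_irreducible_of_natDegree_pos hm
  refine ⟨π, hπ, hd, ?_⟩
  rintro ⟨q, hq⟩
  have h1 : π ∣ Polynomial.derivative (hx p) := by
    rw [hq, Polynomial.derivative_mul, pow_two, Polynomial.derivative_mul]
    exact ⟨(Polynomial.derivative π + Polynomial.derivative π) * q +
      π * Polynomial.derivative q, by ring⟩
  have h3 : π ∣ Bx p := by
    have e := ORAh_two_Bx (p := p)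
    have h4 : π ∣ 2 * Bx p := by
      rw [e]
      exact h1.mul_left _
    have e5 : Bx p = Polynomial.C ((2 : ZMod p)⁻¹) * (2 * Bx p) := by
      rw [ORAh_half h2]
    rw [e5]
    exact h4.mul_left _
  exact hπ.not_isUnit ((hx_coprime h2).isUnit_of_dvd' hd h3)

theorem hasse_hx : U (ZMod p) ^ (p - 1) * Polynomial.aeval (xx (ZMod p)) (hx p) = 1 := by
  rw [hx, Polynomial.aeval_comp, ORAh_lam, show p - 1 = 2 * mm p by
    have := two_mm hp.out h2
    omega]
  exact hasse h2

theorem ee_hx : ee (ZMod p) = U (ZMod p) ^ (p + 1) * Polynomial.aeval (xx (ZMod p)) (Bx p) := by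
  rw [Bx, Polynomial.aeval_comp, ORAh_lam, show p + 1 = 2 * mm p + 2 by
    have := two_mm hp.out h2
    omega]
  exact ee_eq h2

theorem Dq_UP (N : ℕ) (P : Polynomial (ZMod p)) :
    2 * Dq (ZMod p) (U (ZMod p) ^ N * Polynomial.aeval (xx (ZMod p)) P) =
      U (ZMod p) ^ (N + p + 1) * Polynomial.aeval (xx (ZMod p))
        (2 * (N : Polynomial (ZMod p)) * Bx p * P -
          hx p * Polynomial.X * (1 - Polynomial.X ^ 2) * Polynomial.derivative P) := by
  have h1 := hasse_hx h2
  have h3 := ee_hx h2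
  have h4 := Dq_xx (ZMod p) (two_ne h2)
  rw [Derivation.leibniz, smul_eq_mul, smul_eq_mul, Hf_Dpow h2, Derivation.map_aeval, h3, smul_eq_mul]
  simp only [map_mul, map_sub, map_one, Polynomial.aeval_X, map_ofNat, map_natCast, map_pow]
  set u := U (ZMod p)
  set x := xx (ZMod p)
  set hl := Polynomial.aeval x (hx p)
  set P' := Polynomial.aeval x (Polynomial.derivative P)
  have e1 : u ^ (N + p + 1) = u ^ N * u ^ (p - 1) * u ^ 2 := by
    have := hp.out.two_le
    rw [← pow_add, ← pow_add]; congr 1; omega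
  have e2 : u ^ (p + 1) = u ^ (p - 1) * u ^ 2 := by
    have := hp.out.two_le
    rw [← pow_add]; congr 1; omega
  rw [e1, e2]
  linear_combination (u ^ N * u ^ 2 * P' * (x * (1 - x ^ 2))) * h1 + u ^ N * P' * h4

theorem Dq_IsX {N : ℕ} {y : (ZMod p)⟦X⟧} (hy : IsX (ZMod p) N y) :
    IsX (ZMod p) (N + p + 1) (Dq (ZMod p) y) := by
  obtain ⟨P, hP, rfl⟩ := hy
  have h := Dq_UP h2 N P
  refine ⟨Polynomial.C ((2 : ZMod p)⁻¹) * (2 * (N : Polynomial (ZMod p)) * Bx p * P -
          hx p * Polynomial.X * (1 - Polynomial.X ^ 2) * Polynomial.derivative P), ?_, ?_⟩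
  · refine (Polynomial.natDegree_C_mul_le _ _).trans ?_
    refine (Polynomial.natDegree_sub_le _ _).trans (max_le ?_ ?_)
    · have e1 : (2 * (N : Polynomial (ZMod p)) * Bx p * P) =
          Polynomial.C ((2 * N : ℕ) : ZMod p) * (Bx p * P) := by
        push_cast
        rw [Polynomial.C_mul]
        rw [show (Polynomial.C (N : ZMod p) : Polynomial (ZMod p)) = N from Polynomial.C_eq_natCast N,
          show (Polynomial.C (2 : ZMod p) : Polynomial (ZMod p)) = 2 from rfl]
        ring
      rw [e1]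
      refine (Polynomial.natDegree_C_mul_le _ _).trans ?_
      refine Polynomial.natDegree_mul_le.trans ?_
      have := Bx_natDegree (p := p) h2
      omega
    · by_cases h0 : P.natDegree = 0
      · rw [Polynomial.derivative_of_natDegree_zero h0, mul_zero, Polynomial.natDegree_zero]
        exact Nat.zero_le _
      · have h1 := Polynomial.natDegree_derivative_lt h0
        refine Polynomial.natDegree_mul_le.trans ?_
        have h3 : (hx p * Polynomial.X * (1 - Polynomial.X ^ 2)).natDegree ≤ p - 1 + 1 + 2 := by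
          refine Polynomial.natDegree_mul_le.trans ?_
          have h4 : (hx p * Polynomial.X).natDegree ≤ p - 1 + 1 := by
            refine Polynomial.natDegree_mul_le.trans ?_
            rw [hx_natDegree h2]
            have := Polynomial.natDegree_X_le (R := ZMod p)
            omega
          have h5 := ORAh_deg2 (p := p)
          omega
        have h6 := hp.out.two_le
        omega
  · have e2 : (Polynomial.C ((2 : ZMod p)⁻¹) : Polynomial (ZMod p)) * 2 = 1 := by
      rw [show (2 : Polynomial (ZMod p)) = Polynomial.C (2 : ZMod p) from rfl, ← Polynomial.C_mul,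
        inv_mul_cancel₀ (two_ne h2), Polynomial.C_1]
    have e3 := congrArg (Polynomial.aeval (xx (ZMod p))) e2
    rw [map_mul, map_one, map_ofNat] at e3
    rw [map_mul (Polynomial.aeval (xx (ZMod p)))]
    linear_combination (-Dq (ZMod p) (U (ZMod p) ^ N * Polynomial.aeval (xx (ZMod p)) P)) * e3 +
      Polynomial.aeval (xx (ZMod p)) (Polynomial.C ((2 : ZMod p)⁻¹)) * h

end Pool.Agent.H6.OR
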