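import Pool.Agent.H6.OR.Ah

/-!
# Row Ai (project OR): uniqueness of the weight mod `p - 1`, in the variable `x`

As `Mf_congr` in `Pool/Agent/H85/OT/Hf.lean` with `x`, `hx p`, `p - 1` in place of `λ`, `hh p`, `mm p`.
`k = N2 - N1`; cancel `U^(N1)`: `P1(x) = U^k P2(x)`.  `(p-1)`-th powers times `hx^k(x)`, using `U^(p-1) hx(x) = 1`:
`P2^(p-1) = P1^(p-1) hx^k` (polynomials in `x`: `aeval x` is injective by `ord_xx`).  A prime factor `π` of `hx` of multiplicity one
(`hx_simple`): `(p-1) v(P2) = (p-1) v(P1) + k`, so `k = j (p-1)`.  Then `P1(x) = U^(j(p-1)) P2(x)`, times `hx^j(x)`: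
`P2 = hx^j P1`.
-/

open PowerSeries

namespace Pool.Agent.H6.OR

open Pool.Agent.H85.OT

variable {p : ℕ} [hp : Fact p.Prime] (h2 : p ≠ 2)
include h2

theorem xx_inj (P : Polynomial (ZMod p)) (h : Polynomial.aeval (xx (ZMod p)) P = 0) : P = 0 := by
  by_contra hP
  obtain ⟨l, -, hl⟩ := ord_xx (two_ne h2) P hP P.natDegree le_rfl
  apply hl
  rw [h, map_zero]

theorem X_congr (N1 N2 : ℕ) (P1 P2 : Polynomial (ZMod p)) (hP : P1 ≠ 0) (hN : N1 ≤ N2)
    (h : U (ZMod p) ^ N1 * Polynomial.aeval (xx (ZMod p)) P1 =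
      U (ZMod p) ^ N2 * Polynomial.aeval (xx (ZMod p)) P2) :
    ∃ j : ℕ, N2 = N1 + j * (p - 1) ∧ P2 = hx p ^ j * P1 := by
  have h1 := hasse_hx h2
  have hu0 : U (ZMod p) ≠ 0 := U_ne_zero _
  obtain ⟨k, rfl⟩ := Nat.exists_eq_add_of_le hN
  set u := U (ZMod p)
  set L := xx (ZMod p)
  have h3 : Polynomial.aeval L P1 = u ^ k * Polynomial.aeval L P2 := by
    apply mul_left_cancel₀ (pow_ne_zero N1 hu0)
    rw [h, ← mul_assoc, ← pow_add]
  -- the identity of `(p-1)`-th powers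
  have h4 : P2 ^ (p - 1) = P1 ^ (p - 1) * hx p ^ k := by
    rw [← sub_eq_zero]
    apply xx_inj h2
    rw [map_sub, map_mul, map_pow, map_pow, map_pow, h3, mul_pow, ← pow_mul, sub_eq_zero]
    have e1 : u ^ (k * (p - 1)) = (u ^ (p - 1)) ^ k := by
      rw [← pow_mul]; congr 1; ring
    rw [e1]
    have e2 : (u ^ (p - 1)) ^ k * Polynomial.aeval L P2 ^ (p - 1) *
        Polynomial.aeval L (hx p) ^ k =
        (u ^ (p - 1) * Polynomial.aeval L (hx p)) ^ k * Polynomial.aeval L P2 ^ (p - 1) := by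
      rw [mul_pow]; ring
    rw [e2, h1, one_pow, one_mul]
  have hm : p - 1 ≠ 0 := by
    have := hp.out.two_le
    omega
  have hh0 : hx p ≠ 0 := by
    intro h0
    have h5 := hx_natDegree (p := p) h2
    rw [h0, Polynomial.natDegree_zero] at h5
    exact hm h5.symm
  have hP2 : P2 ≠ 0 := by
    rintro rfl
    rw [zero_pow hm] at h4
    exact mul_ne_zero (pow_ne_zero _ hP) (pow_ne_zero _ hh0) h4.symm
  obtain ⟨π, hπ, hπ1, hπ2⟩ := hx_simple (p := p) h2
  have hprime : Prime π := hπ.prime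
  have h5 : emultiplicity π (hx p) = ((1 : ℕ) : ℕ∞) := by
    rw [emultiplicity_eq_coe]
    exact ⟨by rwa [pow_one], hπ2⟩
  have h6 : emultiplicity π P1 = (multiplicity π P1 : ℕ∞) :=
    (FiniteMultiplicity.of_prime_left hprime hP).emultiplicity_eq_multiplicity
  have h7 : emultiplicity π P2 = (multiplicity π P2 : ℕ∞) :=
    (FiniteMultiplicity.of_prime_left hprime hP2).emultiplicity_eq_multiplicity
  have h8 := congrArg (emultiplicity π) h4
  rw [emultiplicity_mul hprime, emultiplicity_pow hprime, emultiplicity_pow hprime,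
    emultiplicity_pow hprime, h5, h6, h7] at h8
  have h9 : (p - 1) * multiplicity π P2 = (p - 1) * multiplicity π P1 + k * 1 := by
    exact_mod_cast h8
  have h10 : (p - 1) ∣ k := by
    have h11 : (p - 1) ∣ (p - 1) * multiplicity π P1 + k * 1 := h9 ▸ Dvd.intro _ rfl
    rw [mul_one] at h11
    exact (Nat.dvd_add_right (Dvd.intro _ rfl)).1 h11
  obtain ⟨j, rfl⟩ := h10
  refine ⟨j, by rw [mul_comm], ?_⟩
  rw [← sub_eq_zero]
  apply xx_inj h2
  rw [map_sub, map_mul, map_pow, h3, sub_eq_zero]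
  have e1 : u ^ ((p - 1) * j) = (u ^ (p - 1)) ^ j := by
    rw [← pow_mul]
  have e2 : Polynomial.aeval L (hx p) ^ j * ((u ^ (p - 1)) ^ j * Polynomial.aeval L P2) =
      (u ^ (p - 1) * Polynomial.aeval L (hx p)) ^ j * Polynomial.aeval L P2 := by
    rw [mul_pow]; ring
  rw [e1, e2, h1, one_pow, one_mul]

end Pool.Agent.H6.OR
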