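import Pool.Agent.H6.OR.Defs

/-!
# Row Ba (project OR): naturality

`φ : R →+* S`.  `PowerSeries.map φ` commutes with `expand` (`PowerSeries.map_expand`), sends `U R` to `U S`,
`V R` to `V S` (compare coefficients, see `Cdvd_map_U`, `Cdvd_map_V` in `Pool/Agent/H85/OT/Cdvd.lean`, whose
proofs may be copied), hence maps `dd`, `mon`, `gu`, `PP` to the same objects over `S`.  The coefficients
`BB`, `AA` are polynomial expressions in coefficients of such series.
-/

open PowerSeries

namespace Pool.Agent.H6.OR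

open Pool.Agent.H85.OT

variable {R S : Type*} [CommRing R] [CommRing S] (φ : R →+* S)

theorem map_U : PowerSeries.map φ (U R) = U S := by
  ext n
  rw [PowerSeries.coeff_map, U, U, PowerSeries.coeff_map, PowerSeries.coeff_map, eq_intCast,
    eq_intCast, map_intCast]

theorem map_V : PowerSeries.map φ (V R) = V S := by
  ext n
  rw [PowerSeries.coeff_map, V, V, PowerSeries.coeff_map, PowerSeries.coeff_map, eq_intCast,
    eq_intCast, map_intCast]

theorem map_dd (i : ℕ) (G : R⟦X⟧) : PowerSeries.map φ (dd R i G) = dd S i (PowerSeries.map φ G) := by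
  exact PowerSeries.map_expand (2 ^ i) (pow_ne_zero i two_ne_zero) φ G

theorem map_mon {r : ℕ} (G : R⟦X⟧) (b : Fin r → ℕ) :
    PowerSeries.map φ (mon R G b) = mon S (PowerSeries.map φ G) b := by
  unfold mon
  rw [map_prod]
  refine Finset.prod_congr rfl fun i _ => ?_
  rw [map_pow, map_dd]

theorem map_gu (r κ E n : ℕ) (s : Ix r E n) :
    PowerSeries.map φ (gu R r κ E n s) = gu S r κ E n s := by
  unfold gu
  rw [map_mul, map_pow, map_pow, map_U, map_V]

theorem map_PP (r κ E n : ℕ) (t : Ix r E n → R) (G : R⟦X⟧) :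
    PowerSeries.map φ (PP R r κ E n t G) =
      PP S r κ E n (fun s => φ (t s)) (PowerSeries.map φ G) := by
  unfold PP
  rw [map_sum]
  refine Finset.sum_congr rfl fun s _ => ?_
  rw [map_mul, map_mul, PowerSeries.map_C, map_gu, map_mon]

theorem map_Hh (p : ℕ) (hp : p ≠ 0) (c : R) (G : R⟦X⟧) :
    PowerSeries.map φ (Hh R p hp c G) = Hh S p hp (φ c) (PowerSeries.map φ G) := by
  unfold Hh
  rw [map_sub, map_mul, PowerSeries.map_C, PowerSeries.map_expand]

theorem map_BB (r κ E n : ℕ) (G : R⟦X⟧) (s : Ix r E n) (l m j : ℕ) :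
    φ (BB R r κ E n G s l m j) = BB S r κ E n (PowerSeries.map φ G) s l m j := by
  unfold BB
  rw [map_sum]
  refine Finset.sum_congr rfl fun a _ => ?_
  rw [map_mul, map_mul, map_mul, map_pow, map_neg, map_one, map_prod, ← PowerSeries.coeff_map,
    ← PowerSeries.coeff_map, map_mul, map_gu, map_mon, map_mon]
  simp only [map_natCast]

theorem map_AA (r κ E n : ℕ) (t : Ix r E n → R) (G : R⟦X⟧) (l m j : ℕ) :
    φ (AA R r κ E n t G l m j) =
      AA S r κ E n (fun s => φ (t s)) (PowerSeries.map φ G) l m j := by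
  unfold AA
  rw [map_sum]
  refine Finset.sum_congr rfl fun s _ => ?_
  rw [map_mul, map_BB]

end Pool.Agent.H6.OR
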