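import Pool.Agent.H6.OR.Defs

/-!
# Row Bb (project OR): the monomials in `G - c G(q^p)`

`dd i` is an algebra map and commutes with `expand p` (`expand (2^i) (expand p G) = expand (2^i p) G =
expand p (expand (2^i) G)`: `PowerSeries.expand_mul` twice, or compare coefficients with `coeff_expand`).  So
`dd i (G - c G(q^p)) = G_i - C c * expand p G_i`, `G_i = dd i G`.
`(G_i - C c expand p G_i)^(b i) = ∑_{a ≤ b i} G_i^(b i - a) (- C c)^a (expand p G_i)^a choose` (`add_pow`, or
`sub_eq_add_neg`), and the product over `i` of these sums is the sum over `a ∈ Fintype.piFinset`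
(`Finset.prod_univ_sum`).  `∏ (-c)^(a i) = (-1)^(wt a) c^(wt a)` (`Finset.prod_pow_eq_pow_sum`).
-/

open PowerSeries

namespace Pool.Agent.H6.OR

open Pool.Agent.H85.OT

variable {R : Type*} [CommRing R]

theorem dd_expand (i p : ℕ) (hp : p ≠ 0) (G : R⟦X⟧) :
    dd R i (PowerSeries.expand p hp G) = PowerSeries.expand p hp (dd R i G) := by
  unfold dd
  rw [← PowerSeries.expand_mul, ← PowerSeries.expand_mul]
  congr 1
  simp [mul_comm]

theorem Bb_one (i p : ℕ) (hp : p ≠ 0) (c : R) (G : R⟦X⟧) (k : ℕ) :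
    dd R i (Hh R p hp c G) ^ k =
      ∑ a ∈ Finset.range (k + 1),
        PowerSeries.C ((-1) ^ a * c ^ a * (k.choose a : R)) *
          (dd R i G ^ (k - a) * PowerSeries.expand p hp (dd R i G ^ a)) := by
  have h1 : dd R i (Hh R p hp c G) = - (PowerSeries.C c * PowerSeries.expand p hp (dd R i G)) + dd R i G := by
    unfold Hh
    rw [map_sub, map_mul, dd_expand]
    have h2 : dd R i (PowerSeries.C c) = PowerSeries.C c := by
      unfold dd
      exact PowerSeries.expand_C _ _ _
    rw [h2]
    ring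
  rw [h1, add_pow]
  refine Finset.sum_congr rfl fun a _ => ?_
  rw [map_pow, map_mul, map_mul, map_pow, map_pow, map_neg, map_one, map_natCast, neg_pow, mul_pow]
  ring

theorem mon_Hh {r : ℕ} (p : ℕ) (hp : p ≠ 0) (c : R) (G : R⟦X⟧) (b : Fin r → ℕ) :
    mon R (Hh R p hp c G) b =
      ∑ a ∈ Fintype.piFinset (fun i => Finset.range (b i + 1)),
        PowerSeries.C ((-1) ^ wt a * c ^ wt a * ∏ i, ((b i).choose (a i) : R)) *
          (mon R G (fun i => b i - a i) * PowerSeries.expand p hp (mon R G a)) := by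
  unfold mon
  simp only [Bb_one]
  rw [Finset.prod_univ_sum]
  refine Finset.sum_congr rfl fun a _ => ?_
  rw [Finset.prod_mul_distrib, Finset.prod_mul_distrib, ← map_prod, ← map_prod]
  congr 2
  rw [Finset.prod_mul_distrib, Finset.prod_mul_distrib, Finset.prod_pow_eq_pow_sum, Finset.prod_pow_eq_pow_sum]
  rfl

end Pool.Agent.H6.OR
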