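import Pool.Agent.H6.OR.Defs

/-!
# Row Bc (project OR): coefficients of `A(q) B(q^p)`, and the case `m = 0`

* `coeff_mul_expand` : `coeff s (A * expand p B) = ∑_{m ≤ s/p} coeff (s - p m) A * coeff m B`
  (`PowerSeries.coeff_mul`: the pairs `(i, j)` with `i + j = s`; the terms with `p ∤ j` vanish; `j = p m`,
  `m ≤ s / p`).
* `AA_zero`: let `constantCoeff G = 0`.  Then `coeff 0 (mon R G a) = 0` unless `a = 0` (`wt a = 0`), where it is
  `1` (`constantCoeff (dd i G) = constantCoeff G`, `PowerSeries.constantCoeff_expand`).  So in `BB _ s l 0 j` only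
  `a = 0` contributes: `BB s l 0 0 = coeff l (gu s * mon G (ex s))` and `BB s l 0 j = 0` for `j ≥ 1`.
  Hence `AA l 0 0 = coeff l (PP t G)`, `AA l 0 j = 0` for `j ≥ 1`.
* `AA_large`: for `j > r E`: no `a ≤ ex s` has `wt a = j` (`wt (ex s) ≤ r E`), so `AA = 0`.
-/

open PowerSeries

namespace Pool.Agent.H6.OR

open Pool.Agent.H85.OT

variable {R : Type*} [CommRing R]

theorem coeff_mul_expand (p : ℕ) (hp : p ≠ 0) (A B : R⟦X⟧) (s : ℕ) :
    PowerSeries.coeff s (A * PowerSeries.expand p hp B) =
      ∑ m ∈ Finset.range (s / p + 1), PowerSeries.coeff (s - p * m) A * PowerSeries.coeff m B := by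
  rw [PowerSeries.coeff_mul]
  symm
  refine Finset.sum_of_injOn (fun m => (s - p * m, p * m)) ?_ ?_ ?_ ?_
  · intro a _ b _ hab
    have h2 : p * a = p * b := (Prod.mk.inj hab).2
    exact Nat.eq_of_mul_eq_mul_left (Nat.pos_of_ne_zero hp) h2
  · intro m hm
    have hm' : m < s / p + 1 := Finset.mem_range.1 (Finset.mem_coe.1 hm)
    have h1 : p * m ≤ s := by
      calc p * m ≤ p * (s / p) := Nat.mul_le_mul le_rfl (by omega)
        _ ≤ s := Nat.mul_div_le s p
    refine Finset.mem_coe.2 (Finset.HasAntidiagonal.mem_antidiagonal.2 ?_)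
    show s - p * m + p * m = s
    omega
  · rintro ⟨i, j⟩ hij hn
    have hs : i + j = s := Finset.HasAntidiagonal.mem_antidiagonal.1 hij
    have hnd : ¬ p ∣ j := by
      rintro ⟨m, rfl⟩
      apply hn
      refine ⟨m, ?_, ?_⟩
      · refine Finset.mem_coe.2 (Finset.mem_range.2 ?_)
        have : m ≤ s / p := (Nat.le_div_iff_mul_le (Nat.pos_of_ne_zero hp)).2 (by
          rw [mul_comm]; omega)
        omega
      · refine Prod.ext ?_ rfl
        show s - p * m = i
        omega
    show PowerSeries.coeff i A * PowerSeries.coeff j (PowerSeries.expand p hp B) = 0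
    rw [PowerSeries.coeff_expand_of_not_dvd _ _ _ hnd, mul_zero]
  · intro m _
    show _ = PowerSeries.coeff (s - p * m) A * PowerSeries.coeff (p * m) (PowerSeries.expand p hp B)
    rw [PowerSeries.coeff_expand_mul]

theorem wt_ex_le {r E n : ℕ} (s : Ix r E n) : wt (ex s) ≤ r * E := by
  unfold wt
  refine (Finset.sum_le_card_nsmul _ _ E (fun i _ => (s.1 i).2.le)).trans (le_of_eq ?_)
  simp

private lemma const_mon {r : ℕ} {G : R⟦X⟧} (hG : PowerSeries.constantCoeff G = 0) {a : Fin r → ℕ}
    {i : Fin r} (hi : a i ≠ 0) : PowerSeries.coeff 0 (mon R G a) = 0 := by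
  rw [PowerSeries.coeff_zero_eq_constantCoeff_apply]
  unfold mon
  rw [map_prod]
  refine Finset.prod_eq_zero (Finset.mem_univ i) ?_
  rw [map_pow]
  have h : PowerSeries.constantCoeff (dd R (i : ℕ) G) = 0 := by
    unfold dd
    rw [PowerSeries.constantCoeff_expand, hG]
  rw [h, zero_pow hi]

theorem AA_zero_zero (r κ E n : ℕ) (t : Ix r E n → R) (G : R⟦X⟧)
    (hG : PowerSeries.constantCoeff G = 0) (l : ℕ) :
    AA R r κ E n t G l 0 0 = PowerSeries.coeff l (PP R r κ E n t G) := by
  unfold AA PP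
  rw [map_sum]
  refine Finset.sum_congr rfl fun s _ => ?_
  rw [PowerSeries.coeff_C_mul]
  congr 1
  unfold BB
  rw [Finset.sum_eq_single (0 : Fin r → ℕ)]
  · simp [mon]
  · intro a ha h0
    exfalso
    apply h0
    have hw : wt a = 0 := (Finset.mem_filter.1 ha).2
    unfold wt at hw
    funext i
    exact Finset.sum_eq_zero_iff.1 hw i (Finset.mem_univ i)
  · intro h
    exfalso
    apply h
    refine Finset.mem_filter.2 ⟨Fintype.mem_piFinset.2 fun i => Finset.mem_range.2 ?_, ?_⟩
    · show 0 < ex s i + 1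
      omega
    · simp [wt]

theorem AA_zero_pos (r κ E n : ℕ) (t : Ix r E n → R) (G : R⟦X⟧)
    (hG : PowerSeries.constantCoeff G = 0) (l j : ℕ) (hj : 1 ≤ j) :
    AA R r κ E n t G l 0 j = 0 := by
  unfold AA
  refine Finset.sum_eq_zero fun s _ => ?_
  have h : BB R r κ E n G s l 0 j = 0 := by
    unfold BB
    refine Finset.sum_eq_zero fun a ha => ?_
    have hw : wt a = j := (Finset.mem_filter.1 ha).2
    obtain ⟨i, hi⟩ : ∃ i, a i ≠ 0 := by
      by_contra hc
      push Not at hc
      have : wt a = 0 := by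
        unfold wt
        exact Finset.sum_eq_zero fun i _ => hc i
      omega
    rw [const_mon hG hi, mul_zero, mul_zero]
  rw [h, mul_zero]

theorem AA_large (r κ E n : ℕ) (t : Ix r E n → R) (G : R⟦X⟧) (l m j : ℕ) (hj : r * E < j) :
    AA R r κ E n t G l m j = 0 := by
  unfold AA
  refine Finset.sum_eq_zero fun s _ => ?_
  have h : BB R r κ E n G s l m j = 0 := by
    unfold BB
    refine Finset.sum_eq_zero fun a ha => ?_
    exfalso
    have hw : wt a = j := (Finset.mem_filter.1 ha).2
    have ha' := Fintype.mem_piFinset.1 (Finset.mem_filter.1 ha).1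
    have hle : wt a ≤ wt (ex s) := by
      unfold wt
      refine Finset.sum_le_sum fun i _ => ?_
      have := Finset.mem_range.1 (ha' i)
      omega
    have := wt_ex_le s
    omega
  rw [h, mul_zero]

end Pool.Agent.H6.OR
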