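import Pool.Agent.H6.OR.Bb
import Pool.Agent.H6.OR.Bc

/-!
# Row Bd (project OR): the coefficients of `P(G - c G(q^p))`

Insert `mon_Hh` in `PP`: `PP t (Hh c G) = ∑_s C t_s ∑_a C(...) (gu_s mon G (e-a)) * expand p (mon G a)`, and take
the coefficient `u` with `coeff_mul_expand`.  Interchange the sums: sum over `m ∈ range (u/p+1)` first, then
group the `a ∈ piFinset` by `j = wt a` (`wt a ≤ wt (ex s) ≤ r E`, `wt_ex_le`; `Finset.sum_fiberwise_of_maps_to`).
The result is `∑_m ∑_j c^j AA (u - p m) m j`.
-/

open PowerSeries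

namespace Pool.Agent.H6.OR

open Pool.Agent.H85.OT

variable {R : Type*} [CommRing R]

/-- grouping by the weight -/
theorem Bd_sum_BB (r κ E n : ℕ) (G : R⟦X⟧) (s : Ix r E n) (l m : ℕ) (c : R) :
    ∑ j ∈ Finset.range (r * E + 1), c ^ j * BB R r κ E n G s l m j =
      ∑ a ∈ Fintype.piFinset (fun i => Finset.range (ex s i + 1)),
        ((-1) ^ wt a * c ^ wt a * ∏ i, ((ex s i).choose (a i) : R)) *
          (PowerSeries.coeff l (gu R r κ E n s * mon R G (fun i => ex s i - a i)) *
            PowerSeries.coeff m (mon R G a)) := by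
  have hmaps : ∀ a ∈ Fintype.piFinset (fun i => Finset.range (ex s i + 1)),
      wt a ∈ Finset.range (r * E + 1) := by
    intro a ha
    rw [Finset.mem_range]
    have h1 : wt a ≤ wt (ex s) := Finset.sum_le_sum fun i _ => by
      have h2 := Fintype.mem_piFinset.1 ha i
      have h3 := Finset.mem_range.1 h2
      omega
    have h4 := wt_ex_le s
    omega
  rw [← Finset.sum_fiberwise_of_maps_to hmaps]
  refine Finset.sum_congr rfl fun j _ => ?_
  unfold BB
  rw [Finset.mul_sum]
  refine Finset.sum_congr rfl fun a ha => ?_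
  have hj := (Finset.mem_filter.1 ha).2
  rw [hj]
  ring

theorem coeff_PP_Hh (r κ E n : ℕ) (t : Ix r E n → R) (p : ℕ) (hp : p ≠ 0) (c : R) (G : R⟦X⟧)
    (u : ℕ) :
    PowerSeries.coeff u (PP R r κ E n t (Hh R p hp c G)) =
      ∑ m ∈ Finset.range (u / p + 1), ∑ j ∈ Finset.range (r * E + 1),
        c ^ j * AA R r κ E n t G (u - p * m) m j := by
  have hcoef : ∀ s : Ix r E n,
      PowerSeries.coeff u
        (PowerSeries.C (t s) * (gu R r κ E n s * mon R (Hh R p hp c G) (ex s))) =
      ∑ m ∈ Finset.range (u / p + 1), ∑ j ∈ Finset.range (r * E + 1),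
        c ^ j * (t s * BB R r κ E n G s (u - p * m) m j) := by
    intro s
    rw [PowerSeries.coeff_C_mul, mon_Hh, Finset.mul_sum, map_sum]
    have hterm : ∀ a ∈ Fintype.piFinset (fun i => Finset.range (ex s i + 1)),
        PowerSeries.coeff u (gu R r κ E n s *
          (PowerSeries.C ((-1) ^ wt a * c ^ wt a * ∏ i, ((ex s i).choose (a i) : R)) *
            (mon R G (fun i => ex s i - a i) * PowerSeries.expand p hp (mon R G a)))) =
        ∑ m ∈ Finset.range (u / p + 1),
          ((-1) ^ wt a * c ^ wt a * ∏ i, ((ex s i).choose (a i) : R)) *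
          (PowerSeries.coeff (u - p * m) (gu R r κ E n s * mon R G (fun i => ex s i - a i)) *
            PowerSeries.coeff m (mon R G a)) := by
      intro a _
      rw [show gu R r κ E n s *
          (PowerSeries.C ((-1) ^ wt a * c ^ wt a * ∏ i, ((ex s i).choose (a i) : R)) *
            (mon R G (fun i => ex s i - a i) * PowerSeries.expand p hp (mon R G a))) =
          PowerSeries.C ((-1) ^ wt a * c ^ wt a * ∏ i, ((ex s i).choose (a i) : R)) *
            ((gu R r κ E n s * mon R G (fun i => ex s i - a i)) *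
              PowerSeries.expand p hp (mon R G a)) by ring,
        PowerSeries.coeff_C_mul, coeff_mul_expand, Finset.mul_sum]
    rw [Finset.sum_congr rfl hterm, Finset.sum_comm, Finset.mul_sum]
    refine Finset.sum_congr rfl fun m _ => ?_
    rw [← Bd_sum_BB, Finset.mul_sum]
    refine Finset.sum_congr rfl fun j _ => ?_
    ring
  unfold PP
  rw [map_sum, Finset.sum_congr rfl fun s _ => hcoef s, Finset.sum_comm]
  refine Finset.sum_congr rfl fun m _ => ?_
  rw [Finset.sum_comm]
  refine Finset.sum_congr rfl fun j _ => ?_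
  unfold AA
  rw [Finset.mul_sum]

end Pool.Agent.H6.OR
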