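import Pool.Agent.H6.OR.Bc
import Pool.Agent.H85.OT.Cbd

/-!
# Row Be (project OR): bounds

`Bd ρ B g` : all partial sums of `∑ |g_n| ρ^n` are `≤ B`; `Bd.mul`, `Bd.pow`, `Cbd_one`, `Bd_U`, `Bd_V` are in
`Pool/Agent/H85/OT/Cbd.lean` (also look at the proof of `GG_bd` there, and of `Bd` for `F2`).
* `dd_Bd`: `g(q^(2^i))` has the coefficient `g_n` at `2^i n` and `ρ^(2^i n) ≤ ρ^n` (the proof for `F2` in
  `Cbd.lean` with `2^i` for `2`; or induction on `i`, `dd (i+1) g = dbl (dd i g)`).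
* `mon_Bd`: product of powers (`Bd.pow`, `Bd.mul`, induction over the finset `univ` of `Fin r`).
* `gu_Bd`: total exponent of `U, V` is `n + κ(rE - |e|) ≤ n + κ r E` and `MR ρ ≥ 1`.
* `BB_bd`: a single coefficient of a series with bound `A` satisfies `|g_l| ρ^l ≤ A`, i.e. `|g_l| ≤ A (ρ⁻¹)^l`.
  So each term of `BB` is at most `∏ choose * (MR^(n+κrE) B^(wt (e-a)) (ρ⁻¹)^l) * (B^(wt a) (ρ⁻¹)^m)`, with
  `wt (e - a) + wt a = wt e ≤ r E`, `B ≥ 1`; and `∑_{a ≤ e} ∏ choose (e i) (a i) = 2^(wt e) ≤ 2^(r E)`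
  (`Finset.prod_univ_sum`, `Nat.sum_range_choose`); the sum over the filtered set is at most the full sum.
-/

open PowerSeries

namespace Pool.Agent.H6.OR

open Pool.Agent.H85.OT

lemma Be_expand {ρ B : ℝ} (hρ : 0 < ρ) (hρ1 : ρ < 1) {g : ℚ⟦X⟧} (hg : Bd ρ B g) (k : ℕ)
    (hk : k ≠ 0) : Bd ρ B (PowerSeries.expand k hk g) := by
  intro N
  refine le_trans ?_ (hg N)
  have h1 : ∀ m, |((PowerSeries.coeff m (PowerSeries.expand k hk g) : ℚ) : ℝ)| * ρ ^ m =
      if k ∣ m then |((PowerSeries.coeff (m / k) g : ℚ) : ℝ)| * ρ ^ m else 0 := by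
    intro m
    rw [PowerSeries.coeff_expand]
    split_ifs
    · rfl
    · simp
  simp only [h1]
  rw [← Finset.sum_filter]
  have hinj : Set.InjOn (fun m => m / k) (((Finset.range N).filter fun m => k ∣ m : Finset ℕ) : Set ℕ) := by
    intro m hm m' hm' h
    have e1 := Nat.div_mul_cancel (Finset.mem_filter.1 (Finset.mem_coe.1 hm)).2
    have e2 := Nat.div_mul_cancel (Finset.mem_filter.1 (Finset.mem_coe.1 hm')).2
    have h' : m / k = m' / k := h
    rw [← e1, ← e2, h']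
  calc ∑ m ∈ (Finset.range N).filter (fun m => k ∣ m),
        |((PowerSeries.coeff (m / k) g : ℚ) : ℝ)| * ρ ^ m
      ≤ ∑ m ∈ (Finset.range N).filter (fun m => k ∣ m),
        |((PowerSeries.coeff (m / k) g : ℚ) : ℝ)| * ρ ^ (m / k) := by
        refine Finset.sum_le_sum fun m _ => mul_le_mul_of_nonneg_left ?_ (abs_nonneg _)
        exact pow_le_pow_of_le_one hρ.le hρ1.le (Nat.div_le_self m k)
    _ = ∑ n ∈ ((Finset.range N).filter fun m => k ∣ m).image (fun m => m / k),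
        |((PowerSeries.coeff n g : ℚ) : ℝ)| * ρ ^ n := by
        rw [Finset.sum_image hinj]
    _ ≤ ∑ n ∈ Finset.range N, |((PowerSeries.coeff n g : ℚ) : ℝ)| * ρ ^ n := by
        refine Finset.sum_le_sum_of_subset_of_nonneg ?_ fun n _ _ => by positivity
        intro n hn
        obtain ⟨m, hm, rfl⟩ := Finset.mem_image.1 hn
        have := Finset.mem_range.1 (Finset.mem_filter.1 hm).1
        exact Finset.mem_range.2 (lt_of_le_of_lt (Nat.div_le_self m k) this)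

lemma Be_mono {ρ A B : ℝ} (h : A ≤ B) {g : ℚ⟦X⟧} (hg : Bd ρ A g) : Bd ρ B g :=
  fun N => (hg N).trans h

lemma Be_coeff {ρ A : ℝ} (hρ : 0 < ρ) {g : ℚ⟦X⟧} (hg : Bd ρ A g) (l : ℕ) :
    |((PowerSeries.coeff l g : ℚ) : ℝ)| ≤ A * (ρ⁻¹) ^ l := by
  have h4 : |((PowerSeries.coeff l g : ℚ) : ℝ)| * ρ ^ l ≤ A := by
    refine le_trans ?_ (hg (l + 1))
    rw [Finset.sum_range_succ]
    have : 0 ≤ ∑ m ∈ Finset.range l, |((PowerSeries.coeff m g : ℚ) : ℝ)| * ρ ^ m :=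
      Finset.sum_nonneg fun m _ => by positivity
    linarith
  have h6 : 0 < ρ ^ l := by positivity
  rw [← le_div_iff₀ h6] at h4
  rw [inv_pow, ← div_eq_mul_inv]
  exact h4

lemma Be_MR {ρ : ℝ} (hρ : 0 < ρ) (hρ1 : ρ < 1) : 1 ≤ MR ρ := by
  unfold MR
  rw [le_div_iff₀ (by nlinarith)]
  nlinarith

theorem dd_Bd {ρ B : ℝ} (hρ : 0 < ρ) (hρ1 : ρ < 1) {g : ℚ⟦X⟧} (hg : Bd ρ B g) (i : ℕ) :
    Bd ρ B (dd ℚ i g) := by
  unfold dd
  exact Be_expand hρ hρ1 hg _ _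

theorem mon_Bd {ρ B : ℝ} (hρ : 0 < ρ) (hρ1 : ρ < 1) {g : ℚ⟦X⟧} (hg : Bd ρ B g) {r : ℕ}
    (b : Fin r → ℕ) : Bd ρ (B ^ wt b) (mon ℚ g b) := by
  have h : ∀ s : Finset (Fin r), Bd ρ (∏ i ∈ s, B ^ b i) (∏ i ∈ s, dd ℚ (i : ℕ) g ^ b i) := by
    intro s
    classical
    induction s using Finset.induction_on with
    | empty =>
      rw [Finset.prod_empty, Finset.prod_empty]
      exact Cbd_one
    | insert i s hi ih =>
      rw [Finset.prod_insert hi, Finset.prod_insert hi]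
      exact ((dd_Bd hρ hρ1 hg _).pow hρ _).mul hρ ih
  have h1 := h Finset.univ
  rw [Finset.prod_pow_eq_pow_sum] at h1
  exact h1

theorem gu_Bd (r κ E n : ℕ) (s : Ix r E n) {ρ : ℝ} (hρ : 0 < ρ) (hρ1 : ρ < 1) :
    Bd ρ (MR ρ ^ (n + κ * (r * E))) (gu ℚ r κ E n s) := by
  unfold gu
  refine Be_mono ?_ (((Bd_U hρ hρ1).pow hρ _).mul hρ ((Bd_V hρ hρ1).pow hρ _))
  rw [← pow_add]
  refine pow_le_pow_right₀ (Be_MR hρ hρ1) ?_
  have h1 : (s.2 : ℕ) ≤ n := Nat.lt_succ_iff.1 s.2.2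
  have h2 : κ * (r * E - wt (ex s)) ≤ κ * (r * E) := Nat.mul_le_mul_left _ (Nat.sub_le _ _)
  omega

theorem BB_bd (f : ℤ⟦X⟧) (r κ E n : ℕ) (s : Ix r E n) {ρ B : ℝ} (hρ : 0 < ρ) (hρ1 : ρ < 1)
    (hB : 1 ≤ B) (hb : Bd ρ B (F1 f)) (l m j : ℕ) :
    |((BB ℚ r κ E n (F1 f) s l m j : ℚ) : ℝ)| ≤
      2 ^ (r * E) * MR ρ ^ (n + κ * (r * E)) * B ^ (r * E) * (ρ⁻¹) ^ (l + m) := by
  have hMR := Be_MR hρ hρ1
  have hwt := wt_ex_le s
  unfold BB
  rw [Rat.cast_sum]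
  refine (Finset.abs_sum_le_sum_abs _ _).trans ?_
  have hterm : ∀ a ∈ (Fintype.piFinset fun i => Finset.range (ex s i + 1)).filter
      (fun a => wt a = j),
      |(((-1) ^ j * (∏ i, ((ex s i).choose (a i) : ℚ)) *
      (PowerSeries.coeff l (gu ℚ r κ E n s * mon ℚ (F1 f) (fun i => ex s i - a i)) *
        PowerSeries.coeff m (mon ℚ (F1 f) a)) : ℚ) : ℝ)| ≤
      (∏ i, ((ex s i).choose (a i) : ℝ)) *
        (MR ρ ^ (n + κ * (r * E)) * B ^ (r * E) * (ρ⁻¹) ^ (l + m)) := by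
    intro a ha
    have ha' := Fintype.mem_piFinset.1 (Finset.mem_filter.1 ha).1
    have hwa : wt (fun i => ex s i - a i) + wt a = wt (ex s) := by
      unfold wt
      rw [← Finset.sum_add_distrib]
      refine Finset.sum_congr rfl fun i _ => ?_
      have := Finset.mem_range.1 (ha' i)
      omega
    have h1 := Be_coeff hρ ((gu_Bd r κ E n s hρ hρ1).mul hρ
      (mon_Bd hρ hρ1 hb (fun i => ex s i - a i))) l
    have h2 := Be_coeff hρ (mon_Bd hρ hρ1 hb a) m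
    have e1 : |(((-1) ^ j * (∏ i, ((ex s i).choose (a i) : ℚ)) *
        (PowerSeries.coeff l (gu ℚ r κ E n s * mon ℚ (F1 f) (fun i => ex s i - a i)) *
        PowerSeries.coeff m (mon ℚ (F1 f) a)) : ℚ) : ℝ)| =
        (∏ i, ((ex s i).choose (a i) : ℝ)) *
        (|((PowerSeries.coeff l (gu ℚ r κ E n s * mon ℚ (F1 f) (fun i => ex s i - a i)) : ℚ) : ℝ)| *
          |((PowerSeries.coeff m (mon ℚ (F1 f) a) : ℚ) : ℝ)|) := by
      rw [Rat.cast_mul, Rat.cast_mul, Rat.cast_mul, abs_mul, abs_mul, abs_mul]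
      have e2 : |(((-1) ^ j : ℚ) : ℝ)| = 1 := by
        rw [Rat.cast_pow, Rat.cast_neg, Rat.cast_one, abs_pow, abs_neg, abs_one, one_pow]
      have e3 : |((∏ i, ((ex s i).choose (a i) : ℚ) : ℚ) : ℝ)| =
          ∏ i, ((ex s i).choose (a i) : ℝ) := by
        rw [Rat.cast_prod, abs_of_nonneg]
        · refine Finset.prod_congr rfl fun i _ => ?_
          exact Rat.cast_natCast _
        · refine Finset.prod_nonneg fun i _ => ?_
          rw [Rat.cast_natCast]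
          exact Nat.cast_nonneg _
      rw [e2, e3, one_mul]
    rw [e1]
    refine mul_le_mul_of_nonneg_left ?_ (Finset.prod_nonneg fun i _ => Nat.cast_nonneg _)
    refine (mul_le_mul h1 h2 (abs_nonneg _) (by positivity)).trans ?_
    have e4 : MR ρ ^ (n + κ * (r * E)) * B ^ wt (fun i => ex s i - a i) * ρ⁻¹ ^ l *
        (B ^ wt a * ρ⁻¹ ^ m) = MR ρ ^ (n + κ * (r * E)) *
        B ^ (wt (fun i => ex s i - a i) + wt a) * ρ⁻¹ ^ (l + m) := by
      rw [pow_add, pow_add]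
      ring
    rw [e4, hwa]
    refine mul_le_mul_of_nonneg_right ?_ (by positivity)
    exact mul_le_mul_of_nonneg_left (pow_le_pow_right₀ hB hwt) (by positivity)
  refine (Finset.sum_le_sum hterm).trans ?_
  rw [← Finset.sum_mul]
  have hcount : ∑ a ∈ (Fintype.piFinset fun i => Finset.range (ex s i + 1)).filter
      (fun a => wt a = j), (∏ i, ((ex s i).choose (a i) : ℝ)) ≤ 2 ^ (r * E) := by
    calc ∑ a ∈ (Fintype.piFinset fun i => Finset.range (ex s i + 1)).filter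
          (fun a => wt a = j), (∏ i, ((ex s i).choose (a i) : ℝ))
        ≤ ∑ a ∈ Fintype.piFinset fun i => Finset.range (ex s i + 1),
          (∏ i, ((ex s i).choose (a i) : ℝ)) :=
          Finset.sum_le_sum_of_subset_of_nonneg (Finset.filter_subset _ _)
            fun a _ _ => Finset.prod_nonneg fun i _ => Nat.cast_nonneg _
      _ = ∏ i, ∑ k ∈ Finset.range (ex s i + 1), ((ex s i).choose k : ℝ) := by
          rw [Finset.prod_univ_sum]
      _ = ∏ i, (2 : ℝ) ^ ex s i := by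
          refine Finset.prod_congr rfl fun i _ => ?_
          have := Nat.sum_range_choose (ex s i)
          exact_mod_cast this
      _ = 2 ^ wt (ex s) := by
          rw [Finset.prod_pow_eq_pow_sum]
          rfl
      _ ≤ 2 ^ (r * E) := pow_le_pow_right₀ (by norm_num) hwt
  have e5 : (2 : ℝ) ^ (r * E) * MR ρ ^ (n + κ * (r * E)) * B ^ (r * E) * ρ⁻¹ ^ (l + m) =
      2 ^ (r * E) * (MR ρ ^ (n + κ * (r * E)) * B ^ (r * E) * ρ⁻¹ ^ (l + m)) := by ring
  rw [e5]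
  exact mul_le_mul_of_nonneg_right hcount (by positivity)

end Pool.Agent.H6.OR
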