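import Pool.Agent.H6.OR.Bc
import Pool.Agent.H85.OT.Cden

/-!
# Row Bf (project OR): denominators

`CdenI f Y a g` : `Z0^a * coeff l g ∈ ℤ` for `l ≤ Y` (`Pool/Agent/H85/OT/Cden.lean`: `CdenI_mul`, `CdenI_pow`,
`CdenI_one`, `CdenI_F1`, `CdenI_F2`, `CdenI_mono`, `CdenI_map`).
* `CdenI_dd`: `CdenI f Y 1 (dd ℚ i (F1 f))` (as `CdenI_F2`).
* `CdenI_mon`: `CdenI f Y (wt b) (mon ℚ (F1 f) b)` (induction over the product).
* `gu ℚ` has integral coefficients (`CdenI f Y 0`).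
* a term of `BB`: `Z0^(wt e) * (coeff l (gu * mon (e-a)) * coeff m (mon a)) ∈ ℤ` for `l, m ≤ Y`, as
  `wt (e-a) + wt a = wt e`; multiply by `Z0^(rE - wt e)` (`wt_ex_le`) and by the integers `(-1)^j ∏ choose`;
  sum over `a`.
-/

open PowerSeries

namespace Pool.Agent.H6.OR

open Pool.Agent.H85.OT

theorem CdenI_dd (f : ℤ⟦X⟧) (Y i : ℕ) : CdenI f Y 1 (dd ℚ i (F1 f)) := by
  intro l hl
  rw [pow_one]
  unfold dd
  by_cases h : 2 ^ i ∣ l
  · obtain ⟨k, rfl⟩ := h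
    rw [PowerSeries.coeff_expand_mul]
    have h1 : k ≤ 2 ^ i * k := Nat.le_mul_of_pos_left k (by positivity)
    exact den_F1 f Y k (h1.trans hl)
  · rw [PowerSeries.coeff_expand_of_not_dvd _ _ _ h]
    exact ⟨0, by simp⟩

theorem CdenI_mon (f : ℤ⟦X⟧) (Y : ℕ) {r : ℕ} (b : Fin r → ℕ) :
    CdenI f Y (wt b) (mon ℚ (F1 f) b) := by
  classical
  have key : ∀ s : Finset (Fin r), CdenI f Y (∑ i ∈ s, b i) (∏ i ∈ s, dd ℚ (i : ℕ) (F1 f) ^ b i) := by
    intro s
    induction s using Finset.induction_on with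
    | empty =>
      rw [Finset.sum_empty, Finset.prod_empty]
      exact CdenI_one f Y
    | insert i s hi ih =>
      rw [Finset.sum_insert hi, Finset.prod_insert hi]
      have h1 := CdenI_pow (CdenI_dd f Y (i : ℕ)) (b i)
      rw [one_mul] at h1
      exact CdenI_mul h1 ih
  exact key Finset.univ

theorem CdenI_gu (f : ℤ⟦X⟧) (Y r κ E n : ℕ) (s : Ix r E n) :
    CdenI f Y 0 (gu ℚ r κ E n s) := by
  have hU : CdenI f Y 0 (U ℚ) := CdenI_map f Y _
  have hV : CdenI f Y 0 (V ℚ) := CdenI_map f Y _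
  have h := CdenI_mul (CdenI_pow hU (n + κ * (r * E - wt (ex s)) - (s.2 : ℕ))) (CdenI_pow hV (s.2 : ℕ))
  exact CdenI_mono h (by simp)

theorem BB_den (f : ℤ⟦X⟧) (r κ E n : ℕ) (s : Ix r E n) (Y l m j : ℕ) (hl : l ≤ Y) (hm : m ≤ Y) :
    ∃ z : ℤ, (Z0 f Y : ℚ) ^ (r * E) * BB ℚ r κ E n (F1 f) s l m j = z := by
  classical
  unfold BB
  have key : ∀ a ∈ (Fintype.piFinset fun i => Finset.range (ex s i + 1)).filter (fun a => wt a = j),
      ∃ z : ℤ, (Z0 f Y : ℚ) ^ (r * E) * ((-1) ^ j * (∏ i, ((ex s i).choose (a i) : ℚ)) *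
      (PowerSeries.coeff l (gu ℚ r κ E n s * mon ℚ (F1 f) (fun i => ex s i - a i)) *
        PowerSeries.coeff m (mon ℚ (F1 f) a))) = z := by
    intro a ha
    rw [Finset.mem_filter, Fintype.mem_piFinset] at ha
    have hle : ∀ i, a i ≤ ex s i := fun i => by
      have := ha.1 i
      rw [Finset.mem_range] at this
      omega
    obtain ⟨z1, h1⟩ := CdenI_mul (CdenI_gu f Y r κ E n s) (CdenI_mon f Y (fun i => ex s i - a i)) l hl
    obtain ⟨z2, h2⟩ := CdenI_mon f Y a m hm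
    have hw : wt (fun i => ex s i - a i) + wt a = wt (ex s) := by
      unfold wt
      rw [← Finset.sum_add_distrib]
      exact Finset.sum_congr rfl fun i _ => Nat.sub_add_cancel (hle i)
    have hwe := wt_ex_le s
    have hsplit : r * E = (r * E - wt (ex s)) + ((0 + wt (fun i => ex s i - a i)) + wt a) := by omega
    refine ⟨(-1) ^ j * (∏ i, ((ex s i).choose (a i) : ℤ)) * ((Z0 f Y : ℤ) ^ (r * E - wt (ex s)) * (z1 * z2)), ?_⟩
    push_cast
    rw [← h1, ← h2]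
    conv_lhs => rw [hsplit, pow_add, pow_add]
    ring
  choose! z hz using key
  refine ⟨∑ a ∈ (Fintype.piFinset fun i => Finset.range (ex s i + 1)).filter (fun a => wt a = j), z a, ?_⟩
  rw [Finset.mul_sum, Int.cast_sum]
  exact Finset.sum_congr rfl hz

end Pool.Agent.H6.OR
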