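import Pool.Agent.H6.OR.Be
import Pool.Agent.H6.OR.Bf
import Mathlib.NumberTheory.SiegelsLemma

/-!
# Row Bg (project OR): Siegel's lemma for the coefficients `AA`

`N = E^r (n+1)` unknowns `t_s` (`Fintype.card (Ix r E n) = E^r (n+1)`); equations indexed by
`Fin (P*M) × Fin M × Fin (r*E+1)`, number `T = P M M (rE+1)`, `1 ≤ T`, `2 T ≤ N`.
The matrix `A_((l,m,j),s) = Z0^(rE) * BB s l m j` is integral (`BB_den`, `l < P M ≤ Y`, `m < M ≤ Y`), with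
`|A| ≤ Q := Z0^(rE) * (2^(rE) MR^(n+κrE) B^(rE) (ρ⁻¹)^(P M + M))` (`BB_bd`, `l + m ≤ P M + M`), `Q ≥ 1`
(`Z0_pos`, `MR ρ ≥ 1`).  `Int.Matrix.exists_ne_zero_int_vec_norm_le` as in
`Pool/Agent/H85/OT/Csieg.lean` (`siegel_phi`; copy that proof): `‖t‖ ≤ (N max(1,‖A‖))^(T/(N-T)) ≤ N Q`.
`A t = 0` means `Z0^(rE) AA l m j = 0`, so `AA l m j = 0` for `j ≤ rE`; for `j > r E` use `AA_large`.
-/

open PowerSeries

namespace Pool.Agent.H6.OR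

open Pool.Agent.H85.OT

attribute [local instance] Matrix.seminormedAddCommGroup

private lemma Bg_MR {ρ : ℝ} (hρ : 0 < ρ) (hρ1 : ρ < 1) : 1 ≤ MR ρ := by
  unfold MR
  rw [le_div_iff₀ (by nlinarith)]
  nlinarith

private lemma Bg_one_le (f : ℤ⟦X⟧) (r κ E n Y T : ℕ) {ρ B : ℝ}
    (hρ : 0 < ρ) (hρ1 : ρ < 1) (hB : 1 ≤ B) :
    1 ≤ (Z0 f Y : ℝ) ^ (r * E) *
      (2 ^ (r * E) * MR ρ ^ (n + κ * (r * E)) * B ^ (r * E) * (ρ⁻¹) ^ T) := by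
  have hMR : 1 ≤ MR ρ := Bg_MR hρ hρ1
  have h5 : (1 : ℝ) ≤ ρ⁻¹ := (one_le_inv₀ hρ).2 hρ1.le
  have hZ : (1 : ℝ) ≤ (Z0 f Y : ℝ) := by
    exact_mod_cast Z0_pos f Y
  exact one_le_mul_of_one_le_of_one_le (one_le_pow₀ hZ) (one_le_mul_of_one_le_of_one_le
    (one_le_mul_of_one_le_of_one_le (one_le_mul_of_one_le_of_one_le
      (one_le_pow₀ (by norm_num)) (one_le_pow₀ hMR)) (one_le_pow₀ hB)) (one_le_pow₀ h5))

private lemma Bg_abs (f : ℤ⟦X⟧) (r κ E n Y : ℕ) {ρ B : ℝ}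
    (hρ : 0 < ρ) (hρ1 : ρ < 1) (hB : 1 ≤ B) (hb : Bd ρ B (F1 f))
    {T l m : ℕ} (j : ℕ) (hl : l + m ≤ T) (s : Ix r E n) (z : ℤ)
    (hz : (Z0 f Y : ℚ) ^ (r * E) * BB ℚ r κ E n (F1 f) s l m j = z) :
    |(z : ℝ)| ≤ (Z0 f Y : ℝ) ^ (r * E) *
      (2 ^ (r * E) * MR ρ ^ (n + κ * (r * E)) * B ^ (r * E) * (ρ⁻¹) ^ T) := by
  have h3 : (z : ℝ) = (Z0 f Y : ℝ) ^ (r * E) * ((BB ℚ r κ E n (F1 f) s l m j : ℚ) : ℝ) := by
    have := congrArg (fun q : ℚ => (q : ℝ)) hz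
    simp only [Rat.cast_mul, Rat.cast_pow, Rat.cast_natCast, Rat.cast_intCast] at this
    exact this.symm
  have h4 := BB_bd f r κ E n s hρ hρ1 hB hb l m j
  have hMR : 0 ≤ MR ρ := zero_le_one.trans (Bg_MR hρ hρ1)
  have h5 : (1 : ℝ) ≤ ρ⁻¹ := (one_le_inv₀ hρ).2 hρ1.le
  have h6 : (ρ⁻¹) ^ (l + m) ≤ (ρ⁻¹) ^ T := pow_le_pow_right₀ h5 hl
  rw [h3, abs_mul, abs_pow, Nat.abs_cast]
  refine mul_le_mul_of_nonneg_left (h4.trans ?_) (by positivity)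
  exact mul_le_mul_of_nonneg_left h6 (by positivity)

theorem siegel_AA (f : ℤ⟦X⟧) (r κ E n Y P M : ℕ) (hP : 1 ≤ P) (hM : 1 ≤ M)
    (hcount : 2 * (P * M * M * (r * E + 1)) ≤ E ^ r * (n + 1)) (hPM : P * M ≤ Y) (hMY : M ≤ Y)
    {ρ B : ℝ} (hρ : 0 < ρ) (hρ1 : ρ < 1) (hB : 1 ≤ B) (hb : Bd ρ B (F1 f)) :
    ∃ t : Ix r E n → ℤ, t ≠ 0 ∧
      (∀ l < P * M, ∀ m < M, ∀ j,
        AA ℚ r κ E n (fun s => (t s : ℚ)) (F1 f) l m j = 0) ∧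
      ∀ s, |((t s : ℤ) : ℝ)| ≤ (E ^ r * (n + 1) : ℝ) *
        ((Z0 f Y : ℝ) ^ (r * E) *
          (2 ^ (r * E) * MR ρ ^ (n + κ * (r * E)) * B ^ (r * E) * (ρ⁻¹) ^ (P * M + M))) := by
  classical
  set T : ℕ := P * M * M * (r * E + 1) with hT
  set Q : ℝ := (Z0 f Y : ℝ) ^ (r * E) *
    (2 ^ (r * E) * MR ρ ^ (n + κ * (r * E)) * B ^ (r * E) * (ρ⁻¹) ^ (P * M + M)) with hQ
  have hQ1 : 1 ≤ Q := Bg_one_le f r κ E n Y (P * M + M) hρ hρ1 hB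
  have hT1 : 1 ≤ T := by
    have : 0 < T := by
      rw [hT]
      have h1 : 0 < P := hP
      have h2 : 0 < M := hM
      positivity
    exact this
  have hex : ∀ (q : Fin (P * M) × Fin M × Fin (r * E + 1)) (s : Ix r E n),
      ∃ z : ℤ, (Z0 f Y : ℚ) ^ (r * E) *
        BB ℚ r κ E n (F1 f) s (q.1 : ℕ) (q.2.1 : ℕ) (q.2.2 : ℕ) = z :=
    fun q s => BB_den f r κ E n s Y _ _ _ (q.1.2.le.trans hPM) (q.2.1.2.le.trans hMY)
  choose A hA using hex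
  have hcard : Fintype.card (Ix r E n) = E ^ r * (n + 1) := by
    rw [Fintype.card_prod, Fintype.card_fun, Fintype.card_fin, Fintype.card_fin, Fintype.card_fin]
  have hcT : Fintype.card (Fin (P * M) × Fin M × Fin (r * E + 1)) = T := by
    rw [Fintype.card_prod, Fintype.card_prod, Fintype.card_fin, Fintype.card_fin,
      Fintype.card_fin, hT]
    ring
  obtain ⟨t, ht0, hAt, htn⟩ := Int.Matrix.exists_ne_zero_int_vec_norm_le (Matrix.of A)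
    (by rw [hcard, hcT]; omega) (by rw [hcT]; omega)
  have hAn : ‖Matrix.of A‖ ≤ Q := by
    rw [Matrix.norm_le_iff (by linarith)]
    intro q s
    rw [Int.norm_eq_abs]
    exact Bg_abs f r κ E n Y hρ hρ1 hB hb (q.2.2 : ℕ)
      (Nat.add_le_add q.1.2.le q.2.1.2.le) s (A q s) (hA q s)
  refine ⟨t, ht0, ?_, ?_⟩
  · intro l hl m hm j
    by_cases hj : r * E < j
    · exact AA_large r κ E n _ (F1 f) l m j hj
    · have hj' : j < r * E + 1 := by omega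
      have h3 := congrFun hAt (⟨l, hl⟩, ⟨m, hm⟩, ⟨j, hj'⟩)
      have h4 : (Z0 f Y : ℚ) ^ (r * E) * AA ℚ r κ E n (fun s => (t s : ℚ)) (F1 f) l m j = 0 := by
        rw [AA, Finset.mul_sum]
        have h5 : ((∑ s, A (⟨l, hl⟩, ⟨m, hm⟩, ⟨j, hj'⟩) s * t s : ℤ) : ℚ) = 0 := by
          have h6 : ∑ s, A (⟨l, hl⟩, ⟨m, hm⟩, ⟨j, hj'⟩) s * t s = 0 := h3
          rw [h6, Int.cast_zero]
        rw [← h5, Int.cast_sum]
        refine Finset.sum_congr rfl fun s _ => ?_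
        rw [Int.cast_mul, ← hA (⟨l, hl⟩, ⟨m, hm⟩, ⟨j, hj'⟩) s]
        ring
      have h7 : (Z0 f Y : ℚ) ^ (r * E) ≠ 0 := by
        have := Z0_pos f Y
        positivity
      exact (mul_eq_zero.1 h4).resolve_left h7
  · intro s
    have h3 : ‖t s‖ ≤ ‖t‖ := norm_le_pi_norm t s
    rw [Int.norm_eq_abs] at h3
    refine h3.trans (htn.trans ?_)
    rw [hcard, hcT]
    have hN1 : (1 : ℝ) ≤ ((E ^ r * (n + 1) : ℕ) : ℝ) := by
      exact_mod_cast (by omega : 1 ≤ E ^ r * (n + 1))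
    have hb1 : (1 : ℝ) ≤ ((E ^ r * (n + 1) : ℕ) : ℝ) * max 1 ‖Matrix.of A‖ :=
      one_le_mul_of_one_le_of_one_le hN1 (le_max_left _ _)
    have hTN : 2 * ((T : ℕ) : ℝ) ≤ ((E ^ r * (n + 1) : ℕ) : ℝ) := by
      exact_mod_cast hcount
    have hT0 : (0 : ℝ) < (T : ℝ) := by
      exact_mod_cast (by omega : 0 < T)
    have he : (T : ℝ) / (((E ^ r * (n + 1) : ℕ) : ℝ) - (T : ℝ)) ≤ 1 := by
      rw [div_le_one (by linarith)]
      linarith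
    refine (Real.rpow_le_rpow_of_exponent_le hb1 he).trans ?_
    rw [Real.rpow_one]
    have hm : max 1 ‖Matrix.of A‖ ≤ Q := max_le hQ1 hAn
    have h8 : ((E ^ r * (n + 1) : ℕ) : ℝ) = (E ^ r * (n + 1) : ℝ) := by push_cast; ring
    rw [← h8]
    exact mul_le_mul_of_nonneg_left hm (by linarith)

end Pool.Agent.H6.OR
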