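import Pool.Agent.H6.OR.Bg

/-!
# Row Bh (project OR): a primitive solution

* `primitive`: for a nonzero integer vector `t` on a finite type, let `g` be the gcd of the entries
  (`Finset.gcd` over `univ`, `Finset.extract_gcd`, or: divide by a prime as long as possible, induction on
  `∑ |t s|`).  `t = g • t'`, `g ≠ 0`, and for every prime `q` some `t' s` is not divisible by `q`
  (otherwise `q ∣ gcd t' = 1`); `|t' s| ≤ |t s|`.
* `siegel_prim`: apply `siegel_AA`; `AA` is linear in `t`, so `g * AA(t') = AA(t) = 0` gives `AA(t') = 0`.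
-/

open PowerSeries

namespace Pool.Agent.H6.OR

open Pool.Agent.H85.OT

theorem primitive {ι : Type*} [Fintype ι] (t : ι → ℤ) (ht : t ≠ 0) :
    ∃ (g : ℤ) (t' : ι → ℤ), g ≠ 0 ∧ (∀ s, t s = g * t' s) ∧ (∀ s, |t' s| ≤ |t s|) ∧
      ∀ q : ℕ, q.Prime → ∃ s, ¬ (q : ℤ) ∣ t' s := by
  classical
  obtain ⟨i, hi⟩ : ∃ i, t i ≠ 0 := by
    by_contra hcon
    push Not at hcon
    exact ht (funext hcon)
  obtain ⟨t', he, hg⟩ := Finset.extract_gcd t (s := Finset.univ) ⟨i, Finset.mem_univ i⟩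
  have hg0 : Finset.univ.gcd t ≠ 0 := by
    intro h
    exact hi (Finset.gcd_eq_zero_iff.1 h i (Finset.mem_univ i))
  refine ⟨Finset.univ.gcd t, t', hg0, fun s => he s (Finset.mem_univ s), fun s => ?_, ?_⟩
  · rw [he s (Finset.mem_univ s), abs_mul]
    exact le_mul_of_one_le_left (abs_nonneg _) (Int.one_le_abs hg0)
  · intro q hq
    by_contra hcon
    push Not at hcon
    have h1 : (q : ℤ) ∣ Finset.univ.gcd t' := Finset.dvd_gcd fun s _ => hcon s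
    rw [hg] at h1
    have h2 : q ∣ 1 := by exact_mod_cast h1
    exact hq.one_lt.ne' (Nat.dvd_one.1 h2)

theorem siegel_prim (f : ℤ⟦X⟧) (r κ E n Y P M : ℕ) (hP : 1 ≤ P) (hM : 1 ≤ M)
    (hcount : 2 * (P * M * M * (r * E + 1)) ≤ E ^ r * (n + 1)) (hPM : P * M ≤ Y) (hMY : M ≤ Y)
    {ρ B : ℝ} (hρ : 0 < ρ) (hρ1 : ρ < 1) (hB : 1 ≤ B) (hb : Bd ρ B (F1 f)) :
    ∃ t : Ix r E n → ℤ, (∀ q : ℕ, q.Prime → ∃ s, ¬ (q : ℤ) ∣ t s) ∧
      (∀ l < P * M, ∀ m < M, ∀ j,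
        AA ℚ r κ E n (fun s => (t s : ℚ)) (F1 f) l m j = 0) ∧
      ∀ s, |((t s : ℤ) : ℝ)| ≤ (E ^ r * (n + 1) : ℝ) *
        ((Z0 f Y : ℝ) ^ (r * E) *
          (2 ^ (r * E) * MR ρ ^ (n + κ * (r * E)) * B ^ (r * E) * (ρ⁻¹) ^ (P * M + M))) := by
  obtain ⟨t, ht0, hA, hbd⟩ := siegel_AA f r κ E n Y P M hP hM hcount hPM hMY hρ hρ1 hB hb
  obtain ⟨g, t', hg, hgt, hle, hp⟩ := primitive t ht0
  refine ⟨t', hp, ?_, ?_⟩
  · intro l hl m hm j
    have h1 := hA l hl m hm j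
    have h2 : AA ℚ r κ E n (fun s => (t s : ℚ)) (F1 f) l m j =
        (g : ℚ) * AA ℚ r κ E n (fun s => (t' s : ℚ)) (F1 f) l m j := by
      rw [AA, AA, Finset.mul_sum]
      refine Finset.sum_congr rfl fun s _ => ?_
      rw [hgt s, Int.cast_mul]
      ring
    rw [h2] at h1
    exact (mul_eq_zero.1 h1).resolve_left (by exact_mod_cast hg)
  · intro s
    refine le_trans ?_ (hbd s)
    exact_mod_cast hle s

end Pool.Agent.H6.OR
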