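import Pool.Agent.H6.OR.Ba
import Pool.Agent.H6.OR.Bd

/-!
# Row Bi (project OR): the relations mod `p` (section 3 of the paper proof)

`AA_red`: let `g` be the reduction of `F1 f` (`IsRed`), `G : ℤ_[p]⟦X⟧` the lift.  By `map_AA` for
`ℤ_[p] → ℚ_[p]` (`PadicInt.Coe.ringHom`), `ℤ_[p] → ZMod p` (`PadicInt.toZMod`) and `ℚ → ℚ_[p]`:
if `AA ℚ (t) (F1 f) l m j = 0` then `AA ℤ_[p] (t) G l m j = 0` (injectivity of the coercion), so
`AA (ZMod p) (t) g l m j = 0`.  (Integer coefficients `t`: `map_intCast`.)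

`lines_mod`: take `g, c` from `h.form`.  The coefficient `u` of `PP t̄ (Hh c g)` is
`∑_{m ≤ u/p} ∑_j c^j AA (u - p m) m j` (`coeff_PP_Hh`).  Let `u ≤ s (n + κ p (r E))`.  As
`n < κ p (r E)`, `u < 2 s κ p (r E) = p M ≤ P M`; in each term `u - p m ≤ u < P M` and `p m ≤ u < p M` so
`m < M`, and the term vanishes by `hvan` and `AA_red`.  So by `h.form` `PP t̄ (Hh c g) = 0` and all its
coefficients vanish.
-/

open PowerSeries

namespace Pool.Agent.H6.OR

open Pool.Agent.H85.OT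

theorem AA_red (f : ℤ⟦X⟧) (p : ℕ) [Fact p.Prime] (g : (ZMod p)⟦X⟧) (hg : IsRed f p g)
    (r κ E n : ℕ) (t : Ix r E n → ℤ) (l m j : ℕ)
    (h0 : AA ℚ r κ E n (fun s => (t s : ℚ)) (F1 f) l m j = 0) :
    AA (ZMod p) r κ E n (fun s => (t s : ZMod p)) g l m j = 0 := by
  obtain ⟨G, hG1, hG2⟩ := hg
  have h1 := map_AA (Rat.castHom ℚ_[p]) r κ E n (fun s => (t s : ℚ)) (F1 f) l m j
  rw [h0, map_zero] at h1
  have h2 := map_AA (PadicInt.Coe.ringHom (p := p)) r κ E n (fun s => (t s : ℤ_[p])) G l m j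
  have e1 : (fun s => (Rat.castHom ℚ_[p]) ((t s : ℤ) : ℚ)) = fun s => ((t s : ℤ) : ℚ_[p]) := by
    funext s
    exact map_intCast _ _
  have e2 : (fun s => (PadicInt.Coe.ringHom (p := p)) ((t s : ℤ) : ℤ_[p])) = fun s => ((t s : ℤ) : ℚ_[p]) := by
    funext s
    exact map_intCast _ _
  rw [e1] at h1
  rw [e2, hG1, ← h1] at h2
  have h3 : AA ℤ_[p] r κ E n (fun s => (t s : ℤ_[p])) G l m j = 0 := by
    have hinj : Function.Injective (PadicInt.Coe.ringHom (p := p)) := Subtype.coe_injective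
    apply hinj
    rw [h2, map_zero]
  have h4 := map_AA (PadicInt.toZMod (p := p)) r κ E n (fun s => (t s : ℤ_[p])) G l m j
  have e3 : (fun s => (PadicInt.toZMod (p := p)) ((t s : ℤ) : ℤ_[p])) = fun s => ((t s : ℤ) : ZMod p) := by
    funext s
    exact map_intCast _ _
  rw [h3, map_zero, e3, hG2] at h4
  exact h4.symm

theorem lines_mod (f : ℤ⟦X⟧) (κ r s p0 : ℕ) (h : OrdData f κ r s p0) (E n P : ℕ)
    (t : Ix r E n → ℤ)
    (hvan : ∀ l < P * (2 * s * κ * (r * E)), ∀ m < 2 * s * κ * (r * E), ∀ j,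
      AA ℚ r κ E n (fun s => (t s : ℚ)) (F1 f) l m j = 0)
    (p : ℕ) [hp : Fact p.Prime] (hp0 : p0 < p) (hO : ¬ Ord0 f p) (hpP : p ≤ P)
    (hn : n < κ * p * (r * E)) :
    ∃ (g : (ZMod p)⟦X⟧) (c : ZMod p), IsRed f p g ∧
      ∀ u, ∑ m ∈ Finset.range (u / p + 1), ∑ j ∈ Finset.range (r * E + 1),
        c ^ j * AA (ZMod p) r κ E n (fun s => (t s : ZMod p)) g (u - p * m) m j = 0 := by
  obtain ⟨g, c, hg, hform⟩ := h.form p hp0 hO
  refine ⟨g, c, hg, ?_⟩
  have hp1 : 0 < p := hp.out.pos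
  have hPP := hform E n (fun s => (t s : ZMod p)) (by
    intro u hu
    rw [coeff_PP_Hh]
    apply Finset.sum_eq_zero
    intro m hm
    apply Finset.sum_eq_zero
    intro j _
    rw [Finset.mem_range] at hm
    have hM : u < p * (2 * s * κ * (r * E)) := by
      have h1 : n + κ * p * (r * E) < 2 * (κ * p * (r * E)) := by omega
      calc u ≤ s * (n + κ * p * (r * E)) := hu
        _ < s * (2 * (κ * p * (r * E))) := Nat.mul_lt_mul_of_pos_left h1 h.spos
        _ = p * (2 * s * κ * (r * E)) := by ring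
    have hpm : p * m ≤ u := by
      have h2 : m ≤ u / p := by omega
      calc p * m ≤ p * (u / p) := Nat.mul_le_mul_left p h2
        _ ≤ u := Nat.mul_div_le u p
    have hm2 : m < 2 * s * κ * (r * E) := Nat.lt_of_mul_lt_mul_left (lt_of_le_of_lt hpm hM)
    have hu2 : u - p * m < P * (2 * s * κ * (r * E)) :=
      lt_of_le_of_lt (Nat.sub_le _ _) (lt_of_lt_of_le hM (Nat.mul_le_mul_right _ hpP))
    rw [AA_red f p g hg r κ E n t (u - p * m) m j (hvan (u - p * m) hu2 m hm2 j), mul_zero])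
  intro u
  rw [← coeff_PP_Hh r κ E n (fun s => (t s : ZMod p)) p hp.out.ne_zero c g u, hPP, map_zero]

end Pool.Agent.H6.OR
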