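import Pool.Agent.H6.OR.Ba
import Pool.Agent.H6.OR.Be
import Pool.Agent.H6.OR.Bf

/-!
# Row Bj (project OR): the integers `a_(l,m,j) = Z0^(rE) AA(l,m,j)`

* `aa` is the numerator of `Z0^(rE) * AA ℚ`; for `l, m ≤ Y` this number is an integer (`BB_den`, linear
  combination with the integers `t s`), so `(aa : ℚ) = Z0^(rE) * AA ℚ` (`aa_cast`; `Rat.num_intCast`,
  `Rat.den`..).
* `aa_bd`: `|aa| ≤ Z0^(rE) ∑_s |t_s| |BB_s| ≤ Z0^(rE) * (E^r (n+1)) * A * (2^(rE) MR^(n+κrE) B^(rE) (ρ⁻¹)^(l+m))`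
  (`BB_bd`, `Fintype.card (Ix r E n) = E^r (n+1)`), if all `|t_s| ≤ A`.
* `aa_mod`: in `ZMod p`: `aa = Z0^(rE) * AA (ZMod p) g`.  Both sides come from `ℤ_[p]`: with the lift `G` of
  `IsRed`, `(aa : ℤ_[p]) = Z0^(rE) * AA ℤ_[p] (t) G l m j` since the images in `ℚ_[p]` agree (`map_AA` for
  `ℤ_[p] → ℚ_[p]` and for `ℚ → ℚ_[p]`); then apply `toZMod`.
-/

open PowerSeries

namespace Pool.Agent.H6.OR

open Pool.Agent.H85.OT

/-- the integer `Z0^(rE) * AA ℚ l m j` -/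
noncomputable def aa (f : ℤ⟦X⟧) (r κ E n Y : ℕ) (t : Ix r E n → ℤ) (l m j : ℕ) : ℤ :=
  ((Z0 f Y : ℚ) ^ (r * E) * AA ℚ r κ E n (fun s => (t s : ℚ)) (F1 f) l m j).num

theorem aa_cast (f : ℤ⟦X⟧) (r κ E n Y : ℕ) (t : Ix r E n → ℤ) (l m j : ℕ) (hl : l ≤ Y)
    (hm : m ≤ Y) :
    ((aa f r κ E n Y t l m j : ℤ) : ℚ) =
      (Z0 f Y : ℚ) ^ (r * E) * AA ℚ r κ E n (fun s => (t s : ℚ)) (F1 f) l m j := by
  choose z hz using fun s => BB_den f r κ E n s Y l m j hl hm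
  have hx : (Z0 f Y : ℚ) ^ (r * E) * AA ℚ r κ E n (fun s => (t s : ℚ)) (F1 f) l m j =
      ((∑ s, t s * z s : ℤ) : ℚ) := by
    unfold AA
    rw [Finset.mul_sum]
    push_cast
    refine Finset.sum_congr rfl fun s _ => ?_
    rw [← hz s]
    ring
  unfold aa
  rw [hx, Rat.num_intCast]

theorem aa_bd (f : ℤ⟦X⟧) (r κ E n Y : ℕ) (t : Ix r E n → ℤ) {ρ B A : ℝ} (hρ : 0 < ρ)
    (hρ1 : ρ < 1) (hB : 1 ≤ B) (hb : Bd ρ B (F1 f)) (hA : ∀ s, |((t s : ℤ) : ℝ)| ≤ A)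
    (l m j : ℕ) (hl : l ≤ Y) (hm : m ≤ Y) :
    |((aa f r κ E n Y t l m j : ℤ) : ℝ)| ≤ (Z0 f Y : ℝ) ^ (r * E) * ((E ^ r * (n + 1) : ℝ) * A *
      (2 ^ (r * E) * MR ρ ^ (n + κ * (r * E)) * B ^ (r * E) * (ρ⁻¹) ^ (l + m))) := by
  obtain ⟨C, hC⟩ : ∃ C, C = 2 ^ (r * E) * MR ρ ^ (n + κ * (r * E)) * B ^ (r * E) *
    (ρ⁻¹) ^ (l + m) := ⟨_, rfl⟩
  have h1 : ((aa f r κ E n Y t l m j : ℤ) : ℝ) =
      (((aa f r κ E n Y t l m j : ℤ) : ℚ) : ℝ) := (Rat.cast_intCast _).symm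
  have h2 : (((aa f r κ E n Y t l m j : ℤ) : ℚ) : ℝ) = (Z0 f Y : ℝ) ^ (r * E) *
      ∑ s, ((t s : ℤ) : ℝ) * ((BB ℚ r κ E n (F1 f) s l m j : ℚ) : ℝ) := by
    rw [aa_cast f r κ E n Y t l m j hl hm]
    unfold AA
    push_cast
    rfl
  have h3 : |∑ s, ((t s : ℤ) : ℝ) * ((BB ℚ r κ E n (F1 f) s l m j : ℚ) : ℝ)| ≤
      (E ^ r * (n + 1) : ℝ) * A * C := by
    refine (Finset.abs_sum_le_sum_abs _ _).trans ?_
    refine (Finset.sum_le_sum (g := fun _ => A * C) fun s _ => ?_).trans (le_of_eq ?_)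
    · rw [abs_mul, hC]
      exact mul_le_mul (hA s) (BB_bd f r κ E n s hρ hρ1 hB hb l m j) (abs_nonneg _)
        ((abs_nonneg _).trans (hA s))
    · rw [Finset.sum_const, Finset.card_univ, Fintype.card_prod, Fintype.card_fun,
        Fintype.card_fin, Fintype.card_fin, Fintype.card_fin, nsmul_eq_mul]
      push_cast
      ring
  rw [h1, h2, abs_mul, abs_pow, Nat.abs_cast, ← hC]
  exact mul_le_mul_of_nonneg_left h3 (by positivity)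

theorem aa_mod (f : ℤ⟦X⟧) (r κ E n Y : ℕ) (t : Ix r E n → ℤ) (p : ℕ) [Fact p.Prime]
    (g : (ZMod p)⟦X⟧) (hg : IsRed f p g) (l m j : ℕ) (hl : l ≤ Y) (hm : m ≤ Y) :
    ((aa f r κ E n Y t l m j : ℤ) : ZMod p) =
      (Z0 f Y : ZMod p) ^ (r * E) * AA (ZMod p) r κ E n (fun s => (t s : ZMod p)) g l m j := by
  obtain ⟨G, hG1, hG2⟩ := hg
  have hinj : Function.Injective (PadicInt.Coe.ringHom (p := p)) := fun x y h => Subtype.ext h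
  have key : ((aa f r κ E n Y t l m j : ℤ) : ℤ_[p]) =
      (Z0 f Y : ℤ_[p]) ^ (r * E) * AA ℤ_[p] r κ E n (fun s => (t s : ℤ_[p])) G l m j := by
    apply hinj
    have h1 := congrArg (Rat.castHom ℚ_[p]) (aa_cast f r κ E n Y t l m j hl hm)
    rw [map_intCast, map_mul, map_pow, map_natCast, map_AA, ← hG1] at h1
    rw [map_intCast, map_mul, map_pow, map_natCast, map_AA, h1]
    simp only [map_intCast]
  have h3 := congrArg (PadicInt.toZMod (p := p)) key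
  rw [map_intCast, map_mul, map_pow, map_natCast, map_AA, hG2] at h3
  rw [h3]
  simp only [map_intCast]

end Pool.Agent.H6.OR
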