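import Pool.Agent.H6.OR.Bh
import Pool.Agent.H6.OR.Bi
import Pool.Agent.H6.OR.Bj

/-!
# Row Bk (project OR): the output of part B

Let `M = 2 s κ r ℓ`, `Y = s ℓ^r (n + κ r ℓ)`.  From `hcount`: `P M ≤ ℓ^r (n+1) ≤ Y` (`κ r ℓ ≥ 1`, `s ≥ 1`) and
`M ≤ P M ≤ Y`.  Take `t` from `siegel_prim` (`E = ℓ`), `a l m j := aa f r κ ℓ n Y t l m j`.
* `h.form ℓ` gives the reduction `g` of `F1 f` mod `ℓ`; `t mod ℓ ≠ 0` (primitive), so `h.ze` gives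
  `l0 ≤ s ℓ^r (n + κ (r ℓ)) = Y` with `coeff l0 (PP t̄ g) ≠ 0`.  `constantCoeff g = 0` (coefficient `0` of `F1 f`
  is `0`; the lift has coefficient `0` by injectivity of `ℤ_[ℓ] → ℚ_[ℓ]`).  So `AA (ZMod ℓ) l0 0 0 ≠ 0`
  (`AA_zero_zero`), hence `AA ℚ l0 0 0 ≠ 0` (`AA_red`, contrapositive), so `a l0 0 0 ≠ 0` (`aa_cast`,
  `Z0_pos`).  `a l0 0 j = 0` for `j ≥ 1` (`AA_zero_pos`).
* bound: `|t_s| ≤ N Z^(rℓ) Q` with `Q` as in the statement (`P M + M ≤ Y + M ≤ Y + M + M1`, `ρ⁻¹ ≥ 1`) and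
  `aa_bd` (`l + m ≤ Y + M1`): `|a| ≤ Z^(rℓ) (N (N Z^(rℓ) Q) Q) = N² (Z^(rℓ))² Q²`.
* lines: `lines_mod`, multiplied by `Z0^(rℓ)` and `aa_mod` (`u - p m ≤ u ≤ Y`, `m ≤ u / p ≤ Y`).
-/

open PowerSeries

namespace Pool.Agent.H6.OR

open Pool.Agent.H85.OT

theorem Bk_red0 (f : ℤ⟦X⟧) (p : ℕ) [Fact p.Prime] (g : (ZMod p)⟦X⟧) (hg : IsRed f p g) :
    PowerSeries.constantCoeff g = 0 := by
  obtain ⟨G, h1, h2⟩ := hg
  have h3 : PowerSeries.coeff 0 G = 0 := by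
    have h4 := congrArg (PowerSeries.coeff 0) h1
    rw [PowerSeries.coeff_map, PowerSeries.coeff_map, F1, PowerSeries.coeff_mk, Nat.cast_zero, div_zero,
      map_zero] at h4
    exact PadicInt.coe_eq_zero.1 h4
  rw [← h2, ← PowerSeries.coeff_zero_eq_constantCoeff_apply, PowerSeries.coeff_map, h3, map_zero]

theorem Bk_F10 (f : ℤ⟦X⟧) : PowerSeries.constantCoeff (F1 f) = 0 := by
  rw [← PowerSeries.coeff_zero_eq_constantCoeff_apply, F1, PowerSeries.coeff_mk, Nat.cast_zero, div_zero]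

theorem Bk_MR {ρ : ℝ} (hρ : 0 < ρ) (hρ1 : ρ < 1) : 1 ≤ MR ρ := by
  unfold MR
  have h1 : 0 < (1 - ρ) ^ 2 := by
    have : 0 < 1 - ρ := by linarith
    positivity
  rw [le_div_iff₀ h1]
  nlinarith

theorem core_data (f : ℤ⟦X⟧) (κ r s p0 : ℕ) (h : OrdData f κ r s p0) (ℓ : ℕ) [hl : Fact ℓ.Prime]
    (hℓ : p0 < ℓ) (hO : ¬ Ord0 f ℓ) (hS : ¬ Sl2 f ℓ) (n P Y M M1 : ℕ) (hP : 1 ≤ P)
    (hM : M = 2 * s * κ * (r * ℓ)) (hY : Y = s * ℓ ^ r * (n + κ * (r * ℓ)))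
    (hcount : 2 * (P * M * M * (r * ℓ + 1)) ≤ ℓ ^ r * (n + 1)) (hM1 : M1 ≤ Y)
    {ρ B : ℝ} (hρ : 0 < ρ) (hρ1 : ρ < 1) (hB : 1 ≤ B) (hb : Bd ρ B (F1 f)) :
    ∃ (a : ℕ → ℕ → ℕ → ℤ) (l0 : ℕ), l0 ≤ Y ∧ a l0 0 0 ≠ 0 ∧ (∀ j, 1 ≤ j → a l0 0 j = 0) ∧
      (∀ l ≤ Y, ∀ m ≤ M1, ∀ j, |((a l m j : ℤ) : ℝ)| ≤
        (ℓ ^ r * (n + 1) : ℝ) ^ 2 * ((Z0 f Y : ℝ) ^ (r * ℓ)) ^ 2 *
          (2 ^ (r * ℓ) * MR ρ ^ (n + κ * (r * ℓ)) * B ^ (r * ℓ) * (ρ⁻¹) ^ (Y + M + M1)) ^ 2) ∧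
      ∀ p : ℕ, p.Prime → p0 < p → ¬ Ord0 f p → p ≤ P → n < κ * p * (r * ℓ) →
        ∃ c : ZMod p, ∀ u ≤ Y, ∑ m ∈ Finset.range (u / p + 1), ∑ j ∈ Finset.range (r * ℓ + 1),
          c ^ j * ((a (u - p * m) m j : ℤ) : ZMod p) = 0 := by
  have hℓ2 : 2 ≤ ℓ := hl.out.two_le
  have hκrℓ : 1 ≤ κ * (r * ℓ) := Nat.one_le_iff_ne_zero.2 (by
    have h1 := h.kpos
    have h2 := h.rpos
    positivity)
  have hM1' : 1 ≤ M := by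
    rw [hM]
    have h1 := h.kpos
    have h2 := h.rpos
    have h3 := h.spos
    exact Nat.one_le_iff_ne_zero.2 (by positivity)
  have hPM : P * M ≤ Y := by
    have h1 : P * M ≤ 2 * (P * M * M * (r * ℓ + 1)) := by
      have h2 : P * M * 1 ≤ P * M * (2 * M * (r * ℓ + 1)) :=
        Nat.mul_le_mul_left _ (Nat.one_le_iff_ne_zero.2 (by positivity))
      calc P * M = P * M * 1 := (mul_one _).symm
        _ ≤ _ := h2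
        _ = _ := by ring
    have h3 : ℓ ^ r * (n + 1) ≤ Y := by
      rw [hY]
      calc ℓ ^ r * (n + 1) ≤ ℓ ^ r * (n + κ * (r * ℓ)) :=
            Nat.mul_le_mul_left _ (Nat.add_le_add_left hκrℓ n)
        _ = 1 * (ℓ ^ r * (n + κ * (r * ℓ))) := (one_mul _).symm
        _ ≤ s * (ℓ ^ r * (n + κ * (r * ℓ))) := Nat.mul_le_mul_right _ h.spos
        _ = _ := by ring
    exact h1.trans (hcount.trans h3)
  have hMY : M ≤ Y := by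
    refine le_trans ?_ hPM
    calc M = 1 * M := (one_mul _).symm
      _ ≤ P * M := Nat.mul_le_mul_right _ hP
  obtain ⟨t, htp, htv, htb⟩ := siegel_prim f r κ ℓ n Y P M hP hM1' hcount hPM hMY hρ hρ1 hB hb
  obtain ⟨g, c, hg, -⟩ := h.form ℓ hℓ hO
  have htne : (fun s => ((t s : ℤ) : ZMod ℓ)) ≠ 0 := by
    intro h0
    obtain ⟨s0, hs0⟩ := htp ℓ hl.out
    have h1 := congrFun h0 s0
    exact hs0 ((ZMod.intCast_zmod_eq_zero_iff_dvd _ _).1 h1)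
  obtain ⟨l0, hl0, hc⟩ := h.ze ℓ hℓ hO hS g hg n _ htne
  rw [← hY] at hl0
  have hZ : (Z0 f Y : ℚ) ^ (r * ℓ) ≠ 0 := pow_ne_zero _ (Nat.cast_ne_zero.2 (Z0_pos f Y).ne')
  have hZ1 : (1 : ℝ) ≤ (Z0 f Y : ℝ) := by exact_mod_cast Z0_pos f Y
  refine ⟨aa f r κ ℓ n Y t, l0, hl0, ?_, ?_, ?_, ?_⟩
  · intro h0
    have h1 := aa_cast f r κ ℓ n Y t l0 0 0 hl0 (Nat.zero_le _)
    rw [h0, Int.cast_zero] at h1
    have h2 := (mul_eq_zero.1 h1.symm).resolve_left hZ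
    have h3 := AA_red f ℓ g hg r κ ℓ n t l0 0 0 h2
    rw [AA_zero_zero r κ ℓ n _ g (Bk_red0 f ℓ g hg)] at h3
    exact hc h3
  · intro j hj
    have h1 := aa_cast f r κ ℓ n Y t l0 0 j hl0 (Nat.zero_le _)
    rw [AA_zero_pos r κ ℓ n _ _ (Bk_F10 f) l0 j hj, mul_zero] at h1
    exact_mod_cast h1
  · intro l hlY m hmM j
    have h1 := aa_bd f r κ ℓ n Y t hρ hρ1 hB hb htb l m j hlY (hmM.trans hM1)
    refine h1.trans ?_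
    have hρi : 1 ≤ ρ⁻¹ := (one_le_inv₀ hρ).2 hρ1.le
    have hMR := Bk_MR hρ hρ1
    have hN : (0 : ℝ) ≤ (ℓ : ℝ) ^ r * ((n : ℝ) + 1) := by positivity
    set N : ℝ := (ℓ : ℝ) ^ r * ((n : ℝ) + 1) with hNd
    set Z : ℝ := (Z0 f Y : ℝ) ^ (r * ℓ) with hZd
    have hZ0 : 0 ≤ Z := by positivity
    set Q : ℝ := 2 ^ (r * ℓ) * MR ρ ^ (n + κ * (r * ℓ)) * B ^ (r * ℓ) with hQd
    have hQ0 : 0 ≤ Q := by
      have : 0 ≤ MR ρ := by linarith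
      have : 0 ≤ B := by linarith
      positivity
    have e1 : (ρ⁻¹) ^ (P * M + M) ≤ (ρ⁻¹) ^ (Y + M + M1) := pow_le_pow_right₀ hρi (by omega)
    have e2 : (ρ⁻¹) ^ (l + m) ≤ (ρ⁻¹) ^ (Y + M + M1) := pow_le_pow_right₀ hρi (by omega)
    have e3 : 0 ≤ (ρ⁻¹) ^ (P * M + M) := by positivity
    have e4 : 0 ≤ (ρ⁻¹) ^ (Y + M + M1) := by positivity
    have e5 : 0 ≤ (ρ⁻¹) ^ (l + m) := by positivity
    calc Z * (N * (N * (Z * (Q * (ρ⁻¹) ^ (P * M + M)))) * (Q * (ρ⁻¹) ^ (l + m)))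
        = N ^ 2 * Z ^ 2 * (Q ^ 2 * ((ρ⁻¹) ^ (P * M + M) * (ρ⁻¹) ^ (l + m))) := by ring
      _ ≤ N ^ 2 * Z ^ 2 * (Q ^ 2 * ((ρ⁻¹) ^ (Y + M + M1) * (ρ⁻¹) ^ (Y + M + M1))) := by
          refine mul_le_mul_of_nonneg_left (mul_le_mul_of_nonneg_left ?_ (by positivity)) (by positivity)
          exact mul_le_mul e1 e2 e5 e4
      _ = N ^ 2 * Z ^ 2 * (Q * (ρ⁻¹) ^ (Y + M + M1)) ^ 2 := by ring
  · intro p hp hp0 hOp hpP hn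
    have : Fact p.Prime := ⟨hp⟩
    have hvan : ∀ l < P * (2 * s * κ * (r * ℓ)), ∀ m < 2 * s * κ * (r * ℓ), ∀ j,
        AA ℚ r κ ℓ n (fun s => (t s : ℚ)) (F1 f) l m j = 0 := by
      rw [← hM]
      exact htv
    obtain ⟨g', c', hg', hline⟩ := lines_mod f κ r s p0 h ℓ n P t hvan p hp0 hOp hpP hn
    refine ⟨c', fun u hu => ?_⟩
    have h1 : ∀ m ∈ Finset.range (u / p + 1), ∑ j ∈ Finset.range (r * ℓ + 1),
        c' ^ j * ((aa f r κ ℓ n Y t (u - p * m) m j : ℤ) : ZMod p) =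
        (Z0 f Y : ZMod p) ^ (r * ℓ) * ∑ j ∈ Finset.range (r * ℓ + 1),
          c' ^ j * AA (ZMod p) r κ ℓ n (fun s => (t s : ZMod p)) g' (u - p * m) m j := by
      intro m hm
      have hm' : m ≤ u / p := Nat.lt_succ_iff.1 (Finset.mem_range.1 hm)
      rw [Finset.mul_sum]
      refine Finset.sum_congr rfl fun j _ => ?_
      rw [aa_mod f r κ ℓ n Y t p g' hg' (u - p * m) m j ((Nat.sub_le _ _).trans hu)
        (hm'.trans ((Nat.div_le_self _ _).trans hu))]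
      ring
    rw [Finset.sum_congr rfl h1, ← Finset.mul_sum, hline u, mul_zero]

end Pool.Agent.H6.OR
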