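import Mathlib

/-!
# Definitions for part C of the project OR (elimination)

Vectors `v g ∈ ℤ^d`, `g = (l, m) ∈ ℕ × ℕ`; `wp p (l, m) = l + p m`.
* `vq v g` : the vector over `ℚ`;
* `Cand v Y M1` : the `g = (l, m)`, `l ≤ Y`, `m ≤ M1`, with `v g` not in the `ℚ`-span of the `v (l', m)`, `l' < l`;
* `Grd v C p` : the `g ∈ C` with `v g` not in the span of the `v g'`, `g' ∈ C`, `wp p g' < wp p g`;
* `NoTie C p` : `wp p` is injective on `C`;
* `Nc C p` : number of pairs `(g, g')` of `C` with `m < m'` and `wp p g < wp p g'`;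
* `CramerFor v G Δ` : vectors in the span of a part of `G` are, after multiplication by `Δ`, integral
  combinations.
-/

namespace Pool.Agent.H6.OR

/-- `l + p m` -/
def wp (p : ℕ) (g : ℕ × ℕ) : ℕ := g.1 + p * g.2

/-- the vector over `ℚ` -/
def vq {d : ℕ} (v : ℕ × ℕ → Fin d → ℤ) (g : ℕ × ℕ) : Fin d → ℚ := fun j => (v g j : ℚ)

open Classical in
/-- the candidates -/
noncomputable def Cand {d : ℕ} (v : ℕ × ℕ → Fin d → ℤ) (Y M1 : ℕ) : Finset (ℕ × ℕ) :=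
  (Finset.range (Y + 1) ×ˢ Finset.range (M1 + 1)).filter fun g =>
    vq v g ∉ Submodule.span ℚ (vq v '' {g' | g'.2 = g.2 ∧ g'.1 < g.1})

open Classical in
/-- the greedy set for the weight `wp p` -/
noncomputable def Grd {d : ℕ} (v : ℕ × ℕ → Fin d → ℤ) (C : Finset (ℕ × ℕ)) (p : ℕ) :
    Finset (ℕ × ℕ) :=
  C.filter fun g => vq v g ∉ Submodule.span ℚ (vq v '' {g' | g' ∈ C ∧ wp p g' < wp p g})

/-- the weights are distinct on `C` -/
def NoTie (C : Finset (ℕ × ℕ)) (p : ℕ) : Prop :=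
  ∀ g ∈ C, ∀ g' ∈ C, wp p g = wp p g' → g = g'

/-- number of pairs with `m < m'` and smaller weight -/
def Nc (C : Finset (ℕ × ℕ)) (p : ℕ) : ℕ :=
  ((C ×ˢ C).filter fun x => x.1.2 < x.2.2 ∧ wp p x.1 < wp p x.2).card

/-- integrality after multiplication by `Δ` -/
def CramerFor {d : ℕ} (v : ℕ × ℕ → Fin d → ℤ) (G : Finset (ℕ × ℕ)) (Δ : ℤ) : Prop :=
  ∀ (u : Fin d → ℤ) (S : Set (ℕ × ℕ)),
    (fun j => (u j : ℚ)) ∈ Submodule.span ℚ (vq v '' {g | g ∈ G ∧ g ∈ S}) →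
    ∃ x : ℕ × ℕ → ℤ, (∀ g ∈ G, g ∉ S → x g = 0) ∧ ∀ j, Δ * u j = ∑ g ∈ G, x g * v g j

end Pool.Agent.H6.OR
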