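import Mathlib

/-!
# Row Ca (project OR): Gram determinant and Cramer's rule

`v_i ∈ ℤ^d` (`i ∈ ι` finite), linearly independent over `ℚ`; `A_(i,i') = ∑_j v_i(j) v_(i')(j)` (Gram matrix, integral),
`Δ = det A`.
* `Δ ≠ 0`: otherwise (over `ℚ`, `Matrix.exists_mulVec_eq_zero_iff`) there is `y ≠ 0`, `A y = 0`, so
  `∑_j (∑_i y_i v_i(j))² = yᵀ A y = 0`, so `∑ y_i v_i = 0`, contradiction.
* `|Δ| ≤ (d B)^(2d)` if all entries are `≤ B`, `B ≥ 1`: `|A_(i,i')| ≤ d B²`, `Matrix.det_le` gives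
  `|Δ| ≤ k! (d B²)^k`, `k = card ι ≤ d` (independence in `ℚ^d`, `LinearIndependent.fintype_card_le_finrank`),
  `k! ≤ k^k ≤ d^k`, so `|Δ| ≤ (d² B²)^k ≤ (d B)^(2d)` as `d B ≥ 1` (if `d = 0` then `ι` is empty and `Δ = 1`).
* Cramer: let `u = ∑_(i ∈ S) y_i v_i`, `y_i ∈ ℚ`, `y_i = 0` for `i ∉ S` (`Submodule.mem_span_image_iff_exists_fun` or
  `Finsupp.mem_span_image_iff_linearCombination`).  Then `b_(i') := ∑_j v_(i')(j) u(j) = (A y)_(i')` is an integer, and
  `Δ y = adj(A) (A y) = adj(A) b` (`Matrix.adjugate_mul`), integral: `x_i := (adj(A) b)_i` with `A`, `b` over `ℤ`.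
  `x_i = Δ y_i`, so `x_i = 0` for `i ∉ S`, and `Δ u = ∑ x_i v_i` (cast to `ℚ` is injective).
-/

namespace Pool.Agent.H6.OR

theorem gram {ι : Type*} [Fintype ι] [DecidableEq ι] {d : ℕ} (v : ι → Fin d → ℤ)
    (hv : LinearIndependent ℚ (fun i => (fun j => (v i j : ℚ) : Fin d → ℚ))) :
    ∃ Δ : ℤ, Δ ≠ 0 ∧
      (∀ B : ℝ, 1 ≤ B → (∀ i j, |((v i j : ℤ) : ℝ)| ≤ B) → |(Δ : ℝ)| ≤ (d * B) ^ (2 * d)) ∧
      ∀ (u : Fin d → ℤ) (S : Set ι),
        (fun j => (u j : ℚ)) ∈
          Submodule.span ℚ ((fun i => (fun j => (v i j : ℚ) : Fin d → ℚ)) '' S) →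
        ∃ x : ι → ℤ, (∀ i, i ∉ S → x i = 0) ∧ ∀ j, Δ * u j = ∑ i, x i * v i j := by
  classical
  set A : Matrix ι ι ℤ := Matrix.of fun i i' => ∑ j, v i j * v i' j with hA
  set AQ : Matrix ι ι ℚ := (Int.castRingHom ℚ).mapMatrix A with hAQ
  have hAQe : ∀ i i', AQ i i' = ∑ j, (v i j : ℚ) * (v i' j : ℚ) := by
    intro i i'
    rw [hAQ, RingHom.mapMatrix_apply, Matrix.map_apply, hA, Matrix.of_apply]
    simp
  have hdet : AQ.det = ((A.det : ℤ) : ℚ) := by
    rw [hAQ, ← RingHom.map_det]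
    rfl
  refine ⟨A.det, ?_, ?_, ?_⟩
  · intro h0
    have h1 : AQ.det = 0 := by rw [hdet, h0]; simp
    obtain ⟨y, hy0, hy⟩ := Matrix.exists_mulVec_eq_zero_iff.2 h1
    apply hy0
    have hq : ∑ j, (∑ i, y i * (v i j : ℚ)) ^ 2 = 0 := by
      have e1 : ∑ j, (∑ i, y i * (v i j : ℚ)) ^ 2 = ∑ i, y i * (AQ.mulVec y) i := by
        have e2 : ∀ i, y i * (AQ.mulVec y) i = ∑ j, ∑ i', (y i * (v i j : ℚ)) * (y i' * (v i' j : ℚ)) := by
          intro i
          rw [Matrix.mulVec, dotProduct, Finset.mul_sum, Finset.sum_comm]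
          refine Finset.sum_congr rfl fun i' _ => ?_
          rw [hAQe, Finset.sum_mul, Finset.mul_sum]
          refine Finset.sum_congr rfl fun j _ => ?_
          ring
        rw [Finset.sum_congr rfl fun i _ => e2 i, Finset.sum_comm]
        refine Finset.sum_congr rfl fun j _ => ?_
        rw [sq, Finset.sum_mul_sum]
      rw [e1, hy]
      simp
    have hz : ∀ j, ∑ i, y i * (v i j : ℚ) = 0 := by
      intro j
      have := (Finset.sum_eq_zero_iff_of_nonneg (fun j _ => sq_nonneg _)).1 hq j (Finset.mem_univ j)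
      exact pow_eq_zero_iff (two_ne_zero) |>.1 this
    have hli := Fintype.linearIndependent_iff.1 hv y (by
      funext j
      rw [Finset.sum_apply]
      simpa using hz j)
    funext i
    exact hli i
  · intro B hB hb
    have hk : Fintype.card ι ≤ d := by
      have := hv.fintype_card_le_finrank
      simpa using this
    set AR : Matrix ι ι ℝ := (Int.castRingHom ℝ).mapMatrix A with hAR
    have hdR : AR.det = ((A.det : ℤ) : ℝ) := by
      rw [hAR, ← RingHom.map_det]
      rfl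
    have hent : ∀ i i', (AbsoluteValue.abs : AbsoluteValue ℝ ℝ) (AR i i') ≤ d * B ^ 2 := by
      intro i i'
      have e : AR i i' = ∑ j, ((v i j : ℤ) : ℝ) * ((v i' j : ℤ) : ℝ) := by
        rw [hAR, RingHom.mapMatrix_apply, Matrix.map_apply, hA, Matrix.of_apply]
        simp
      show |AR i i'| ≤ _
      rw [e]
      refine (Finset.abs_sum_le_sum_abs _ _).trans ?_
      have hh : ∀ j ∈ (Finset.univ : Finset (Fin d)), |((v i j : ℤ) : ℝ) * ((v i' j : ℤ) : ℝ)| ≤ B ^ 2 := by
        intro j _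
        rw [abs_mul, sq]
        exact mul_le_mul (hb i j) (hb i' j) (abs_nonneg _) (by linarith)
      refine (Finset.sum_le_card_nsmul _ _ _ hh).trans (le_of_eq ?_)
      simp
    have hle := Matrix.det_le hent
    have h1 : |((A.det : ℤ) : ℝ)| ≤ (Nat.factorial (Fintype.card ι) : ℝ) * (d * B ^ 2) ^ Fintype.card ι := by
      have h2 : (AbsoluteValue.abs : AbsoluteValue ℝ ℝ) AR.det = |((A.det : ℤ) : ℝ)| := by
        rw [hdR]; rfl
      rw [h2, nsmul_eq_mul] at hle
      exact hle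
    refine h1.trans ?_
    rcases Nat.eq_zero_or_pos d with h0 | hd
    · have hk0 : Fintype.card ι = 0 := by omega
      rw [hk0, h0]
      simp
    · have hd1 : (1 : ℝ) ≤ d := by exact_mod_cast hd
      have hf : (Nat.factorial (Fintype.card ι) : ℝ) ≤ (d : ℝ) ^ Fintype.card ι := by
        have h3 : Nat.factorial (Fintype.card ι) ≤ d ^ Fintype.card ι :=
          (Nat.factorial_le_pow _).trans (Nat.pow_le_pow_left hk _)
        exact_mod_cast h3
      have hdB : 1 ≤ (d : ℝ) * B := by nlinarith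
      calc (Nat.factorial (Fintype.card ι) : ℝ) * (d * B ^ 2) ^ Fintype.card ι
          ≤ (d : ℝ) ^ Fintype.card ι * (d * B ^ 2) ^ Fintype.card ι :=
            mul_le_mul_of_nonneg_right hf (by positivity)
        _ = (d * B) ^ (2 * Fintype.card ι) := by rw [← mul_pow, pow_mul]; congr 1; ring
        _ ≤ (d * B) ^ (2 * d) := pow_le_pow_right₀ hdB (by omega)
  · intro u S hu
    obtain ⟨l, hl, hlu⟩ := (Finsupp.mem_span_image_iff_linearCombination ℚ).1 hu
    have hl0 : ∀ i, i ∉ S → l i = 0 := (Finsupp.mem_supported' ℚ l).1 hl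
    have huj : ∀ j, ∑ i, l i * (v i j : ℚ) = (u j : ℚ) := by
      intro j
      have h1 := congrFun hlu j
      rw [Finsupp.linearCombination_apply, Finsupp.sum_fintype _ _ (by intro i; simp)] at h1
      rw [← h1, Finset.sum_apply]
      simp
    set b : ι → ℤ := fun i' => ∑ j, v i' j * u j with hb
    set bQ : ι → ℚ := fun i => (b i : ℚ) with hbQ
    have hbe : bQ = AQ.mulVec (fun i => l i) := by
      funext i'
      rw [hbQ, hb, Matrix.mulVec, dotProduct]
      push_cast
      have e1 : ∀ j, (v i' j : ℚ) * (u j : ℚ) = ∑ i, (v i' j : ℚ) * (l i * (v i j : ℚ)) := by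
        intro j
        rw [← huj j, Finset.mul_sum]
      rw [Finset.sum_congr rfl fun j _ => e1 j, Finset.sum_comm]
      refine Finset.sum_congr rfl fun i _ => ?_
      rw [hAQe, Finset.sum_mul]
      refine Finset.sum_congr rfl fun j _ => ?_
      ring
    have hxQ : ∀ i, ((A.adjugate.mulVec b i : ℤ) : ℚ) = ((A.det : ℤ) : ℚ) * l i := by
      intro i
      have e1 : ((A.adjugate.mulVec b i : ℤ) : ℚ) = (AQ.adjugate.mulVec bQ) i := by
        have h2 : AQ.adjugate = (Int.castRingHom ℚ).mapMatrix A.adjugate := by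
          rw [hAQ, ← RingHom.map_adjugate]
        rw [h2, Matrix.mulVec, Matrix.mulVec, dotProduct, dotProduct]
        push_cast
        refine Finset.sum_congr rfl fun i' _ => ?_
        rw [RingHom.mapMatrix_apply, Matrix.map_apply]
        rfl
      rw [e1, hbe, Matrix.mulVec_mulVec, Matrix.adjugate_mul, hdet, Matrix.smul_mulVec, Matrix.one_mulVec]
      rfl
    refine ⟨A.adjugate.mulVec b, ?_, ?_⟩
    · intro i hi
      have := hxQ i
      rw [hl0 i hi, mul_zero] at this
      exact_mod_cast this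
    · intro j
      have : ((A.det * u j : ℤ) : ℚ) = ((∑ i, A.adjugate.mulVec b i * v i j : ℤ) : ℚ) := by
        rw [Int.cast_mul, Int.cast_sum, ← huj j, Finset.mul_sum]
        refine Finset.sum_congr rfl fun i _ => ?_
        rw [Int.cast_mul, hxQ i]
        ring
      exact_mod_cast this

end Pool.Agent.H6.OR
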