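import Pool.Agent.H6.OR.CDefs

/-!
# Row Cb (project OR): the greedy set

* `grd_indep`: if `wp p` is injective on `C`, the vectors of `Grd v C p` are linearly independent: in a relation
  `∑_(g ∈ G) y_g v_g = 0` with some `y_g ≠ 0` let `g` be of maximal weight with `y_g ≠ 0`
  (`Finset.exists_max_image`); all other `g'` with `y_(g') ≠ 0` have smaller weight (`NoTie`) and lie in `C`, so
  `v g` is in the span of the `v g'`, `g' ∈ C`, of smaller weight, against `g ∈ Grd`.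
* `grd_span`, for every `g = (l, m)`, `l ≤ Y`, `m ≤ M1`, `C = Cand v Y M1`, `G = Grd v C p`:
  `v g ∈ span {v g' : g' ∈ G, wp g' ≤ wp g}`, and `< ` instead of `≤` if `g ∉ G`.  Strong induction on `wp p g`.
  - `g ∉ C`: `v g ∈ span {v (l', m) : l' < l}` and `wp p (l', m) < wp p g`: apply the induction hypothesis (`≤`)
    to each `(l', m)` (`Submodule.span_le`, `Submodule.span_mono`).
  - `g ∈ C`, `g ∉ G`: `v g ∈ span {v g' : g' ∈ C, wp g' < wp g}`; induction hypothesis.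
  - `g ∈ G`: `v g` itself (`Submodule.subset_span`).
-/

namespace Pool.Agent.H6.OR

theorem Cb_mem_Cand {d : ℕ} {v : ℕ × ℕ → Fin d → ℤ} {Y M1 : ℕ} {g : ℕ × ℕ} :
    g ∈ Cand v Y M1 ↔ (g.1 ≤ Y ∧ g.2 ≤ M1) ∧
      vq v g ∉ Submodule.span ℚ (vq v '' {g' | g'.2 = g.2 ∧ g'.1 < g.1}) := by
  classical
  rw [Cand, Finset.mem_filter, Finset.mem_product, Finset.mem_range, Finset.mem_range,
    Nat.lt_succ_iff, Nat.lt_succ_iff]

theorem Cb_mem_Grd {d : ℕ} {v : ℕ × ℕ → Fin d → ℤ} {C : Finset (ℕ × ℕ)} {p : ℕ} {g : ℕ × ℕ} :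
    g ∈ Grd v C p ↔ g ∈ C ∧
      vq v g ∉ Submodule.span ℚ (vq v '' {g' | g' ∈ C ∧ wp p g' < wp p g}) := by
  classical
  rw [Grd, Finset.mem_filter]

theorem Cb_main {d : ℕ} (v : ℕ × ℕ → Fin d → ℤ) (Y M1 p : ℕ) : ∀ n : ℕ, ∀ g : ℕ × ℕ, wp p g = n →
    g.1 ≤ Y → g.2 ≤ M1 →
      (vq v g ∈ Submodule.span ℚ
        (vq v '' {g' | g' ∈ Grd v (Cand v Y M1) p ∧ wp p g' ≤ wp p g})) ∧
      (g ∉ Grd v (Cand v Y M1) p → vq v g ∈ Submodule.span ℚ
        (vq v '' {g' | g' ∈ Grd v (Cand v Y M1) p ∧ wp p g' < wp p g})) := by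
  intro n
  induction n using Nat.strong_induction_on with
  | _ n ih =>
    intro g hn h1 h2
    have hstep : ∀ S : Set (ℕ × ℕ), (∀ g' ∈ S, wp p g' < wp p g ∧ g'.1 ≤ Y ∧ g'.2 ≤ M1) →
        vq v g ∈ Submodule.span ℚ (vq v '' S) →
        vq v g ∈ Submodule.span ℚ
          (vq v '' {g' | g' ∈ Grd v (Cand v Y M1) p ∧ wp p g' < wp p g}) := by
      intro S hS hmem
      refine (Submodule.span_le.2 ?_) hmem
      rintro _ ⟨g', hg', rfl⟩
      obtain ⟨h3, h4, h5⟩ := hS g' hg'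
      have h6 := (ih (wp p g') (by omega) g' rfl h4 h5).1
      refine (Submodule.span_mono ?_) h6
      rintro _ ⟨g'', hg'', rfl⟩
      exact ⟨g'', ⟨hg''.1, lt_of_le_of_lt hg''.2 h3⟩, rfl⟩
    have hle : vq v g ∈ Submodule.span ℚ
          (vq v '' {g' | g' ∈ Grd v (Cand v Y M1) p ∧ wp p g' < wp p g}) →
        vq v g ∈ Submodule.span ℚ
          (vq v '' {g' | g' ∈ Grd v (Cand v Y M1) p ∧ wp p g' ≤ wp p g}) := by
      refine fun h => (Submodule.span_mono ?_) h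
      rintro _ ⟨g'', hg'', rfl⟩
      exact ⟨g'', ⟨hg''.1, hg''.2.le⟩, rfl⟩
    by_cases hG : g ∈ Grd v (Cand v Y M1) p
    · exact ⟨Submodule.subset_span ⟨g, ⟨hG, le_rfl⟩, rfl⟩, fun h => absurd hG h⟩
    · have hb : vq v g ∈ Submodule.span ℚ
          (vq v '' {g' | g' ∈ Grd v (Cand v Y M1) p ∧ wp p g' < wp p g}) := by
        by_cases hC : g ∈ Cand v Y M1
        · rw [Cb_mem_Grd] at hG
          push Not at hG
          refine hstep {g' | g' ∈ Cand v Y M1 ∧ wp p g' < wp p g} ?_ (hG hC)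
          rintro g' ⟨h3, h4⟩
          rw [Cb_mem_Cand] at h3
          exact ⟨h4, h3.1.1, h3.1.2⟩
        · rw [Cb_mem_Cand] at hC
          push Not at hC
          refine hstep {g' | g'.2 = g.2 ∧ g'.1 < g.1} ?_ (hC ⟨h1, h2⟩)
          rintro g' ⟨h3, h4⟩
          refine ⟨?_, by omega, by omega⟩
          unfold wp
          rw [h3]
          omega
      exact ⟨hle hb, fun _ => hb⟩

theorem grd_indep {d : ℕ} (v : ℕ × ℕ → Fin d → ℤ) (C : Finset (ℕ × ℕ)) (p : ℕ)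
    (h : NoTie C p) :
    LinearIndependent ℚ (fun g : {g // g ∈ Grd v C p} => vq v g.1) := by
  classical
  rw [linearIndependent_iff']
  intro s y hy
  by_contra hcon
  push Not at hcon
  obtain ⟨i, his, hiy⟩ := hcon
  obtain ⟨i0, hi0, hmax⟩ := Finset.exists_max_image (s.filter fun i => y i ≠ 0) (fun i => wp p i.1)
    ⟨i, Finset.mem_filter.2 ⟨his, hiy⟩⟩
  rw [Finset.mem_filter] at hi0
  have h1 := (Cb_mem_Grd.1 i0.2).2
  apply h1
  have hC : ∀ j : {g // g ∈ Grd v C p}, j.1 ∈ C := fun j => (Cb_mem_Grd.1 j.2).1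
  rw [← Finset.add_sum_erase s _ hi0.1] at hy
  have h2 : y i0 • vq v i0.1 = -∑ j ∈ s.erase i0, y j • vq v j.1 := eq_neg_of_add_eq_zero_left hy
  rw [← Submodule.smul_mem_iff _ hi0.2, h2]
  refine Submodule.neg_mem _ (Submodule.sum_mem _ fun j hj => ?_)
  rw [Finset.mem_erase] at hj
  by_cases hyj : y j = 0
  · rw [hyj, zero_smul]
    exact Submodule.zero_mem _
  · refine Submodule.smul_mem _ _ (Submodule.subset_span ⟨j.1, ⟨hC j, ?_⟩, rfl⟩)
    have h3 := hmax j (Finset.mem_filter.2 ⟨hj.2, hyj⟩)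
    refine lt_of_le_of_ne h3 fun h4 => hj.1 ?_
    exact Subtype.ext (h j.1 (hC j) i0.1 (hC i0) h4)

theorem grd_span' {d : ℕ} (v : ℕ × ℕ → Fin d → ℤ) (Y M1 p : ℕ) (g : ℕ × ℕ) (h1 : g.1 ≤ Y)
    (h2 : g.2 ≤ M1) (hg : g ∉ Grd v (Cand v Y M1) p) :
    vq v g ∈ Submodule.span ℚ
      (vq v '' {g' | g' ∈ Grd v (Cand v Y M1) p ∧ wp p g' < wp p g}) := by
  exact (Cb_main v Y M1 p _ g rfl h1 h2).2 hg

end Pool.Agent.H6.OR
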