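import Pool.Agent.H6.OR.CDefs

/-!
# Row Cc (project OR): counting candidates, ties, orders

* `card_Cand`: for each `m` the `l` with `(l, m) ∈ Cand` give vectors `v (l, m)` each of which is not in the span
  of those with smaller `l`: they are linearly independent in `ℚ^d` (maximal `l` in a relation), so there are
  at most `d`.  Sum over `m ≤ M1` (`Finset.card_le_mul_card_image` or `Finset.card_eq_sum_card_fiberwise`).
* `ties_card`: for `p ∈ T` choose `g ≠ g'` in `C` with `g.1 + p g.2 = g'.1 + p g'.2`; then `g.2 ≠ g'.2`, and `p` is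
  determined by `(g, g')`; injection `T → C × C` (`Finset.card_le_card_of_injOn`).
* `Nc_le`: a subset of `C ×ˢ C`.
* `Nc_eq`: let `p ≤ q` (wlog).  The set of pairs for `p` is contained in that for `q`: `m < m'` and `l + p m < l' + p m'`
  imply `l + q m < l' + q m'`.  Equal cardinality gives equal sets (`Finset.eq_of_subset_of_card_le`).  For
  `g, g' ∈ C`: if `m = m'` both inequalities say `l < l'`; if `m < m'` equality of the sets; if `m > m'` use the
  pair `(g', g)` and `NoTie` (`wp p g < wp p g'` iff not `wp p g' < wp p g`, as `g ≠ g'`).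
* `Grd_congr`: the filters agree.
-/

namespace Pool.Agent.H6.OR

theorem Cc_fib {d : ℕ} (v : ℕ × ℕ → Fin d → ℤ) (Y M1 m : ℕ) (N : ℕ) :
    ((Cand v Y M1).filter fun g => g.2 = m ∧ g.1 < N).card ≤
      Module.finrank ℚ (Submodule.span ℚ (vq v '' {g' | g'.2 = m ∧ g'.1 < N})) := by
  classical
  induction N with
  | zero =>
    have : ((Cand v Y M1).filter fun g => g.2 = m ∧ g.1 < 0) = ∅ := by
      apply Finset.filter_eq_empty_iff.mpr
      intro g _ h
      exact Nat.not_lt_zero _ h.2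
    rw [this]
    simp
  | succ N ih =>
    have hmono : Submodule.span ℚ (vq v '' {g' | g'.2 = m ∧ g'.1 < N}) ≤
        Submodule.span ℚ (vq v '' {g' | g'.2 = m ∧ g'.1 < N + 1}) := by
      apply Submodule.span_mono
      apply Set.image_mono
      intro g hg
      exact ⟨hg.1, Nat.lt_succ_of_lt hg.2⟩
    by_cases hc : (N, m) ∈ Cand v Y M1
    · have hnot : vq v (N, m) ∉ Submodule.span ℚ (vq v '' {g' | g'.2 = m ∧ g'.1 < N}) := by
        have := (Finset.mem_filter.mp hc).2
        simpa using this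
      have hlt : Submodule.span ℚ (vq v '' {g' | g'.2 = m ∧ g'.1 < N}) <
          Submodule.span ℚ (vq v '' {g' | g'.2 = m ∧ g'.1 < N + 1}) := by
        refine lt_of_le_of_ne hmono ?_
        intro he
        apply hnot
        rw [he]
        apply Submodule.subset_span
        exact ⟨(N, m), ⟨rfl, Nat.lt_succ_self N⟩, rfl⟩
      have h1 := Submodule.finrank_lt_finrank_of_lt hlt
      have hsub : ((Cand v Y M1).filter fun g => g.2 = m ∧ g.1 < N + 1) ⊆
          insert (N, m) ((Cand v Y M1).filter fun g => g.2 = m ∧ g.1 < N) := by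
        intro g hg
        rw [Finset.mem_filter] at hg
        rw [Finset.mem_insert, Finset.mem_filter]
        rcases Nat.lt_succ_iff_lt_or_eq.mp hg.2.2 with h | h
        · exact Or.inr ⟨hg.1, hg.2.1, h⟩
        · exact Or.inl (Prod.ext h hg.2.1)
      have h2 := (Finset.card_le_card hsub).trans (Finset.card_insert_le _ _)
      omega
    · have hsub : ((Cand v Y M1).filter fun g => g.2 = m ∧ g.1 < N + 1) ⊆
          ((Cand v Y M1).filter fun g => g.2 = m ∧ g.1 < N) := by
        intro g hg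
        rw [Finset.mem_filter] at hg ⊢
        rcases Nat.lt_succ_iff_lt_or_eq.mp hg.2.2 with h | h
        · exact ⟨hg.1, hg.2.1, h⟩
        · exfalso
          apply hc
          have : g = (N, m) := Prod.ext h hg.2.1
          rw [← this]
          exact hg.1
      exact (Finset.card_le_card hsub).trans (ih.trans (Submodule.finrank_mono hmono))

theorem card_Cand {d : ℕ} (v : ℕ × ℕ → Fin d → ℤ) (Y M1 : ℕ) :
    (Cand v Y M1).card ≤ (M1 + 1) * d := by
  classical
  have hm : ∀ g ∈ Cand v Y M1, g.2 ∈ Finset.range (M1 + 1) := by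
    intro g hg
    exact (Finset.mem_product.mp (Finset.mem_filter.mp hg).1).2
  rw [Finset.card_eq_sum_card_fiberwise (f := fun g : ℕ × ℕ => g.2) hm]
  have hb : ∀ m ∈ Finset.range (M1 + 1),
      ((Cand v Y M1).filter fun g => g.2 = m).card ≤ d := by
    intro m _
    have heq : ((Cand v Y M1).filter fun g => g.2 = m) =
        ((Cand v Y M1).filter fun g => g.2 = m ∧ g.1 < Y + 1) := by
      apply Finset.filter_congr
      intro g hg
      constructor
      · intro h
        refine ⟨h, ?_⟩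
        exact Finset.mem_range.mp (Finset.mem_product.mp (Finset.mem_filter.mp hg).1).1
      · exact fun h => h.1
    rw [heq]
    refine (Cc_fib v Y M1 m (Y + 1)).trans ?_
    refine (Submodule.finrank_le _).trans ?_
    rw [Module.finrank_fin_fun]
  refine (Finset.sum_le_card_nsmul _ _ d hb).trans ?_
  rw [Finset.card_range, smul_eq_mul]

theorem ties_card (C : Finset (ℕ × ℕ)) (T : Finset ℕ) (hT : ∀ p ∈ T, ¬ NoTie C p) :
    T.card ≤ C.card ^ 2 := by
  classical
  have hch : ∀ p : ℕ, ∃ x : (ℕ × ℕ) × (ℕ × ℕ), p ∈ T →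
      x.1 ∈ C ∧ x.2 ∈ C ∧ wp p x.1 = wp p x.2 ∧ x.1 ≠ x.2 := by
    intro p
    by_cases hp : p ∈ T
    · have h := hT p hp
      unfold NoTie at h
      push Not at h
      obtain ⟨g, hg, g', hg', he, hne⟩ := h
      exact ⟨(g, g'), fun _ => ⟨hg, hg', he, hne⟩⟩
    · exact ⟨((0, 0), (0, 0)), fun h => absurd h hp⟩
  choose x hx using hch
  have hcard : (C ×ˢ C).card = C.card ^ 2 := by rw [Finset.card_product, sq]
  rw [← hcard]
  apply Finset.card_le_card_of_injOn x
  · intro p hp
    have h := hx p hp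
    exact Finset.mem_coe.mpr (Finset.mem_product.mpr ⟨h.1, h.2.1⟩)
  · intro p hp q hq hpq
    have h1 := hx p hp
    have h2 := hx q hq
    rw [← hpq] at h2
    obtain ⟨-, -, he1, hne⟩ := h1
    obtain ⟨-, -, he2, -⟩ := h2
    unfold wp at he1 he2
    by_contra hne2
    apply hne
    have hz1 : ((x p).1.1 : ℤ) + p * (x p).1.2 = (x p).2.1 + p * (x p).2.2 := by exact_mod_cast he1
    have hz2 : ((x p).1.1 : ℤ) + q * (x p).1.2 = (x p).2.1 + q * (x p).2.2 := by exact_mod_cast he2
    have h3 : ((p : ℤ) - q) * ((x p).1.2 - (x p).2.2) = 0 := by linear_combination hz1 - hz2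
    rcases mul_eq_zero.mp h3 with h4 | h4
    · exact absurd (by exact_mod_cast sub_eq_zero.mp h4) hne2
    · have h5 : ((x p).1.2 : ℤ) = (x p).2.2 := sub_eq_zero.mp h4
      have h6 : ((x p).1.1 : ℤ) = (x p).2.1 := by
        rw [h5] at hz1
        exact add_right_cancel hz1
      exact Prod.ext (by exact_mod_cast h6) (by exact_mod_cast h5)

theorem Nc_le (C : Finset (ℕ × ℕ)) (p : ℕ) : Nc C p ≤ C.card ^ 2 := by
  unfold Nc
  refine (Finset.card_filter_le _ _).trans ?_
  rw [Finset.card_product, sq]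

theorem Cc_sub (C : Finset (ℕ × ℕ)) {p q : ℕ} (hpq : p ≤ q) :
    ((C ×ˢ C).filter fun x => x.1.2 < x.2.2 ∧ wp p x.1 < wp p x.2) ⊆
      ((C ×ˢ C).filter fun x => x.1.2 < x.2.2 ∧ wp q x.1 < wp q x.2) := by
  intro x hx
  rw [Finset.mem_filter] at hx ⊢
  refine ⟨hx.1, hx.2.1, ?_⟩
  have h1 := hx.2.1
  have h2 := hx.2.2
  unfold wp at h2 ⊢
  obtain ⟨k, rfl⟩ := Nat.exists_eq_add_of_le hpq
  have h3 : k * x.1.2 ≤ k * x.2.2 := Nat.mul_le_mul_left k h1.le
  calc x.1.1 + (p + k) * x.1.2 = (x.1.1 + p * x.1.2) + k * x.1.2 := by ring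
    _ < (x.2.1 + p * x.2.2) + k * x.2.2 := by omega
    _ = x.2.1 + (p + k) * x.2.2 := by ring

theorem Cc_eq (C : Finset (ℕ × ℕ)) {p q : ℕ} (hpq : p ≤ q) (hp : NoTie C p) (hq : NoTie C q)
    (h : Nc C p = Nc C q) : ∀ g ∈ C, ∀ g' ∈ C, (wp p g < wp p g' ↔ wp q g < wp q g') := by
  have heq := Finset.eq_of_subset_of_card_le (Cc_sub C hpq) (le_of_eq h.symm)
  have key : ∀ g ∈ C, ∀ g' ∈ C, g.2 < g'.2 → (wp p g < wp p g' ↔ wp q g < wp q g') := by
    intro g hg g' hg' hlt
    have h1 := Finset.ext_iff.mp heq (g, g')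
    rw [Finset.mem_filter, Finset.mem_filter] at h1
    have hmem : (g, g') ∈ C ×ˢ C := Finset.mem_product.mpr ⟨hg, hg'⟩
    constructor
    · intro h2
      exact (h1.mp ⟨hmem, hlt, h2⟩).2.2
    · intro h2
      exact (h1.mpr ⟨hmem, hlt, h2⟩).2.2
  intro g hg g' hg'
  rcases lt_trichotomy g.2 g'.2 with hm | hm | hm
  · exact key g hg g' hg' hm
  · unfold wp
    rw [hm]
    constructor <;> intro h2 <;> omega
  · have h1 := key g' hg' g hg hm
    have hne : g ≠ g' := by
      rintro rfl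
      exact lt_irrefl _ hm
    have hp' : wp p g ≠ wp p g' := fun he => hne (hp g hg g' hg' he)
    have hq' : wp q g ≠ wp q g' := fun he => hne (hq g hg g' hg' he)
    constructor
    · intro h2
      by_contra h3
      have h4 : wp q g' < wp q g := lt_of_le_of_ne (not_lt.mp h3) (Ne.symm hq')
      exact absurd (h1.mpr h4) (not_lt.mpr h2.le)
    · intro h2
      by_contra h3
      have h4 : wp p g' < wp p g := lt_of_le_of_ne (not_lt.mp h3) (Ne.symm hp')
      exact absurd (h1.mp h4) (not_lt.mpr h2.le)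

theorem Nc_eq (C : Finset (ℕ × ℕ)) {p q : ℕ} (hp : NoTie C p) (hq : NoTie C q)
    (h : Nc C p = Nc C q) : ∀ g ∈ C, ∀ g' ∈ C, (wp p g < wp p g' ↔ wp q g < wp q g') := by
  rcases le_total p q with hpq | hpq
  · exact Cc_eq C hpq hp hq h
  · intro g hg g' hg'
    exact (Cc_eq C hpq hq hp h.symm g hg g' hg').symm

theorem Grd_congr {d : ℕ} (v : ℕ × ℕ → Fin d → ℤ) (C : Finset (ℕ × ℕ)) {p q : ℕ}
    (h : ∀ g ∈ C, ∀ g' ∈ C, (wp p g < wp p g' ↔ wp q g < wp q g')) :
    Grd v C p = Grd v C q := by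
  classical
  unfold Grd
  apply Finset.filter_congr
  intro g hg
  have hs : {g' | g' ∈ C ∧ wp p g' < wp p g} = {g' | g' ∈ C ∧ wp q g' < wp q g} := by
    ext g'
    constructor
    · rintro ⟨h1, h2⟩
      exact ⟨h1, (h g' h1 g hg).mp h2⟩
    · rintro ⟨h1, h2⟩
      exact ⟨h1, (h g' h1 g hg).mpr h2⟩
  rw [hs]

end Pool.Agent.H6.OR
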