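import Pool.Agent.H6.OR.CDefs

/-!
# Row Cd (project OR): induction over the lines mod `p`

Write `⟨g⟩ = ∑_j w_j v_g(j) ∈ ZMod p`.  Claim `⟨g⟩ = 0` for all `g` with `wp p g ≤ L`; strong induction on the weight
`u = wp p g`.  Assume it for all weights `< u`.  Let `wp p g = u`, so `g` is on the line `u`: the points
`(u - p m, m)`, `m ≤ u / p`.  For every point `h` of the line with `h ∉ G`: `Δ ⟨h⟩ = ∑_(g' ∈ G) x_(g') ⟨g'⟩ = 0` by `hlin` and
the induction hypothesis (`x_(g') ≠ 0` only if `wp p g' < u`), so `⟨h⟩ = 0` (`Δ ≠ 0` in the field `ZMod p`).  If `g ∉ G` done.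
If `g ∈ G`: all other points of the line are not in `G` (`hinj`), so the line sum `hline u` is `⟨g⟩` and
`⟨g⟩ = 0` (`Finset.sum_eq_single g.2`; `g.2 ≤ u / p` since `p g.2 ≤ u`, `p > 0`).
-/

namespace Pool.Agent.H6.OR

theorem line_induct {d : ℕ} (p : ℕ) [hp : Fact p.Prime] (L : ℕ) (v : ℕ × ℕ → Fin d → ℤ)
    (w : Fin d → ZMod p) (G : Finset (ℕ × ℕ)) (Δ : ℤ) (hΔ : (Δ : ZMod p) ≠ 0)
    (hlin : ∀ g, wp p g ≤ L → g ∉ G → ∃ x : ℕ × ℕ → ℤ,
      (∀ j, Δ * v g j = ∑ g' ∈ G, x g' * v g' j) ∧ ∀ g' ∈ G, x g' ≠ 0 → wp p g' < wp p g)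
    (hinj : ∀ g ∈ G, ∀ g' ∈ G, wp p g = wp p g' → g = g')
    (hline : ∀ u ≤ L, ∑ m ∈ Finset.range (u / p + 1),
      ∑ j, w j * ((v (u - p * m, m) j : ℤ) : ZMod p) = 0) :
    ∀ g, wp p g ≤ L → ∑ j, w j * ((v g j : ℤ) : ZMod p) = 0 := by
  have hp0 : 0 < p := hp.out.pos
  have key : ∀ u, u ≤ L → ∀ g, wp p g = u → ∑ j, w j * ((v g j : ℤ) : ZMod p) = 0 := by
    intro u
    induction u using Nat.strong_induction_on with
    | _ u ih =>
      intro hu
      have hout : ∀ h, wp p h = u → h ∉ G → ∑ j, w j * ((v h j : ℤ) : ZMod p) = 0 := by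
        intro h hh hG
        obtain ⟨x, hx1, hx2⟩ := hlin h (hh ▸ hu) hG
        have e1 : (Δ : ZMod p) * ∑ j, w j * ((v h j : ℤ) : ZMod p) =
            ∑ g' ∈ G, (x g' : ZMod p) * ∑ j, w j * ((v g' j : ℤ) : ZMod p) := by
          rw [Finset.mul_sum]
          calc ∑ j, (Δ : ZMod p) * (w j * ((v h j : ℤ) : ZMod p))
              = ∑ j, w j * ((Δ * v h j : ℤ) : ZMod p) := by
                refine Finset.sum_congr rfl fun j _ => ?_
                push_cast
                ring
            _ = ∑ j, w j * ∑ g' ∈ G, ((x g' : ZMod p) * ((v g' j : ℤ) : ZMod p)) := by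
                refine Finset.sum_congr rfl fun j _ => ?_
                rw [hx1 j]
                push_cast
                rfl
            _ = ∑ g' ∈ G, (x g' : ZMod p) * ∑ j, w j * ((v g' j : ℤ) : ZMod p) := by
                simp only [Finset.mul_sum]
                rw [Finset.sum_comm]
                refine Finset.sum_congr rfl fun g' _ => Finset.sum_congr rfl fun j _ => ?_
                ring
        have e2 : ∑ g' ∈ G, (x g' : ZMod p) * ∑ j, w j * ((v g' j : ℤ) : ZMod p) = 0 := by
          refine Finset.sum_eq_zero fun g' hg' => ?_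
          by_cases h0 : x g' = 0
          · rw [h0]
            simp
          · have hlt := hx2 g' hg' h0
            rw [hh] at hlt
            rw [ih (wp p g') hlt (le_trans hlt.le hu) g' rfl, mul_zero]
        rw [e2] at e1
        exact (mul_eq_zero.mp e1).resolve_left hΔ
      intro g hg
      by_cases hgG : g ∈ G
      · have hsum := hline u hu
        have hg2 : p * g.2 ≤ u := by
          rw [← hg]
          unfold wp
          omega
        have hmem : g.2 ∈ Finset.range (u / p + 1) := by
          rw [Finset.mem_range, Nat.lt_succ_iff, Nat.le_div_iff_mul_le hp0, mul_comm]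
          exact hg2
        rw [Finset.sum_eq_single_of_mem g.2 hmem] at hsum
        · have e3 : (u - p * g.2, g.2) = g := by
            refine Prod.ext ?_ rfl
            show u - p * g.2 = g.1
            rw [← hg]
            unfold wp
            omega
          rw [e3] at hsum
          exact hsum
        · intro m hm hne
          have hm' : p * m ≤ u := by
            rw [Finset.mem_range, Nat.lt_succ_iff, Nat.le_div_iff_mul_le hp0, mul_comm] at hm
            exact hm
          have hw : wp p (u - p * m, m) = u := by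
            unfold wp
            simp only
            omega
          apply hout _ hw
          intro hmem'
          have := hinj _ hmem' _ hgG (hw.trans hg.symm)
          apply hne
          rw [← this]
      · exact hout g hg hgG
  intro g hg
  exact key _ hg g rfl

end Pool.Agent.H6.OR
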