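import Pool.Agent.H6.OR.Ca
import Pool.Agent.H6.OR.Cb
import Pool.Agent.H6.OR.Cd

/-!
# Row Ce (project OR): one prime

* `exists_cramer`: `gram` for `ι = {g // g ∈ G}` (`v` restricted): `CramerFor v G Δ` with `|Δ| ≤ (d B)^(2d)`, if the
  entries of the `v g`, `g ∈ G`, are `≤ B` (`Finset.sum_coe_sort`/`Finset.sum_attach` to pass from sums over the subtype
  to sums over `G`; extend `x` by `0`).
* `prime_dvd`: let `C = Cand v Y M1`, `G = Grd v C p`, `NoTie C p`, `CramerFor v G Δ`, `Y < p (M1 + 1)`.  If `p ∤ Δ`,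
  `line_induct` (`L = Y`) applies: `hlin` for `g ∉ G`, `wp p g ≤ Y`: then `g.1 ≤ Y`, `p g.2 ≤ Y < p (M1 + 1)` so
  `g.2 ≤ M1`; `grd_span'` and `CramerFor` with `S = {g' | wp p g' < wp p g}`.  `hinj`: `G ⊆ C` and `NoTie`.
  So `∑_j w_j v_(l0,0)(j) = 0`; only `j = 0` contributes and `w_0 = 1`: `p ∣ v (l0,0) 0`
  (`wp p (l0,0) = l0 ≤ Y`).  In both cases `p ∣ Δ * v (l0,0) 0` (`ZMod.intCast_zmod_eq_zero_iff_dvd` or
  `ZMod.intCast_eq_zero_iff_dvd`).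
-/

namespace Pool.Agent.H6.OR

theorem exists_cramer {d : ℕ} (v : ℕ × ℕ → Fin d → ℤ) (G : Finset (ℕ × ℕ))
    (hG : LinearIndependent ℚ (fun g : {g // g ∈ G} => vq v g.1)) (B : ℝ) (hB : 1 ≤ B)
    (hb : ∀ g ∈ G, ∀ j, |((v g j : ℤ) : ℝ)| ≤ B) :
    ∃ Δ : ℤ, Δ ≠ 0 ∧ |(Δ : ℝ)| ≤ (d * B) ^ (2 * d) ∧ CramerFor v G Δ := by
  classical
  obtain ⟨Δ, h0, h1, h2⟩ := gram (ι := {g // g ∈ G}) (fun g => v g.1) hG
  refine ⟨Δ, h0, h1 B hB (fun i j => hb i.1 i.2 j), ?_⟩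
  intro u S hu
  have himg : (vq v '' {g | g ∈ G ∧ g ∈ S}) =
      ((fun i : {g // g ∈ G} => (fun j => ((v i.1 j : ℤ) : ℚ) : Fin d → ℚ)) ''
        {i : {g // g ∈ G} | i.1 ∈ S}) := by
    ext y
    constructor
    · rintro ⟨g, ⟨hg, hs⟩, rfl⟩
      exact ⟨⟨g, hg⟩, hs, rfl⟩
    · rintro ⟨⟨g, hg⟩, hs, rfl⟩
      exact ⟨g, ⟨hg, hs⟩, rfl⟩
  rw [himg] at hu
  obtain ⟨x, hx0, hx⟩ := h2 u _ hu
  refine ⟨fun g => if h : g ∈ G then x ⟨g, h⟩ else 0, ?_, ?_⟩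
  · intro g hg hs
    simp only [hg, dif_pos]
    exact hx0 ⟨g, hg⟩ hs
  · intro j
    rw [hx j, ← Finset.sum_attach G]
    refine Finset.sum_congr rfl ?_
    rintro ⟨g, hg⟩ -
    simp [hg]

theorem prime_dvd {d : ℕ} (hd : 0 < d) (p : ℕ) [hp : Fact p.Prime] (Y M1 l0 : ℕ) (hl0 : l0 ≤ Y)
    (v : ℕ × ℕ → Fin d → ℤ) (w : Fin d → ZMod p) (hw : w ⟨0, hd⟩ = 1) (hY : Y < p * (M1 + 1))
    (hT : NoTie (Cand v Y M1) p) (Δ : ℤ) (hC : CramerFor v (Grd v (Cand v Y M1) p) Δ)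
    (hα : ∀ j, j ≠ ⟨0, hd⟩ → v (l0, 0) j = 0)
    (hline : ∀ u ≤ Y, ∑ m ∈ Finset.range (u / p + 1),
      ∑ j, w j * ((v (u - p * m, m) j : ℤ) : ZMod p) = 0) :
    (p : ℤ) ∣ Δ * v (l0, 0) ⟨0, hd⟩ := by
  classical
  by_cases hΔ : (p : ℤ) ∣ Δ
  · exact hΔ.mul_right _
  have hΔ' : (Δ : ZMod p) ≠ 0 := by
    intro h
    exact hΔ ((ZMod.intCast_zmod_eq_zero_iff_dvd Δ p).1 h)
  have hp0 : 0 < p := hp.out.pos
  have key := line_induct p Y v w (Grd v (Cand v Y M1) p) Δ hΔ' ?_ ?_ hline (l0, 0) (by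
    simpa [wp] using hl0)
  · rw [Finset.sum_eq_single (⟨0, hd⟩ : Fin d)] at key
    · rw [hw, one_mul] at key
      exact ((ZMod.intCast_zmod_eq_zero_iff_dvd _ p).1 key).mul_left _
    · intro j _ hj
      rw [hα j hj]
      simp
    · intro h
      exact absurd (Finset.mem_univ _) h
  · intro g hg hgG
    have hg1 : g.1 ≤ Y := le_trans (by simp [wp]) hg
    have hg2 : g.2 ≤ M1 := by
      have h1 : p * g.2 ≤ Y := le_trans (by simp [wp]) hg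
      have h2 : p * g.2 < p * (M1 + 1) := lt_of_le_of_lt h1 hY
      have h3 := lt_of_mul_lt_mul_left h2 (Nat.zero_le p)
      omega
    have hsp := grd_span' v Y M1 p g hg1 hg2 hgG
    obtain ⟨x, hx0, hx⟩ := hC (v g) {g' | wp p g' < wp p g} hsp
    refine ⟨x, hx, ?_⟩
    intro g' hg' hne
    by_contra hcon
    exact hne (hx0 g' hg' hcon)
  · intro g hg g' hg' he
    have h1 : g ∈ Cand v Y M1 := (Finset.mem_filter.1 hg).1
    have h2 : g' ∈ Cand v Y M1 := (Finset.mem_filter.1 hg').1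
    exact hT g h1 g' h2 he

end Pool.Agent.H6.OR
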