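import Pool.Agent.H6.OR.Cc
import Pool.Agent.H6.OR.Ce

/-!
# Row Cf (project OR): the elimination inequality

`C = Cand v Y M1`, `|C| ≤ (M1+1) d` (`card_Cand`).  The primes of `Pr` with a tie: at most `|C|²` (`ties_card`), each
with `log p ≤ log P`.  The others are grouped by `Nc C p ∈ {0, .., |C|²}` (`Nc_le`).  One class `Q`: all `p, q ∈ Q` have
the same order on `C` (`Nc_eq`), so the same `G = Grd v C p` (`Grd_congr`); take `Δ` from `exists_cramer` for this `G`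
(`grd_indep`; the bound `B` holds on `C`).  Every `p ∈ Q` divides `Δ * α`, `α = v (l0,0) 0`, by
`prime_dvd`, so `∏_(p ∈ Q) p ∣ Δ α ≠ 0` (`Finset.prod_primes_dvd`, see `Ccore.lean` of `Pool/Agent/H85/OT`), and
`∑_(p ∈ Q) log p ≤ log |Δ α| ≤ 2 d log (d B) + log B ≤ 3 d log (d B)` (`d ≥ 1`, `B ≥ 1`, `log B ≤ log (d B) ≤ d log (d B)`).
Sum: `|C|² log P + (|C|² + 1) 3 d log (d B) ≤ (((M1+1) d)² + 1) (log P + 3 d log (d B))` (all terms `≥ 0`; if `Pr` is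
empty the left side is `0`; `log P ≥ 0` also for `P = 0`).
-/

namespace Pool.Agent.H6.OR

theorem class_sum {d : ℕ} (hd : 0 < d) (Y M1 l0 : ℕ) (hl0 : l0 ≤ Y)
    (v : ℕ × ℕ → Fin d → ℤ) (B : ℝ) (hB : 1 ≤ B)
    (hb : ∀ g : ℕ × ℕ, g.1 ≤ Y → g.2 ≤ M1 → ∀ j, |((v g j : ℤ) : ℝ)| ≤ B)
    (hα0 : v (l0, 0) ⟨0, hd⟩ ≠ 0) (hα : ∀ j, j ≠ ⟨0, hd⟩ → v (l0, 0) j = 0)
    (N : ℕ) (Q : Finset ℕ)
    (hQ : ∀ p ∈ Q, p.Prime ∧ Y < p * (M1 + 1) ∧ NoTie (Cand v Y M1) p ∧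
      Nc (Cand v Y M1) p = N ∧
      ∃ w : Fin d → ZMod p, w ⟨0, hd⟩ = 1 ∧ ∀ u ≤ Y, ∑ m ∈ Finset.range (u / p + 1),
        ∑ j, w j * ((v (u - p * m, m) j : ℤ) : ZMod p) = 0) :
    ∑ p ∈ Q, Real.log p ≤ 3 * d * Real.log (d * B) := by
  classical
  have hd1 : (1 : ℝ) ≤ d := by exact_mod_cast hd
  have hdB : (1 : ℝ) ≤ d * B := by nlinarith
  have hlog0 : 0 ≤ Real.log (d * B) := Real.log_nonneg hdB
  rcases Q.eq_empty_or_nonempty with hQ0 | ⟨p0, hp0⟩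
  · rw [hQ0, Finset.sum_empty]
    positivity
  obtain ⟨-, -, ht0, hN0, -⟩ := hQ p0 hp0
  have hsub : ∀ g ∈ Grd v (Cand v Y M1) p0, g.1 ≤ Y ∧ g.2 ≤ M1 := by
    intro g hg
    rw [Grd, Finset.mem_filter] at hg
    have h1 := hg.1
    rw [Cand, Finset.mem_filter, Finset.mem_product, Finset.mem_range, Finset.mem_range] at h1
    omega
  obtain ⟨Δ, hΔ, hΔB, hC⟩ := exists_cramer v (Grd v (Cand v Y M1) p0)
    (grd_indep v _ p0 ht0) B hB fun g hg j => hb g (hsub g hg).1 (hsub g hg).2 j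
  have hm0 : Δ * v (l0, 0) ⟨0, hd⟩ ≠ 0 := mul_ne_zero hΔ hα0
  have hdvd : ∀ p ∈ Q, (p : ℤ) ∣ Δ * v (l0, 0) ⟨0, hd⟩ := by
    intro p hp
    obtain ⟨hpp, hY, ht, hN, w, hw, hl⟩ := hQ p hp
    have hfact : Fact p.Prime := ⟨hpp⟩
    have hG : Grd v (Cand v Y M1) p = Grd v (Cand v Y M1) p0 :=
      Grd_congr v _ (Nc_eq _ ht ht0 (hN.trans hN0.symm))
    exact prime_dvd hd p Y M1 l0 hl0 v w hw hY ht Δ (hG ▸ hC) hα hl
  have hprod : (∏ p ∈ Q, p) ∣ (Δ * v (l0, 0) ⟨0, hd⟩).natAbs := by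
    refine Finset.prod_primes_dvd _ (fun p hp => (hQ p hp).1.prime) (fun p hp => ?_)
    exact Int.natCast_dvd.1 (hdvd p hp)
  have hle := Nat.le_of_dvd (Int.natAbs_pos.2 hm0) hprod
  have hprime : ∀ p ∈ Q, (p : ℝ) ≠ 0 := fun p hp => by
    exact_mod_cast (hQ p hp).1.ne_zero
  have hlog1 : ∑ p ∈ Q, Real.log p ≤
      Real.log |((Δ * v (l0, 0) ⟨0, hd⟩ : ℤ) : ℝ)| := by
    rw [← Real.log_prod hprime]
    apply Real.log_le_log
    · exact Finset.prod_pos fun p hp => lt_of_le_of_ne (Nat.cast_nonneg p) (hprime p hp).symm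
    · have h1 : ((∏ p ∈ Q, p : ℕ) : ℝ) ≤
          (((Δ * v (l0, 0) ⟨0, hd⟩).natAbs : ℕ) : ℝ) := by exact_mod_cast hle
      rw [Nat.cast_prod, Nat.cast_natAbs, Int.cast_abs] at h1
      exact h1
  refine hlog1.trans ?_
  have hΔ0 : (0 : ℝ) < |(Δ : ℝ)| := abs_pos.2 (by exact_mod_cast hΔ)
  have hα1 : (0 : ℝ) < |((v (l0, 0) ⟨0, hd⟩ : ℤ) : ℝ)| := abs_pos.2 (by exact_mod_cast hα0)
  rw [Int.cast_mul, abs_mul, Real.log_mul hΔ0.ne' hα1.ne']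
  have h1 : Real.log |(Δ : ℝ)| ≤ 2 * d * Real.log (d * B) := by
    refine (Real.log_le_log hΔ0 hΔB).trans (le_of_eq ?_)
    rw [Real.log_pow]
    push_cast
    ring
  have h2 : Real.log |((v (l0, 0) ⟨0, hd⟩ : ℤ) : ℝ)| ≤ Real.log (d * B) := by
    refine Real.log_le_log hα1 ((hb (l0, 0) hl0 (Nat.zero_le _) _).trans ?_)
    nlinarith
  have h3 : Real.log (d * B) ≤ d * Real.log (d * B) := by nlinarith
  linarith

theorem elim {d : ℕ} (hd : 0 < d) (Y M1 P l0 : ℕ) (hl0 : l0 ≤ Y)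
    (v : ℕ × ℕ → Fin d → ℤ) (B : ℝ) (hB : 1 ≤ B)
    (hb : ∀ g : ℕ × ℕ, g.1 ≤ Y → g.2 ≤ M1 → ∀ j, |((v g j : ℤ) : ℝ)| ≤ B)
    (hα0 : v (l0, 0) ⟨0, hd⟩ ≠ 0) (hα : ∀ j, j ≠ ⟨0, hd⟩ → v (l0, 0) j = 0) (Pr : Finset ℕ)
    (hPr : ∀ p ∈ Pr, p.Prime ∧ p ≤ P ∧ Y < p * (M1 + 1) ∧
      ∃ w : Fin d → ZMod p, w ⟨0, hd⟩ = 1 ∧ ∀ u ≤ Y, ∑ m ∈ Finset.range (u / p + 1),
        ∑ j, w j * ((v (u - p * m, m) j : ℤ) : ZMod p) = 0) :
    ∑ p ∈ Pr, Real.log p ≤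
      (((M1 + 1) * d : ℝ) ^ 2 + 1) * (Real.log P + 3 * d * Real.log (d * B)) := by
  classical
  have hd1 : (1 : ℝ) ≤ d := by exact_mod_cast hd
  have hdB : (1 : ℝ) ≤ d * B := by nlinarith
  have hlog0 : 0 ≤ Real.log (d * B) := Real.log_nonneg hdB
  have hlogP : 0 ≤ Real.log P := Real.log_natCast_nonneg P
  obtain ⟨C, hC⟩ : ∃ C, C = Cand v Y M1 := ⟨_, rfl⟩
  have hcard : (C.card : ℝ) ≤ (M1 + 1) * d := by
    have h := card_Cand v Y M1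
    rw [← hC] at h
    exact_mod_cast h
  have hsq : (C.card : ℝ) ^ 2 ≤ ((M1 + 1) * d) ^ 2 :=
    pow_le_pow_left₀ (Nat.cast_nonneg _) hcard 2
  rw [← Finset.sum_filter_add_sum_filter_not Pr (fun p => NoTie C p)]
  have h1 : ∑ p ∈ Pr.filter (fun p => ¬ NoTie C p), Real.log p ≤
      (C.card : ℝ) ^ 2 * Real.log P := by
    have h2 : ∑ p ∈ Pr.filter (fun p => ¬ NoTie C p), Real.log p ≤
        ∑ _p ∈ Pr.filter (fun p => ¬ NoTie C p), Real.log P := by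
      refine Finset.sum_le_sum fun p hp => ?_
      obtain ⟨hpp, hpP, -⟩ := hPr p (Finset.mem_filter.1 hp).1
      exact Real.log_le_log (by exact_mod_cast hpp.pos) (by exact_mod_cast hpP)
    rw [Finset.sum_const, nsmul_eq_mul] at h2
    refine h2.trans (mul_le_mul_of_nonneg_right ?_ hlogP)
    have h3 := ties_card C (Pr.filter (fun p => ¬ NoTie C p))
      fun p hp => (Finset.mem_filter.1 hp).2
    exact_mod_cast h3
  have h4 : ∑ p ∈ Pr.filter (fun p => NoTie C p), Real.log p ≤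
      ((C.card : ℝ) ^ 2 + 1) * (3 * d * Real.log (d * B)) := by
    rw [← Finset.sum_fiberwise_of_maps_to (g := fun p => Nc C p)
      (t := Finset.range (C.card ^ 2 + 1))
      (fun p _ => Finset.mem_range.2 (Nat.lt_succ_of_le (Nc_le C p)))]
    have h5 : ∀ N ∈ Finset.range (C.card ^ 2 + 1),
        ∑ p ∈ (Pr.filter (fun p => NoTie C p)).filter (fun p => Nc C p = N), Real.log p ≤
          3 * d * Real.log (d * B) := by
      intro N _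
      refine class_sum hd Y M1 l0 hl0 v B hB hb hα0 hα N _ fun p hp => ?_
      rw [Finset.mem_filter, Finset.mem_filter] at hp
      obtain ⟨hpp, -, hY, hw⟩ := hPr p hp.1.1
      rw [← hC]
      exact ⟨hpp, hY, hp.1.2, hp.2, hw⟩
    have h6 := Finset.sum_le_sum h5
    rw [Finset.sum_const, Finset.card_range, nsmul_eq_mul] at h6
    push_cast at h6
    exact h6
  have h7 : (0 : ℝ) ≤ 3 * d * Real.log (d * B) := by positivity
  have h8 : (C.card : ℝ) ^ 2 * Real.log P ≤ (((M1 + 1) * d : ℝ) ^ 2 + 1) * Real.log P :=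
    mul_le_mul_of_nonneg_right (by linarith) hlogP
  have h9 : ((C.card : ℝ) ^ 2 + 1) * (3 * d * Real.log (d * B)) ≤
      (((M1 + 1) * d : ℝ) ^ 2 + 1) * (3 * d * Real.log (d * B)) :=
    mul_le_mul_of_nonneg_right (by linarith) h7
  rw [mul_add]
  linarith

end Pool.Agent.H6.OR
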