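import Pool.Agent.H6.OR.Defs

/-!
# Parameters for part D of the project OR

`pM = 2 s κ r ℓ`, `pY = s ℓ^r (n + κ r ℓ)`, `pP = ⌊ℓ^r (n+1) / (2 pM² (rℓ+1))⌋`, `pM1 = ⌊4 pY / pP⌋`.
-/

namespace Pool.Agent.H6.OR

/-- `2 s κ r ℓ` -/
def pM (κ r s ℓ : ℕ) : ℕ := 2 * s * κ * (r * ℓ)

/-- `s ℓ^r (n + κ r ℓ)` -/
def pY (κ r s ℓ n : ℕ) : ℕ := s * ℓ ^ r * (n + κ * (r * ℓ))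

/-- `⌊ℓ^r (n+1) / (2 pM² (rℓ+1))⌋` -/
def pP (κ r s ℓ n : ℕ) : ℕ := ℓ ^ r * (n + 1) / (2 * (pM κ r s ℓ * pM κ r s ℓ * (r * ℓ + 1)))

/-- `⌊4 pY / pP⌋` -/
def pM1 (κ r s ℓ n : ℕ) : ℕ := 4 * pY κ r s ℓ n / pP κ r s ℓ n

end Pool.Agent.H6.OR
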