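import Pool.Agent.H6.OR.Defs
import Pool.Agent.H85.OT.Adich
import Mathlib.NumberTheory.Chebyshev

/-!
# Row Da (project OR): primes in `(X/4, X]`

* `theta_window`: `∑_{X/4 < p ≤ X} log p = θ(X) - θ(⌊X/4⌋)` (`Chebyshev.theta_eq_sum_primesLE_log` or
  `theta_eq_sum_Icc`), `θ(X) ≥ X log 2 - log (X+1) - 2 √X log X` (`Chebyshev.theta_ge`),
  `θ(X/4) ≤ log 4 * X/4 = (log 2 / 2) X` (`Chebyshev.theta_le_log4_mul_x`), so the difference is
  `≥ X (log 2)/2 - o(X) ≥ X / 4` for `X ≥ X0` (`log 2 > 0.69`: `Real.log_two_gt_d9`;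
  `log t ≤ 4 t^(1/4)`-type bounds from `Real.log_le_sub_one_of_pos` applied to roots, or
  `Real.isLittleO_log_id_atTop`).
* `prime_sum_lower`: the primes `p ≤ X ≤ Y` with `Ord0 f p` contribute at most `log Z0 f Y`:
  `log Z0 = ∑_{p ≤ Y, Ord0} ⌊log_p Y⌋ log p` with `Nat.log p Y ≥ 1` for `p ≤ Y` (see `log_Z0_le` in
  `Pool/Agent/H85/OT/Cden.lean`).
-/

open PowerSeries

namespace Pool.Agent.H6.OR

open Pool.Agent.H85.OT

theorem Da_ineq {X : ℝ} (hX : 1000 ^ 4 ≤ X) :
    Real.log (X + 1) + 2 * √X * Real.log X ≤ 13 / 1000 * X := by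
  have hX0 : 0 < X := by linarith
  set s : ℝ := √(√X) with hs
  have hs2 : s ^ 2 = √X := Real.sq_sqrt (Real.sqrt_nonneg X)
  have hs4 : s ^ 4 = X := by
    rw [show s ^ 4 = (s ^ 2) ^ 2 by ring, hs2]
    exact Real.sq_sqrt hX0.le
  have hs0 : 0 < s := by
    rw [hs]
    exact Real.sqrt_pos.2 (Real.sqrt_pos.2 hX0)
  have hs1000 : 1000 ≤ s := by
    by_contra h
    push Not at h
    have : s ^ 4 < 1000 ^ 4 := pow_lt_pow_left₀ h hs0.le (by norm_num)
    linarith
  have hlogs : Real.log s ≤ s := (Real.log_le_sub_one_of_pos hs0).trans (by linarith)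
  have hlogX : Real.log X ≤ 4 * s := by
    rw [← hs4, Real.log_pow]
    push_cast
    linarith
  have hlogX1 : Real.log (X + 1) ≤ 1 + 4 * s := by
    have h1 : Real.log (X + 1) ≤ Real.log (2 * X) := Real.log_le_log (by linarith) (by linarith)
    rw [Real.log_mul (by norm_num) hX0.ne'] at h1
    have h2 : Real.log 2 ≤ 1 := by
      have := Real.log_le_sub_one_of_pos (by norm_num : (0 : ℝ) < 2)
      linarith
    linarith
  have h3 : 2 * √X * Real.log X ≤ 8 * s ^ 3 := by
    rw [← hs2]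
    calc 2 * s ^ 2 * Real.log X ≤ 2 * s ^ 2 * (4 * s) :=
          mul_le_mul_of_nonneg_left hlogX (by positivity)
      _ = 8 * s ^ 3 := by ring
  have h4 : 1 + 4 * s ≤ 5 * s ^ 3 := by
    have h5 : s ≤ s ^ 3 := le_self_pow₀ (by linarith) (by norm_num)
    linarith
  have h6 : 13 * s ^ 3 ≤ 13 / 1000 * X := by
    rw [← hs4, show s ^ 4 = s * s ^ 3 by ring]
    have h7 : 0 < s ^ 3 := by positivity
    nlinarith
  linarith

theorem theta_window : ∃ X0 : ℕ, ∀ X : ℕ, X0 ≤ X → (1 / 4 : ℝ) * X ≤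
    ∑ p ∈ (Finset.range (X + 1)).filter (fun p => p.Prime ∧ X < 4 * p), Real.log p := by
  refine ⟨1000 ^ 4, fun X hX => ?_⟩
  have hXR : (1000 : ℝ) ^ 4 ≤ X := by exact_mod_cast hX
  have hX0 : (0 : ℝ) ≤ X := by positivity
  have h1 := Chebyshev.theta_ge X
  have h2 := Chebyshev.theta_le_log4_mul_x (x := (X : ℝ) / 4) (by positivity)
  have h3 := Da_ineq hXR
  have hlog4 : Real.log 4 = 2 * Real.log 2 := by
    rw [show (4 : ℝ) = 2 ^ 2 by norm_num, Real.log_pow]
    norm_num
  have hlog2 := Real.log_two_gt_d9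
  have hth : Chebyshev.theta (X : ℝ) = ∑ p ∈ (Finset.range (X + 1)).filter (fun p => p.Prime), Real.log p := by
    rw [Chebyshev.theta_eq_sum_Icc, Nat.floor_natCast]
    refine Finset.sum_congr ?_ fun _ _ => rfl
    ext p
    simp only [Finset.mem_filter, Finset.mem_Icc, Finset.mem_range]
    constructor
    · rintro ⟨⟨_, a⟩, b⟩
      exact ⟨by omega, b⟩
    · rintro ⟨a, b⟩
      exact ⟨⟨by omega, by omega⟩, b⟩
  have hsplit : ∑ p ∈ (Finset.range (X + 1)).filter (fun p => p.Prime), Real.log p =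
      ∑ p ∈ (Finset.range (X + 1)).filter (fun p => p.Prime ∧ X < 4 * p), Real.log p +
      ∑ p ∈ (Finset.range (X + 1)).filter (fun p => p.Prime ∧ ¬ X < 4 * p), Real.log p := by
    rw [← Finset.sum_filter_add_sum_filter_not ((Finset.range (X + 1)).filter (fun p => p.Prime))
      (fun p => X < 4 * p), Finset.filter_filter, Finset.filter_filter]
  have hsmall : ∑ p ∈ (Finset.range (X + 1)).filter (fun p => p.Prime ∧ ¬ X < 4 * p), Real.log p ≤
      Chebyshev.theta ((X : ℝ) / 4) := by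
    rw [Chebyshev.theta_eq_sum_Icc]
    apply Finset.sum_le_sum_of_subset_of_nonneg
    · intro p hp
      simp only [Finset.mem_filter, Finset.mem_Icc, Finset.mem_range] at hp ⊢
      refine ⟨⟨by omega, Nat.le_floor ?_⟩, hp.2.1⟩
      rw [le_div_iff₀ (by norm_num)]
      have h5 : p * 4 ≤ X := by omega
      exact_mod_cast h5
    · intro p hp _
      exact Real.log_natCast_nonneg p
  rw [hth, hsplit] at h1
  rw [hlog4] at h2
  nlinarith

open Classical in
theorem prime_sum_lower (f : ℤ⟦X⟧) : ∃ X0 : ℕ, ∀ X Y : ℕ, X0 ≤ X → X ≤ Y →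
    (1 / 4 : ℝ) * X - Real.log (Z0 f Y) ≤
      ∑ p ∈ (Finset.range (X + 1)).filter (fun p => p.Prime ∧ X < 4 * p ∧ ¬ Ord0 f p),
        Real.log p := by
  obtain ⟨X0, hX0⟩ := theta_window
  refine ⟨X0, fun X Y hX hXY => ?_⟩
  have h1 := hX0 X hX
  have hsplit : ∑ p ∈ (Finset.range (X + 1)).filter (fun p => p.Prime ∧ X < 4 * p), Real.log p =
      ∑ p ∈ (Finset.range (X + 1)).filter (fun p => p.Prime ∧ X < 4 * p ∧ Ord0 f p), Real.log p +
      ∑ p ∈ (Finset.range (X + 1)).filter (fun p => p.Prime ∧ X < 4 * p ∧ ¬ Ord0 f p),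
        Real.log p := by
    rw [← Finset.sum_filter_add_sum_filter_not ((Finset.range (X + 1)).filter
      (fun p => p.Prime ∧ X < 4 * p)) (fun p => Ord0 f p), Finset.filter_filter,
      Finset.filter_filter]
    congr 1
    · refine Finset.sum_congr (Finset.filter_congr fun p _ => ?_) fun _ _ => rfl
      tauto
    · refine Finset.sum_congr (Finset.filter_congr fun p _ => ?_) fun _ _ => rfl
      tauto
  have hlog : Real.log (Z0 f Y) = ∑ p ∈ (Finset.range (Y + 1)).filter (fun p => p.Prime ∧ Ord0 f p),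
      Real.log ((p ^ Nat.log p Y : ℕ) : ℝ) := by
    unfold Z0
    rw [Nat.cast_prod]
    refine Real.log_prod fun p hp => ?_
    have h := (Finset.mem_filter.1 hp).2.1
    have h2 : p ^ Nat.log p Y ≠ 0 := (pow_pos h.pos _).ne'
    exact_mod_cast h2
  have hle : ∑ p ∈ (Finset.range (X + 1)).filter (fun p => p.Prime ∧ X < 4 * p ∧ Ord0 f p),
      Real.log p ≤ Real.log (Z0 f Y) := by
    rw [hlog]
    calc ∑ p ∈ (Finset.range (X + 1)).filter (fun p => p.Prime ∧ X < 4 * p ∧ Ord0 f p), Real.log p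
        ≤ ∑ p ∈ (Finset.range (Y + 1)).filter (fun p => p.Prime ∧ Ord0 f p), Real.log p := by
          apply Finset.sum_le_sum_of_subset_of_nonneg
          · intro p hp
            simp only [Finset.mem_filter, Finset.mem_range] at hp ⊢
            exact ⟨by omega, hp.2.1, hp.2.2.2⟩
          · intro p _ _
            exact Real.log_natCast_nonneg p
      _ ≤ _ := by
          refine Finset.sum_le_sum fun p hp => ?_
          simp only [Finset.mem_filter, Finset.mem_range] at hp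
          have hp1 := hp.2.1
          refine Real.log_le_log (by exact_mod_cast hp1.pos) ?_
          have h2 : 1 ≤ Nat.log p Y :=
            Nat.log_pos hp1.one_lt (by omega)
          have h3 : p ≤ p ^ Nat.log p Y := Nat.le_self_pow (by omega) p
          exact_mod_cast h3
  linarith

end Pool.Agent.H6.OR
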