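import Pool.Agent.H6.OR.DDefs

/-!
# Row Db (project OR): the parameters

Let `K3 = 16 s² κ² r³`, `D0 = 2 (pM² (rℓ+1))`.  As `rℓ + 1 ≤ 2 r ℓ`: `D0 ≤ 2 * 4 s²κ²r²ℓ² * 2 r ℓ = K3 ℓ³`.  `P = ⌊ℓ^r (n+1) / D0⌋`.
Take `C = 32 s K3`, `ℓ1 = 8 K3 + 2`, `n1 = κ r ℓ + D0 + 16 s K3 ℓ³ + 1`.
* `D0 P ≤ ℓ^r (n+1)` (`Nat.div_mul_le_self`): this is the second claim.
* `D0 ≤ n1 ≤ n ≤ ℓ^r (n+1)`, so `P ≥ 1` and `ℓ^r (n+1) < D0 (P + 1) ≤ 2 D0 P ≤ 2 K3 ℓ³ P`.  As `r ≥ 14`, `ℓ^r = ℓ³ ℓ^(r-3) ≥ ℓ³ ℓ^11`: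
  `ℓ^11 (n+1) ≤ 2 K3 P`.
* `M1 P ≤ 4 Y = 4 s ℓ^r (n + κ r ℓ) ≤ 8 s ℓ^r (n+1) ≤ 8 s * 2 K3 ℓ³ P` (`κ r ℓ ≤ n`), so `M1 ≤ 16 s K3 ℓ³ ≤ C ℓ³`, and
  `M1 ≤ 16 s K3 ℓ³ ≤ n ≤ Y`.
* `P < 4 p`: `2 K3 * 4 p κ r ℓ > 2 K3 P ℓ ≥ ℓ^12 (n+1) ≥ 8 K3 n` (`ℓ^12 ≥ ℓ ≥ 8 K3`), so `κ p r ℓ > n`.
* `P < 4 p`: `Y < p (M1+1)`: `4 Y < (M1 + 1) P` (definition of the division, `Nat.lt_succ_mul_div..`,
  `Nat.lt_mul_div_succ`), and `(M1+1) P < 4 p (M1 + 1)`.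
* `P ≤ ℓ^r (n+1) ≤ Y` (`s ≥ 1`, `κ r ℓ ≥ 1`).
-/

namespace Pool.Agent.H6.OR

theorem params (κ r s : ℕ) (hκ : 1 ≤ κ) (hs : 1 ≤ s) (hr : 14 ≤ r) :
    ∃ C ℓ1 : ℕ, 1 ≤ C ∧ 2 ≤ ℓ1 ∧ ∀ ℓ ≥ ℓ1, ∃ n1 : ℕ, ∀ n ≥ n1,
      1 ≤ pP κ r s ℓ n ∧
      2 * (pP κ r s ℓ n * pM κ r s ℓ * pM κ r s ℓ * (r * ℓ + 1)) ≤ ℓ ^ r * (n + 1) ∧
      pM1 κ r s ℓ n ≤ C * ℓ ^ 3 ∧ pM1 κ r s ℓ n ≤ pY κ r s ℓ n ∧
      ℓ ^ 11 * n ≤ C * pP κ r s ℓ n ∧ pP κ r s ℓ n ≤ ℓ ^ r * (n + 1) ∧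
      pP κ r s ℓ n ≤ pY κ r s ℓ n ∧
      (∀ p, pP κ r s ℓ n < 4 * p → n < κ * p * (r * ℓ)) ∧
      (∀ p, pP κ r s ℓ n < 4 * p → pY κ r s ℓ n < p * (pM1 κ r s ℓ n + 1)) := by
  obtain ⟨K3, hK3⟩ : ∃ K3, K3 = 16 * s ^ 2 * κ ^ 2 * r ^ 3 := ⟨_, rfl⟩
  have hK31 : 1 ≤ K3 := by
    rw [hK3]
    have h1 : 1 ≤ s ^ 2 := Nat.one_le_pow _ _ hs
    have h2 : 1 ≤ κ ^ 2 := Nat.one_le_pow _ _ hκ
    have h3 : 1 ≤ r ^ 3 := Nat.one_le_pow _ _ (by omega)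
    have h4 : 1 ≤ s ^ 2 * κ ^ 2 * r ^ 3 := by
      calc 1 = 1 * 1 * 1 := by norm_num
        _ ≤ s ^ 2 * κ ^ 2 * r ^ 3 := Nat.mul_le_mul (Nat.mul_le_mul h1 h2) h3
    nlinarith
  refine ⟨32 * s * K3, 8 * K3 + 2, ?_, by omega, ?_⟩
  · have : 1 ≤ s * K3 := by
      calc 1 = 1 * 1 := by norm_num
        _ ≤ s * K3 := Nat.mul_le_mul hs hK31
    nlinarith
  intro ℓ hℓ
  obtain ⟨a, ha⟩ : ∃ a, a = r * ℓ := ⟨_, rfl⟩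
  have hℓ1 : 1 ≤ ℓ := by omega
  have ha1 : 1 ≤ a := by
    rw [ha]
    exact Nat.one_le_iff_ne_zero.mpr (Nat.mul_ne_zero (by omega) (by omega))
  have haℓ : ℓ ≤ a := by
    rw [ha]
    exact Nat.le_mul_of_pos_left ℓ (by omega)
  obtain ⟨D0, hD0⟩ : ∃ D0, D0 = 2 * (pM κ r s ℓ * pM κ r s ℓ * (r * ℓ + 1)) := ⟨_, rfl⟩
  have hD0le : D0 ≤ K3 * ℓ ^ 3 := by
    rw [hD0, hK3]
    unfold pM
    rw [← ha]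
    have e1 : 16 * s ^ 2 * κ ^ 2 * r ^ 3 * ℓ ^ 3 = 2 * (2 * s * κ * a * (2 * s * κ * a) * (2 * a)) := by
      rw [ha]; ring
    rw [e1]
    exact Nat.mul_le_mul le_rfl (Nat.mul_le_mul le_rfl (by omega))
  have hD0pos : 0 < D0 := by
    rw [hD0]
    unfold pM
    rw [← ha]
    have : 0 < 2 * s * κ * a := by positivity
    positivity
  refine ⟨κ * a + D0 + 16 * s * K3 * ℓ ^ 3 + 1, ?_⟩
  intro n hn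
  obtain ⟨L, hL⟩ : ∃ L, L = ℓ ^ r := ⟨_, rfl⟩
  have hL1 : 1 ≤ L := by
    rw [hL]
    exact Nat.one_le_pow _ _ hℓ1
  obtain ⟨P, hP⟩ : ∃ P, P = pP κ r s ℓ n := ⟨_, rfl⟩
  have hPd : P = L * (n + 1) / D0 := by
    rw [hP, hL, hD0]; rfl
  obtain ⟨Y, hY⟩ : ∃ Y, Y = pY κ r s ℓ n := ⟨_, rfl⟩
  have hYd : Y = s * L * (n + κ * a) := by
    rw [hY, hL, ha]; rfl
  obtain ⟨M1, hM1⟩ : ∃ M1, M1 = pM1 κ r s ℓ n := ⟨_, rfl⟩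
  have hM1d : M1 = 4 * Y / P := by
    rw [hM1, hY, hP]; rfl
  rw [← hP, ← hY, ← hM1, ← hL, ← ha]
  have hκa1 : 1 ≤ κ * a := by
    calc 1 = 1 * 1 := by norm_num
      _ ≤ κ * a := Nat.mul_le_mul hκ ha1
  -- (1)
  have c1 : D0 * P ≤ L * (n + 1) := by
    rw [hPd]
    exact Nat.mul_div_le _ _
  have hnL : n + 1 ≤ L * (n + 1) := Nat.le_mul_of_pos_left _ hL1
  -- (2)
  have c2 : 1 ≤ P := by
    rw [hPd]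
    exact Nat.div_pos (by omega) hD0pos
  have c3 : L * (n + 1) ≤ 2 * K3 * ℓ ^ 3 * P := by
    have h1 : L * (n + 1) < D0 * (P + 1) := by
      rw [hPd]
      exact Nat.lt_mul_div_succ _ hD0pos
    have h2 : D0 * (P + 1) ≤ D0 * (2 * P) := Nat.mul_le_mul le_rfl (by omega)
    have h3 : D0 * (2 * P) ≤ K3 * ℓ ^ 3 * (2 * P) := Nat.mul_le_mul hD0le le_rfl
    calc L * (n + 1) ≤ K3 * ℓ ^ 3 * (2 * P) := (h1.le.trans h2).trans h3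
      _ = 2 * K3 * ℓ ^ 3 * P := by ring
  -- (3)
  have c4 : ℓ ^ 11 * (n + 1) ≤ 2 * K3 * P := by
    have h1 : ℓ ^ 3 * ℓ ^ 11 ≤ L := by
      rw [hL, ← pow_add]
      exact Nat.pow_le_pow_right hℓ1 (by omega)
    have h2 : ℓ ^ 3 * (ℓ ^ 11 * (n + 1)) ≤ ℓ ^ 3 * (2 * K3 * P) := by
      calc ℓ ^ 3 * (ℓ ^ 11 * (n + 1)) = ℓ ^ 3 * ℓ ^ 11 * (n + 1) := by ring
        _ ≤ L * (n + 1) := Nat.mul_le_mul h1 le_rfl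
        _ ≤ 2 * K3 * ℓ ^ 3 * P := c3
        _ = ℓ ^ 3 * (2 * K3 * P) := by ring
    exact Nat.le_of_mul_le_mul_left h2 (by positivity)
  -- (5)
  have c5 : M1 ≤ 16 * s * K3 * ℓ ^ 3 := by
    have h1 : M1 * P ≤ 4 * Y := by
      rw [hM1d]
      exact Nat.div_mul_le_self _ _
    have h2 : 4 * Y ≤ 16 * s * K3 * ℓ ^ 3 * P := by
      rw [hYd]
      have h3 : n + κ * a ≤ 2 * (n + 1) := by omega
      calc 4 * (s * L * (n + κ * a)) ≤ 4 * (s * L * (2 * (n + 1))) :=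
            Nat.mul_le_mul le_rfl (Nat.mul_le_mul le_rfl h3)
        _ = 8 * s * (L * (n + 1)) := by ring
        _ ≤ 8 * s * (2 * K3 * ℓ ^ 3 * P) := Nat.mul_le_mul le_rfl c3
        _ = 16 * s * K3 * ℓ ^ 3 * P := by ring
    exact Nat.le_of_mul_le_mul_right (h1.trans h2) c2
  have hnY : n + 1 ≤ Y := by
    rw [hYd]
    calc n + 1 = 1 * 1 * (n + 1) := by ring
      _ ≤ s * L * (n + κ * a) := Nat.mul_le_mul (Nat.mul_le_mul hs hL1) (by omega)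
  refine ⟨c2, ?_, ?_, ?_, ?_, ?_, ?_, ?_, ?_⟩
  · calc 2 * (P * pM κ r s ℓ * pM κ r s ℓ * (a + 1)) = D0 * P := by rw [hD0, ha]; ring
      _ ≤ L * (n + 1) := c1
  · calc M1 ≤ 16 * s * K3 * ℓ ^ 3 := c5
      _ ≤ 32 * s * K3 * ℓ ^ 3 := by
        have : 0 ≤ s * K3 * ℓ ^ 3 := Nat.zero_le _
        nlinarith
  · omega
  · calc ℓ ^ 11 * n ≤ ℓ ^ 11 * (n + 1) := Nat.mul_le_mul le_rfl (by omega)
      _ ≤ 2 * K3 * P := c4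
      _ ≤ 32 * s * K3 * P := by
        have h1 : 2 * K3 ≤ 32 * s * K3 := Nat.mul_le_mul (by omega) le_rfl
        exact Nat.mul_le_mul h1 le_rfl
  · rw [hPd]
    exact Nat.div_le_self _ _
  · have h1 : P ≤ L * (n + 1) := by
      rw [hPd]
      exact Nat.div_le_self _ _
    refine h1.trans ?_
    rw [hYd]
    calc L * (n + 1) = 1 * L * (n + 1) := by ring
      _ ≤ s * L * (n + κ * a) := Nat.mul_le_mul (Nat.mul_le_mul hs le_rfl) (by omega)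
  · intro p hp
    by_contra hcon
    push Not at hcon
    have hℓ12 : ℓ ≤ ℓ ^ 12 := by
      calc ℓ = ℓ ^ 1 := (pow_one _).symm
        _ ≤ ℓ ^ 12 := Nat.pow_le_pow_right hℓ1 (by norm_num)
    have h1 : 8 * K3 * (n + 1) ≤ 8 * K3 * (κ * p * a) := by
      calc 8 * K3 * (n + 1) ≤ ℓ ^ 12 * (n + 1) := Nat.mul_le_mul (by omega) le_rfl
        _ = ℓ ^ 11 * (n + 1) * ℓ := by ring
        _ ≤ 2 * K3 * P * ℓ := Nat.mul_le_mul c4 le_rfl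
        _ ≤ 2 * K3 * (4 * p) * (κ * a) := by
          refine Nat.mul_le_mul (Nat.mul_le_mul le_rfl hp.le) ?_
          calc ℓ = 1 * ℓ := (one_mul _).symm
            _ ≤ κ * a := Nat.mul_le_mul hκ haℓ
        _ = 8 * K3 * (κ * p * a) := by ring
    have h2 : n + 1 ≤ κ * p * a := Nat.le_of_mul_le_mul_left h1 (by omega)
    omega
  · intro p hp
    have h1 : 4 * Y < P * (M1 + 1) := by
      rw [hM1d]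
      exact Nat.lt_mul_div_succ _ c2
    have h2 : P * (M1 + 1) ≤ 4 * p * (M1 + 1) := Nat.mul_le_mul hp.le le_rfl
    have h3 : 4 * p * (M1 + 1) = 4 * (p * (M1 + 1)) := by ring
    omega

end Pool.Agent.H6.OR
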