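import Pool.Agent.H6.OR.DDefs

/-!
# Row Dc (project OR): the logarithm of the height bound

`ρ = 1 - 1/ℓ^r`, `ℓ ≥ 2`, `r ≥ 1`.  The logarithm of the left side is
`log(rℓ+1) + 2 log(ℓ^r (n+1)) + 2 r ℓ log Z + 2 [ rℓ log 2 + (n + κrℓ) log(MR ρ) + rℓ log B + (Y + M + M1) log ρ⁻¹ ]`.
* `MR ρ = 4/(1-ρ)² = 4 ℓ^(2r)`, `log (MR ρ) = log 4 + 2 r log ℓ ≤ (2r+1) ℓ` (`log ℓ ≤ ℓ`, `log 4 ≤ 2 ≤ ℓ`);
* `log ρ⁻¹ ≤ ρ⁻¹ - 1 = 1/(ℓ^r - 1) ≤ 2/ℓ^r`, so `2 Y log ρ⁻¹ ≤ 4 s (n + κrℓ)` and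
  `2 (M + M1) log ρ⁻¹ ≤ 2 (M + C0 ℓ³)`;
* `2 log (ℓ^r (n+1)) ≤ 2 r ℓ + 2 log (n+1)` and `2 log (n+1) ≤ n` for `n ≥ 10` or so (`log (n+1) ≤ ..`).
Everything else is a constant depending on `ℓ, B` only, `≤ n` for `n ≥ n1`.  Total
`≤ (4r+2) ℓ n + 4 s n + n + n + 2 r ℓ log Z ≤ C ℓ n + 2 r ℓ log Z` with `C = 4 r + 4 s + 4`.
-/

open PowerSeries

namespace Pool.Agent.H6.OR

open Pool.Agent.H85.OT

private lemma Dc_expand {a b Z m B w : ℝ} (k N Y : ℕ) (ha : 0 < a) (hb : 0 < b) (hZ : 0 < Z)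
    (hm : 0 < m) (hB : 0 < B) (hw : 0 < w) :
    Real.log (a * (b ^ 2 * (Z ^ k) ^ 2 * (2 ^ k * m ^ N * B ^ k * w ^ Y) ^ 2)) =
      Real.log a + 2 * Real.log b + 2 * (k * Real.log Z) +
        2 * (k * Real.log 2 + N * Real.log m + k * Real.log B + Y * Real.log w) := by
  have h2 : (0 : ℝ) < 2 := by norm_num
  rw [Real.log_mul ha.ne' (by positivity), Real.log_mul (by positivity) (by positivity),
    Real.log_mul (by positivity) (by positivity), Real.log_pow, Real.log_pow, Real.log_pow,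
    Real.log_pow, Real.log_mul (by positivity) (by positivity),
    Real.log_mul (by positivity) (by positivity), Real.log_mul (by positivity) (by positivity),
    Real.log_pow, Real.log_pow, Real.log_pow, Real.log_pow]
  push_cast
  ring

theorem log_bound (κ r s C0 : ℕ) (hr : 1 ≤ r) :
    ∃ C : ℝ, 0 < C ∧ ∀ ℓ : ℕ, 2 ≤ ℓ → ∀ B : ℝ, 1 ≤ B → ∃ n1 : ℕ, ∀ n ≥ n1,
      ∀ M1 ≤ C0 * ℓ ^ 3, ∀ Z : ℝ, 1 ≤ Z →
      Real.log (((r * ℓ + 1 : ℕ) : ℝ) * ((ℓ ^ r * (n + 1) : ℝ) ^ 2 * (Z ^ (r * ℓ)) ^ 2 *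
          (2 ^ (r * ℓ) * MR (1 - 1 / (ℓ : ℝ) ^ r) ^ (n + κ * (r * ℓ)) * B ^ (r * ℓ) *
            ((1 - 1 / (ℓ : ℝ) ^ r)⁻¹) ^ (pY κ r s ℓ n + pM κ r s ℓ + M1)) ^ 2)) ≤
        C * ℓ * n + 2 * r * ℓ * Real.log Z := by
  refine ⟨4 * r + 4 * s + 5, by positivity, ?_⟩
  intro ℓ hℓ B hB
  obtain ⟨q, hq⟩ : ∃ q : ℝ, q = (ℓ : ℝ) ^ r := ⟨_, rfl⟩
  have hℓR : (2 : ℝ) ≤ ℓ := by exact_mod_cast hℓ
  have hq2 : 2 ≤ q := by
    rw [hq]
    calc (2 : ℝ) ≤ ℓ := hℓR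
      _ = (ℓ : ℝ) ^ 1 := (pow_one _).symm
      _ ≤ (ℓ : ℝ) ^ r := pow_le_pow_right₀ (by linarith) hr
  have hq0 : 0 < q := by linarith
  have hMR : MR (1 - 1 / q) = 4 * q ^ 2 := by
    unfold MR
    field_simp
    ring
  obtain ⟨w, hw⟩ : ∃ w : ℝ, w = (1 - 1 / q)⁻¹ := ⟨_, rfl⟩
  have hw1 : w = q / (q - 1) := by
    have h1 : q - 1 ≠ 0 := by
      intro h
      linarith
    rw [hw]
    have h2 : 1 - 1 / q = (q - 1) / q := by field_simp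
    rw [h2, inv_div]
  have hq1 : 0 < q - 1 := by linarith
  have hw0 : 0 < w := by rw [hw1]; positivity
  have hlw : Real.log w ≤ 2 / q := by
    have h1 := Real.log_le_sub_one_of_pos hw0
    have h2 : w - 1 ≤ 2 / q := by
      rw [hw1, div_sub_one hq1.ne', div_le_div_iff₀ hq1 hq0]
      linarith
    linarith
  have hlw0 : 0 ≤ Real.log w := by
    apply Real.log_nonneg
    rw [hw1, le_div_iff₀ hq1]
    linarith
  have hB0 : 0 < B := by linarith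
  obtain ⟨K, hK⟩ : ∃ K : ℝ, K = Real.log ((r * ℓ + 1 : ℕ) : ℝ) + 2 * Real.log q +
      2 * (((r * ℓ : ℕ) : ℝ) * Real.log 2) +
      2 * ((κ : ℝ) * ((r * ℓ : ℕ) : ℝ) * ((2 * r + 1) * ℓ)) +
      2 * (((r * ℓ : ℕ) : ℝ) * Real.log B) + 4 * s * ((κ : ℝ) * ((r * ℓ : ℕ) : ℝ)) +
      2 * ((pM κ r s ℓ : ℝ) + C0 * ℓ ^ 3) := ⟨_, rfl⟩
  refine ⟨⌈K⌉₊, ?_⟩
  intro n hn M1 hM1 Z hZ
  have hnK : K ≤ n := (Nat.le_ceil K).trans (by exact_mod_cast hn)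
  have hn0 : (0 : ℝ) ≤ n := Nat.cast_nonneg n
  have hZ0 : 0 < Z := by linarith
  have hlq : Real.log q ≤ r * ℓ := by
    rw [hq, Real.log_pow]
    have h1 : Real.log (ℓ : ℝ) ≤ ℓ := by
      have := Real.log_le_sub_one_of_pos (by linarith : (0 : ℝ) < ℓ)
      linarith
    exact mul_le_mul_of_nonneg_left h1 (Nat.cast_nonneg r)
  have hl4 : Real.log (4 * q ^ 2) ≤ (2 * r + 1) * ℓ := by
    rw [Real.log_mul (by norm_num) (by positivity), Real.log_pow]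
    have h1 : Real.log 4 ≤ 2 := by
      have h2 : Real.log 4 = 2 * Real.log 2 := by
        rw [show (4 : ℝ) = 2 ^ 2 by norm_num, Real.log_pow]
        push_cast
        ring
      have h3 := Real.log_two_lt_d9
      rw [h2]
      linarith
    push_cast
    linarith
  have hln : Real.log ((n : ℝ) + 1) ≤ n := by
    have := Real.log_le_sub_one_of_pos (by linarith : (0 : ℝ) < (n : ℝ) + 1)
    linarith
  have hM1R : (M1 : ℝ) ≤ C0 * ℓ ^ 3 := by exact_mod_cast hM1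
  rw [← hq]
  have hexp := Dc_expand (a := ((r * ℓ + 1 : ℕ) : ℝ)) (b := q * ((n : ℝ) + 1)) (Z := Z)
    (m := MR (1 - 1 / q)) (B := B) (w := w) (r * ℓ) (n + κ * (r * ℓ))
    (pY κ r s ℓ n + pM κ r s ℓ + M1) (by positivity) (by positivity) hZ0
    (by rw [hMR]; positivity) hB0 hw0
  rw [← hw, hexp, hMR, Real.log_mul hq0.ne' (by positivity)]
  have hY : ((pY κ r s ℓ n : ℕ) : ℝ) = s * q * (n + κ * ((r * ℓ : ℕ) : ℝ)) := by
    unfold pY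
    rw [hq]
    push_cast
    ring
  have hYb : ((pY κ r s ℓ n + pM κ r s ℓ + M1 : ℕ) : ℝ) * Real.log w ≤
      2 * s * (n + κ * ((r * ℓ : ℕ) : ℝ)) + ((pM κ r s ℓ : ℝ) + C0 * ℓ ^ 3) := by
    rw [Nat.cast_add, Nat.cast_add, hY, add_assoc, add_mul]
    apply add_le_add
    · calc s * q * (n + κ * ((r * ℓ : ℕ) : ℝ)) * Real.log w ≤
          s * q * (n + κ * ((r * ℓ : ℕ) : ℝ)) * (2 / q) := by
            apply mul_le_mul_of_nonneg_left hlw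
            positivity
        _ = 2 * s * (n + κ * ((r * ℓ : ℕ) : ℝ)) := by
            field_simp
    · have h1 : Real.log w ≤ 1 := by
        refine hlw.trans ?_
        rw [div_le_one hq0]
        exact hq2
      calc ((pM κ r s ℓ : ℝ) + M1) * Real.log w ≤ ((pM κ r s ℓ : ℝ) + M1) * 1 :=
            mul_le_mul_of_nonneg_left h1 (by positivity)
        _ ≤ (pM κ r s ℓ : ℝ) + C0 * ℓ ^ 3 := by linarith
  have hNb : ((n + κ * (r * ℓ) : ℕ) : ℝ) * Real.log (4 * q ^ 2) ≤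
      (n + κ * ((r * ℓ : ℕ) : ℝ)) * ((2 * r + 1) * ℓ) := by
    have e : ((n + κ * (r * ℓ) : ℕ) : ℝ) = n + κ * ((r * ℓ : ℕ) : ℝ) := by push_cast; ring
    rw [e]
    exact mul_le_mul_of_nonneg_left hl4 (by positivity)
  have hZe : 2 * (((r * ℓ : ℕ) : ℝ) * Real.log Z) = 2 * r * ℓ * Real.log Z := by
    push_cast
    ring
  rw [hZe]
  have hfin : (4 * (r : ℝ) + 2) * ℓ * n + 4 * s * n + 3 * n ≤ (4 * r + 4 * s + 5) * ℓ * n := by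
    have h1 : 4 * (s : ℝ) * n ≤ 4 * s * ℓ * n := by
      have : (0 : ℝ) ≤ 4 * s * n := by positivity
      nlinarith
    have h2 : 3 * (n : ℝ) ≤ 3 * ℓ * n := by nlinarith
    nlinarith
  rw [hK] at hnK
  nlinarith [hYb, hNb, hln, hfin, hnK]

end Pool.Agent.H6.OR
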