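import Mathlib

/-!
# Row Dd (project OR): the final real inequality

Let `ℓ ≥ 1`, `r ≥ 1`, `M1 + 1 ≤ C1 ℓ³ + 1 ≤ 2 C1 ℓ³` (`C1 ≥ 1`), `rℓ + 1 ≤ 2 r ℓ`, so
`((M1+1)(rℓ+1))² + 1 ≤ (4 C1 r ℓ⁴)² + 1 ≤ D ℓ⁸`, `D = 17 C1² r²`.  The second factor is
`≤ n + 3 * 2 r ℓ (C ℓ n + 2 r ℓ lz) ≤ (1 + 6 r C) ℓ² n + 12 r² ℓ² lz`.  And `P ≥ ℓ^11 n / C1`.  So
`(c0/C1) ℓ^11 n - lz ≤ D (1 + 6 r C) ℓ^10 n + 12 r² D ℓ^10 lz`.  Let `ℓ ≥ ℓ1 ≥ 2 C1 D (1 + 6 r C)/c0`: then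
`D (1 + 6rC) ℓ^10 ≤ (c0/(2 C1)) ℓ^11`, so `(c0/(2 C1)) ℓ^11 n ≤ (12 r² D ℓ^10 + 1) lz`; divide.
-/

namespace Pool.Agent.H6.OR

theorem real_final (r : ℕ) (hr : 1 ≤ r) (c0 C C1 : ℝ) (hc0 : 0 < c0) (hC : 0 < C)
    (hC1 : 1 ≤ C1) :
    ∃ ℓ1 : ℕ, ∀ ℓ : ℕ, ℓ1 ≤ ℓ → ∃ c : ℝ, 0 < c ∧ ∀ (n P M1 : ℕ) (LP lz : ℝ), 0 ≤ lz →
      (M1 : ℝ) ≤ C1 * ℓ ^ 3 → (ℓ : ℝ) ^ 11 * n ≤ C1 * P → LP ≤ n →
      c0 * P - lz ≤ (((M1 + 1) * (r * ℓ + 1 : ℕ) : ℝ) ^ 2 + 1) *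
        (LP + 3 * (r * ℓ + 1 : ℕ) * (C * ℓ * n + 2 * r * ℓ * lz)) →
      c * n ≤ lz := by
  have hR : (1 : ℝ) ≤ (r : ℝ) := by exact_mod_cast hr
  obtain ⟨ℓ0, hℓ0⟩ := exists_nat_ge (2 * C1 * (17 * C1 ^ 2 * (r : ℝ) ^ 2) * (1 + 6 * r * C) / c0)
  refine ⟨ℓ0 + 1, fun ℓ hℓ => ?_⟩
  have hL1 : (1 : ℝ) ≤ (ℓ : ℝ) := by
    have : 1 ≤ ℓ := by omega
    exact_mod_cast this
  have hL0 : (ℓ0 : ℝ) ≤ (ℓ : ℝ) := by
    have : ℓ0 ≤ ℓ := by omega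
    exact_mod_cast this
  have hbig : 2 * C1 * (17 * C1 ^ 2 * (r : ℝ) ^ 2) * (1 + 6 * r * C) ≤ c0 * ℓ := by
    have h := le_trans hℓ0 hL0
    rw [div_le_iff₀ hc0] at h
    linarith
  generalize hLdef : (ℓ : ℝ) = L at *
  generalize hRdef : (r : ℝ) = R at *
  have hRpos : 0 < R := by linarith
  have hLpos : 0 < L := by linarith
  have hC1pos : 0 < C1 := by linarith
  have hDpos : 0 < 17 * C1 ^ 2 * R ^ 2 := by positivity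
  generalize hDdef : 17 * C1 ^ 2 * R ^ 2 = D at *
  have hden : 0 < 12 * R ^ 2 * D * L ^ 10 + 1 := by positivity
  refine ⟨c0 / (2 * C1) * L ^ 11 / (12 * R ^ 2 * D * L ^ 10 + 1), by positivity, ?_⟩
  intro n P M1 LP lz hlz hM1 hP hLP hmain
  have hN : (0 : ℝ) ≤ (n : ℝ) := Nat.cast_nonneg n
  have hm : (0 : ℝ) ≤ (M1 : ℝ) := Nat.cast_nonneg M1
  have hcast : ((r * ℓ + 1 : ℕ) : ℝ) = R * L + 1 := by
    push_cast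
    rw [hRdef, hLdef]
  rw [hcast] at hmain
  generalize (n : ℝ) = N at *
  generalize (P : ℝ) = P' at *
  generalize (M1 : ℝ) = m at *
  have hRL1 : 1 ≤ R * L := by nlinarith
  have h1 : R * L + 1 ≤ 2 * R * L := by linarith
  have hL3 : 1 ≤ L ^ 3 := one_le_pow₀ hL1
  have hL2 : 1 ≤ L ^ 2 := one_le_pow₀ hL1
  have hCL3 : 1 ≤ C1 * L ^ 3 := by nlinarith
  have h2 : m + 1 ≤ 2 * C1 * L ^ 3 := by linarith
  have h3 : (m + 1) * (R * L + 1) ≤ 4 * C1 * R * L ^ 4 := by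
    calc (m + 1) * (R * L + 1) ≤ (2 * C1 * L ^ 3) * (2 * R * L) := by
          apply mul_le_mul h2 h1 (by positivity) (by positivity)
      _ = 4 * C1 * R * L ^ 4 := by ring
  have h4 : ((m + 1) * (R * L + 1)) ^ 2 + 1 ≤ D * L ^ 8 := by
    have h41 : ((m + 1) * (R * L + 1)) ^ 2 ≤ (4 * C1 * R * L ^ 4) ^ 2 :=
      pow_le_pow_left₀ (by positivity) h3 2
    have h42 : (1 : ℝ) ≤ C1 ^ 2 * R ^ 2 * L ^ 8 := by
      have a1 : (1 : ℝ) ≤ C1 ^ 2 := one_le_pow₀ hC1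
      have a2 : (1 : ℝ) ≤ R ^ 2 := one_le_pow₀ hR
      have a3 : (1 : ℝ) ≤ L ^ 8 := one_le_pow₀ hL1
      have a4 : (1 : ℝ) ≤ C1 ^ 2 * R ^ 2 := by nlinarith
      nlinarith
    rw [← hDdef]
    calc ((m + 1) * (R * L + 1)) ^ 2 + 1 ≤ (4 * C1 * R * L ^ 4) ^ 2 + C1 ^ 2 * R ^ 2 * L ^ 8 := by
          linarith
      _ = 17 * C1 ^ 2 * R ^ 2 * L ^ 8 := by ring
  have hS0 : 0 ≤ C * L * N + 2 * R * L * lz := by positivity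
  have h5 : LP + 3 * (R * L + 1) * (C * L * N + 2 * R * L * lz) ≤
      (1 + 6 * R * C) * L ^ 2 * N + 12 * R ^ 2 * L ^ 2 * lz := by
    have h51 : 3 * (R * L + 1) * (C * L * N + 2 * R * L * lz) ≤
        3 * (2 * R * L) * (C * L * N + 2 * R * L * lz) := by
      apply mul_le_mul_of_nonneg_right _ hS0
      linarith
    have h52 : N ≤ L ^ 2 * N := by nlinarith
    calc LP + 3 * (R * L + 1) * (C * L * N + 2 * R * L * lz)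
        ≤ L ^ 2 * N + 3 * (2 * R * L) * (C * L * N + 2 * R * L * lz) := by linarith
      _ = (1 + 6 * R * C) * L ^ 2 * N + 12 * R ^ 2 * L ^ 2 * lz := by ring
  have hS1 : 0 ≤ (1 + 6 * R * C) * L ^ 2 * N + 12 * R ^ 2 * L ^ 2 * lz := by positivity
  have h6 : c0 * P' - lz ≤ D * L ^ 8 * ((1 + 6 * R * C) * L ^ 2 * N + 12 * R ^ 2 * L ^ 2 * lz) := by
    refine hmain.trans ?_
    refine (mul_le_mul_of_nonneg_left h5 (by positivity)).trans ?_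
    exact mul_le_mul_of_nonneg_right h4 hS1
  have h7 : c0 / C1 * (L ^ 11 * N) ≤ c0 * P' := by
    rw [div_mul_eq_mul_div, div_le_iff₀ hC1pos]
    nlinarith
  have h8 : D * (1 + 6 * R * C) * L ^ 10 * N ≤ c0 / (2 * C1) * L ^ 11 * N := by
    apply mul_le_mul_of_nonneg_right _ hN
    have h81 : D * (1 + 6 * R * C) ≤ c0 / (2 * C1) * L := by
      rw [div_mul_eq_mul_div, le_div_iff₀ (by positivity)]
      linarith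
    calc D * (1 + 6 * R * C) * L ^ 10 ≤ (c0 / (2 * C1) * L) * L ^ 10 := by
          apply mul_le_mul_of_nonneg_right h81 (by positivity)
      _ = c0 / (2 * C1) * L ^ 11 := by ring
  have h9 : c0 / C1 * (L ^ 11 * N) = c0 / (2 * C1) * L ^ 11 * N + c0 / (2 * C1) * L ^ 11 * N := by
    field_simp
    ring
  have h10 : D * L ^ 8 * ((1 + 6 * R * C) * L ^ 2 * N + 12 * R ^ 2 * L ^ 2 * lz) =
      D * (1 + 6 * R * C) * L ^ 10 * N + 12 * R ^ 2 * D * L ^ 10 * lz := by ring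
  have h11 : c0 / (2 * C1) * L ^ 11 * N ≤ (12 * R ^ 2 * D * L ^ 10 + 1) * lz := by
    rw [h10] at h6
    have : (12 * R ^ 2 * D * L ^ 10 + 1) * lz = 12 * R ^ 2 * D * L ^ 10 * lz + lz := by ring
    rw [this]
    linarith
  rw [div_mul_eq_mul_div, div_le_iff₀ hden]
  linarith

end Pool.Agent.H6.OR
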