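import Pool.Agent.H6.OR.Bk
import Pool.Agent.H6.OR.Cf
import Pool.Agent.H6.OR.Da
import Pool.Agent.H6.OR.Db
import Pool.Agent.H6.OR.Dc
import Pool.Agent.H6.OR.Dd

/-!
# Row De (project OR): the lower bound for `log Z0` at a middle prime

Constants: `C, ℓ1` from `params`; `C'` from `log_bound` (`C0 = C`); `ℓ1'` from `real_final` (`c0 = 1/4`, `C = C'`,
`C1 = C`); `X0` from `prime_sum_lower`.  Let `ℓ` be a middle prime, `ℓ ≥ max ℓ1 ℓ1' (p0+1) 2`; `ρ = 1 - 1/ℓ^r`, and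
`B ≥ 1` with `Bd ρ B (F1 f)` (`h.bdd`; enlarge `B`).  For `n` large (`params`, `log_bound`, `P ≥ X0`,
`P ≥ 4 p0`: both from `ℓ^11 n ≤ C P`; `log (ℓ^r (n+1)) ≤ n`):
* `core_data` with `P = pP`, `Y = pY`, `M = pM`, `M1 = pM1` gives `a, l0`.
* `elim` with `d = rℓ + 1`, `v (l, m) j = a l m j`, bound `B' = N² (Z^(rℓ))² Q²` (`≥ 1`: enlarge by `max 1`, or prove
  `B' ≥ 1`), `Pr` = the primes `p ≤ P`, `P < 4 p`, `¬ Ord0 f p` (then `p0 < p`, `n < κ p r ℓ`, `Y < p (M1+1)`), `w_j = c^j`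
  (`Finset.sum_range` to pass from `Finset.range (rℓ+1)` to `Fin (rℓ+1)`).
* `prime_sum_lower` (`X = P ≤ Y`): `P/4 - log Z0 ≤ ∑_(Pr) log p`.
* `log_bound` with `Z = Z0 f Y ≥ 1`, and `real_final` with `LP = log P ≤ log (ℓ^r (n+1)) ≤ n`, `lz = log Z0`.
-/

open PowerSeries

namespace Pool.Agent.H6.OR

open Pool.Agent.H85.OT

private theorem De_log (L : ℕ) (hL : 1 ≤ L) (n : ℕ) (hn : 4 * L ≤ n) :
    Real.log ((L * (n + 1) : ℕ) : ℝ) ≤ n := by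
  have hn1 : 1 ≤ n := by omega
  have hnR : (4 : ℝ) * L ≤ n := by exact_mod_cast hn
  have hn1R : (1 : ℝ) ≤ n := by exact_mod_cast hn1
  have hLR : (1 : ℝ) ≤ L := by exact_mod_cast hL
  have h1 := Real.quadratic_le_exp_of_nonneg (x := (n : ℝ)) (Nat.cast_nonneg n)
  have h2 : ((L * (n + 1) : ℕ) : ℝ) ≤ Real.exp n := by
    push_cast
    nlinarith
  have h3 : (0 : ℝ) < ((L * (n + 1) : ℕ) : ℝ) := by
    have : 0 < L * (n + 1) := by positivity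
    exact_mod_cast this
  calc Real.log ((L * (n + 1) : ℕ) : ℝ) ≤ Real.log (Real.exp n) := Real.log_le_log h3 h2
    _ = n := Real.log_exp _

private theorem De_rho {ℓ r : ℕ} (hℓ : 2 ≤ ℓ) (hr : 1 ≤ r) :
    0 < 1 - 1 / (ℓ : ℝ) ^ r ∧ 1 - 1 / (ℓ : ℝ) ^ r < 1 := by
  have h1 : (2 : ℝ) ≤ (ℓ : ℝ) ^ r := by
    have h2 : 2 ≤ ℓ ^ r := by
      calc 2 ≤ ℓ := hℓ
        _ = ℓ ^ 1 := (pow_one ℓ).symm
        _ ≤ ℓ ^ r := Nat.pow_le_pow_right (by omega) hr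
    exact_mod_cast h2
  have h3 : 0 < (ℓ : ℝ) ^ r := by linarith
  have h4 : 1 / (ℓ : ℝ) ^ r ≤ 1 / 2 := one_div_le_one_div_of_le (by norm_num) h1
  have h5 : 0 < 1 / (ℓ : ℝ) ^ r := by positivity
  constructor <;> linarith

theorem middle_bound (f : ℤ⟦X⟧) (κ r s p0 : ℕ) (h : OrdData f κ r s p0) (hr : 14 ≤ r) :
    ∃ ℓ1 : ℕ, ∀ ℓ : ℕ, ℓ1 ≤ ℓ → ℓ.Prime → ¬ Ord0 f ℓ → ¬ Sl2 f ℓ →
      ∃ c : ℝ, 0 < c ∧ ∃ n1 : ℕ, ∀ n ≥ n1, c * n ≤ Real.log (Z0 f (pY κ r s ℓ n)) := by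
  obtain ⟨C, ℓa, hC1, hℓa, hpar⟩ := params κ r s h.kpos h.spos hr
  obtain ⟨C', hC', hlog⟩ := log_bound κ r s C (by omega)
  obtain ⟨ℓb, hreal⟩ := real_final r (by omega) (1 / 4) C' C (by norm_num) hC'
    (by exact_mod_cast hC1)
  obtain ⟨X0, hX⟩ := prime_sum_lower f
  refine ⟨max (max ℓa ℓb) (p0 + 1), fun ℓ hℓ hℓp hO hS => ?_⟩
  have hℓ1 : ℓa ≤ ℓ := (le_max_left _ _).trans ((le_max_left _ _).trans hℓ)
  have hℓ2 : ℓb ≤ ℓ := (le_max_right _ _).trans ((le_max_left _ _).trans hℓ)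
  have hℓ3 : p0 < ℓ := (le_max_right _ _).trans hℓ
  have hℓ4 : 2 ≤ ℓ := hℓa.trans hℓ1
  obtain ⟨c, hc, hfin⟩ := hreal ℓ hℓ2
  obtain ⟨n1, hn1⟩ := hpar ℓ hℓ1
  obtain ⟨hρ', hρ1'⟩ := De_rho (r := r) hℓ4 (by omega)
  obtain ⟨B0, hB0⟩ := h.bdd _ hρ' hρ1'
  have hB : (1 : ℝ) ≤ max 1 B0 := le_max_left _ _
  have hb : Bd (1 - 1 / (ℓ : ℝ) ^ r) (max 1 B0) (F1 f) := fun N => (hB0 N).trans (le_max_right _ _)
  obtain ⟨B, hBd⟩ : ∃ B, B = max 1 B0 := ⟨_, rfl⟩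
  rw [← hBd] at hB hb
  obtain ⟨n2, hn2⟩ := hlog ℓ hℓ4 B hB
  obtain ⟨ρ, hρd⟩ : ∃ ρ, ρ = 1 - 1 / (ℓ : ℝ) ^ r := ⟨_, rfl⟩
  rw [← hρd] at hb hn2 hρ' hρ1'
  refine ⟨c, hc, max (max n1 n2) (max (C * (X0 + 4 * p0)) (4 * ℓ ^ r)), fun n hn => ?_⟩
  have hna : n1 ≤ n := (le_max_left _ _).trans ((le_max_left _ _).trans hn)
  have hnb : n2 ≤ n := (le_max_right _ _).trans ((le_max_left _ _).trans hn)
  have hnc : C * (X0 + 4 * p0) ≤ n := (le_max_left _ _).trans ((le_max_right _ _).trans hn)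
  have hnd : 4 * ℓ ^ r ≤ n := (le_max_right _ _).trans ((le_max_right _ _).trans hn)
  obtain ⟨hP1, hcnt, hM1a, hM1b, hP11, hPr, hPY, hpn, hpY⟩ := hn1 n hna
  have hlogn := hn2 n hnb
  obtain ⟨P, hPd⟩ : ∃ P, P = pP κ r s ℓ n := ⟨_, rfl⟩
  obtain ⟨Y, hYd⟩ : ∃ Y, Y = pY κ r s ℓ n := ⟨_, rfl⟩
  obtain ⟨M, hMd⟩ : ∃ M, M = pM κ r s ℓ := ⟨_, rfl⟩
  obtain ⟨M1, hM1d⟩ : ∃ M1, M1 = pM1 κ r s ℓ n := ⟨_, rfl⟩
  rw [← hPd] at hP1 hcnt hP11 hPr hPY hpn hpY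
  rw [← hMd] at hcnt
  rw [← hM1d] at hM1a hM1b hpY
  rw [← hYd] at hM1b hPY hpY
  rw [← hYd, ← hMd] at hlogn
  rw [← hYd]
  have hPX : X0 + 4 * p0 ≤ P := by
    have h1 : n ≤ C * P := by
      refine le_trans ?_ hP11
      calc n = 1 * n := (one_mul n).symm
        _ ≤ ℓ ^ 11 * n := Nat.mul_le_mul_right _ (Nat.one_le_pow _ _ (by omega))
    exact Nat.le_of_mul_le_mul_left (hnc.trans h1) (by omega)
  have hLP : Real.log P ≤ n := by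
    refine le_trans (Real.log_le_log (by exact_mod_cast hP1) ?_)
      (De_log (ℓ ^ r) (Nat.one_le_pow _ _ (by omega)) n hnd)
    exact_mod_cast hPr
  have hZ1 : (1 : ℝ) ≤ (Z0 f Y : ℝ) := by exact_mod_cast Z0_pos f Y
  have hlz : 0 ≤ Real.log (Z0 f Y) := Real.log_nonneg hZ1
  have hfact : Fact ℓ.Prime := ⟨hℓp⟩
  obtain ⟨a, l0, hl0, ha0, haj, habd, hline⟩ := core_data f κ r s p0 h ℓ hℓ3 hO hS n P Y M M1 hP1
    hMd hYd hcnt hM1b hρ' hρ1' hB hb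
  have hd : 0 < r * ℓ + 1 := Nat.succ_pos _
  have hlog2 := hlogn M1 hM1a (Z0 f Y : ℝ) hZ1
  obtain ⟨B', hB'd⟩ : ∃ B' : ℝ, B' = (ℓ ^ r * (n + 1) : ℝ) ^ 2 * ((Z0 f Y : ℝ) ^ (r * ℓ)) ^ 2 *
      (2 ^ (r * ℓ) * MR ρ ^ (n + κ * (r * ℓ)) * B ^ (r * ℓ) * (ρ⁻¹) ^ (Y + M + M1)) ^ 2 :=
    ⟨_, rfl⟩
  rw [← hB'd] at hlog2
  have hB' : 1 ≤ B' := by
    have e1 : (1 : ℝ) ≤ (ℓ : ℝ) ^ r * ((n : ℝ) + 1) := by
      have e0 : 1 ≤ ℓ ^ r * (n + 1) := Nat.one_le_iff_ne_zero.2 (by positivity)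
      exact_mod_cast e0
    have e2 : 1 ≤ MR ρ := Bk_MR hρ' hρ1'
    have e3 : 1 ≤ ρ⁻¹ := (one_le_inv₀ hρ').2 hρ1'.le
    rw [hB'd]
    refine one_le_mul_of_one_le_of_one_le (one_le_mul_of_one_le_of_one_le (one_le_pow₀ e1)
      (one_le_pow₀ (one_le_pow₀ hZ1))) (one_le_pow₀ ?_)
    exact one_le_mul_of_one_le_of_one_le (one_le_mul_of_one_le_of_one_le
      (one_le_mul_of_one_le_of_one_le (one_le_pow₀ one_le_two) (one_le_pow₀ e2))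
      (one_le_pow₀ hB)) (one_le_pow₀ e3)
  have hsum := hX P Y (by omega) hPY
  classical
  have hel := hsum.trans (Pool.Agent.H6.OR.elim hd Y M1 P l0 hl0
    (fun g j => a g.1 g.2 (j : ℕ)) B' hB'
    (fun g h1 h2 j => by
      rw [hB'd]
      exact habd g.1 h1 g.2 h2 j)
    ha0
    (fun j hj => by
      refine haj j ?_
      rcases Nat.eq_zero_or_pos (j : ℕ) with h0 | h0
      · exact absurd (Fin.ext h0) hj
      · exact h0)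
    _
    (fun p hp => by
      rw [Finset.mem_filter, Finset.mem_range] at hp
      obtain ⟨hp1, hp2, hp3, hp4⟩ := hp
      refine ⟨hp2, by omega, hpY p hp3, ?_⟩
      obtain ⟨c', hc'⟩ := hline p hp2 (by omega) hp4 (by omega) (hpn p hp3)
      refine ⟨fun j => c' ^ (j : ℕ), pow_zero c', fun u hu => ?_⟩
      have h6 := hc' u hu
      rw [← h6]
      refine Finset.sum_congr rfl fun m _ => ?_
      rw [Finset.sum_range (fun j => c' ^ j * ((a (u - p * m) m j : ℤ) : ZMod p))]))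
  refine hfin n P M1 (Real.log P) (Real.log (Z0 f Y)) hlz (by exact_mod_cast hM1a)
    (by exact_mod_cast hP11) hLP (hel.trans ?_)
  refine mul_le_mul_of_nonneg_left ?_ (by positivity)
  have h7 : (3 : ℝ) * ((r * ℓ + 1 : ℕ) : ℝ) * Real.log (((r * ℓ + 1 : ℕ) : ℝ) * B') ≤
      3 * ((r * ℓ + 1 : ℕ) : ℝ) * (C' * ℓ * n + 2 * r * ℓ * Real.log (Z0 f Y)) :=
    mul_le_mul_of_nonneg_left hlog2 (by positivity)
  linarith

end Pool.Agent.H6.OR
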