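import Pool.Agent.H85.OT.CDef
import Pool.Agent.H85.OT.ADef

/-!
# Definitions for the project OR (ordinary primes of eigenforms)

* `dd R i` : `q ↦ q^(2^i)` on `R⟦X⟧`;
* `mon R G b = ∏_i G(q^(2^i))^(b i)`, `wt b = ∑ b i`;
* `Ix r E n` : index set (exponents `e_i < E`, `i < r`, and `v ≤ n`), `ex s` the exponent vector;
* `gu R r κ E n s = U^(n + κ(rE - |e|) - v) V^v`;
* `PP R r κ E n t G = ∑_s t_s gu_s mon G e` (the auxiliary polynomial evaluated at `G`);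
* `Hh R p hp c G = G - c G(q^p)`;
* `BB R r κ E n G s l m j` : coefficient of `q^l t^m c^j` of `gu_s(q) ∏_i (G_i(q) - c G_i(t))^(e_i)`;
* `AA R r κ E n t G l m j = ∑_s t_s BB_s` : coefficient of `q^l t^m c^j` of `P(G(q) - c G(t))`;
* `IsRed f p g` : `g` is the reduction mod `p` of `F1 f = ∑ (a_n/n) q^n`;
* `OrdData f κ r s p0` : what parts B-D use about `f`.
-/

open PowerSeries

namespace Pool.Agent.H6.OR

open Pool.Agent.H85.OT

/-- `q ↦ q^(2^i)` -/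
noncomputable def dd (R : Type*) [CommRing R] (i : ℕ) : R⟦X⟧ →ₐ[R] R⟦X⟧ :=
  PowerSeries.expand (2 ^ i) (pow_ne_zero i two_ne_zero)

/-- `∏_i G(q^(2^i))^(b i)` -/
noncomputable def mon (R : Type*) [CommRing R] {r : ℕ} (G : R⟦X⟧) (b : Fin r → ℕ) : R⟦X⟧ :=
  ∏ i : Fin r, dd R (i : ℕ) G ^ b i

/-- `|b| = ∑ b i` -/
def wt {r : ℕ} (b : Fin r → ℕ) : ℕ := ∑ i, b i

/-- the index set: exponents `e_i < E` (`i < r`) and `v ≤ n` -/
abbrev Ix (r E n : ℕ) : Type := (Fin r → Fin E) × Fin (n + 1)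

/-- the exponent vector -/
def ex {r E n : ℕ} (s : Ix r E n) : Fin r → ℕ := fun i => (s.1 i : ℕ)

/-- `U^(n + κ(rE - |e|) - v) V^v` -/
noncomputable def gu (R : Type*) [CommRing R] (r κ E n : ℕ) (s : Ix r E n) : R⟦X⟧ :=
  U R ^ (n + κ * (r * E - wt (ex s)) - (s.2 : ℕ)) * V R ^ (s.2 : ℕ)

/-- `∑_s t_s gu_s mon G e_s` -/
noncomputable def PP (R : Type*) [CommRing R] (r κ E n : ℕ) (t : Ix r E n → R) (G : R⟦X⟧) : R⟦X⟧ :=
  ∑ s, PowerSeries.C (t s) * (gu R r κ E n s * mon R G (ex s))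

/-- `G - c G(q^p)` -/
noncomputable def Hh (R : Type*) [CommRing R] (p : ℕ) (hp : p ≠ 0) (c : R) (G : R⟦X⟧) : R⟦X⟧ :=
  G - PowerSeries.C c * PowerSeries.expand p hp G

/-- coefficient of `q^l t^m c^j` of `gu_s(q) ∏_i (G_i(q) - c G_i(t))^(e_i)` -/
noncomputable def BB (R : Type*) [CommRing R] (r κ E n : ℕ) (G : R⟦X⟧) (s : Ix r E n)
    (l m j : ℕ) : R :=
  ∑ a ∈ (Fintype.piFinset fun i => Finset.range (ex s i + 1)).filter (fun a => wt a = j),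
    (-1) ^ j * (∏ i, ((ex s i).choose (a i) : R)) *
      (PowerSeries.coeff l (gu R r κ E n s * mon R G (fun i => ex s i - a i)) *
        PowerSeries.coeff m (mon R G a))

/-- coefficient of `q^l t^m c^j` of `P(G(q) - c G(t))` -/
noncomputable def AA (R : Type*) [CommRing R] (r κ E n : ℕ) (t : Ix r E n → R) (G : R⟦X⟧)
    (l m j : ℕ) : R :=
  ∑ s, t s * BB R r κ E n G s l m j

/-- `g` is the reduction mod `p` of `F1 f` -/
def IsRed (f : ℤ⟦X⟧) (p : ℕ) [Fact p.Prime] (g : (ZMod p)⟦X⟧) : Prop :=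
  ∃ G : ℤ_[p]⟦X⟧,
    PowerSeries.map (PadicInt.Coe.ringHom (p := p)) G =
      PowerSeries.map (Rat.castHom ℚ_[p]) (F1 f) ∧
    PowerSeries.map (PadicInt.toZMod (p := p)) G = g

/-- the properties of `f` used in parts B-D -/
structure OrdData (f : ℤ⟦X⟧) (κ r s p0 : ℕ) : Prop where
  f0 : PowerSeries.coeff 0 f = 0
  kpos : 1 ≤ κ
  rpos : 1 ≤ r
  spos : 1 ≤ s
  bdd : ∀ ρ : ℝ, 0 < ρ → ρ < 1 → ∃ B : ℝ, Bd ρ B (F1 f)
  form : ∀ (p : ℕ) [hp : Fact p.Prime], p0 < p → ¬ Ord0 f p →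
    ∃ (g : (ZMod p)⟦X⟧) (c : ZMod p), IsRed f p g ∧
      ∀ (E n : ℕ) (t : Ix r E n → ZMod p),
        (∀ l ≤ s * (n + κ * p * (r * E)),
          PowerSeries.coeff l (PP (ZMod p) r κ E n t (Hh (ZMod p) p hp.out.ne_zero c g)) = 0) →
        PP (ZMod p) r κ E n t (Hh (ZMod p) p hp.out.ne_zero c g) = 0
  ze : ∀ (p : ℕ) [Fact p.Prime], p0 < p → ¬ Ord0 f p → ¬ Sl2 f p →
    ∀ g : (ZMod p)⟦X⟧, IsRed f p g → ∀ (n : ℕ) (t : Ix r p n → ZMod p), t ≠ 0 →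
      ∃ l ≤ s * p ^ r * (n + κ * (r * p)), PowerSeries.coeff l (PP (ZMod p) r κ p n t g) ≠ 0

end Pool.Agent.H6.OR
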