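import Pool.Agent.H6.OR.DDefs
import Pool.Agent.H85.OT.Adich

/-!
# Row Df (project OR): from `log Z0` to positive lower density; middle primes

* `posLower_of_log`: `log Z0 f Y ≤ cnt (Ord0 f) Y * log Y` (`log_Z0_le` with `Adich_card`, as in the last part of
  `Pool/Agent/H85/OT/Adich.lean`).  Given `x` large let `n = x / A - b` (so `A (n + b) ≤ x` and
  `n ≥ x/(2A)` for `x` large); then `c n ≤ log Z0 f (A(n+b)) ≤ cnt (Ord0 f) x * log x` (monotone), and
  `π(x) log x ≤ C1 x` (`pi_up`), so `cnt (Ord0 f) x ≥ c x/(2A log x) ≥ (c/(2 A C1)) π(x)`.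
* `middle_exists`: if all primes `ℓ ≥ L` are in `Ord0` or in `Sl2`, then every prime `≥ L` with `¬ Sl2` is in `Ord0`,
  so `cnt (Ord0 f) x ≥ cnt (¬ Sl2) x - L ≥ c π(x) - L ≥ (c/2) π(x)` for large `x` (`π(x) → ∞`,
  `Nat.tendsto_primeCounting`), i.e. `PosLower (Ord0 f)`.
-/

open PowerSeries

namespace Pool.Agent.H6.OR

open Pool.Agent.H85.OT

theorem ORDf_cnt (P Q : ℕ → Prop) (L : ℕ) (h : ∀ p : ℕ, L ≤ p → p.Prime → P p → Q p) (x : ℕ) :
    cnt P x ≤ L + cnt Q x := by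
  classical
  unfold cnt
  have hs : (Finset.range (x + 1)).filter (fun p => p.Prime ∧ P p) ⊆
      Finset.range L ∪ (Finset.range (x + 1)).filter (fun p => p.Prime ∧ Q p) := by
    intro p hp
    rw [Finset.mem_filter] at hp
    rw [Finset.mem_union, Finset.mem_filter, Finset.mem_range]
    by_cases hpL : p < L
    · exact Or.inl hpL
    · exact Or.inr ⟨hp.1, hp.2.1, h p (by omega) hp.2.1 hp.2.2⟩
  have h1 := Finset.card_le_card hs
  have h2 := Finset.card_union_le (Finset.range L)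
    ((Finset.range (x + 1)).filter (fun p => p.Prime ∧ Q p))
  rw [Finset.card_range] at h2
  have h3 := h1.trans h2
  exact h3

theorem posLower_of_log (f : ℤ⟦X⟧) (A b : ℕ) (hA : 1 ≤ A) (c : ℝ) (hc : 0 < c) (n1 : ℕ)
    (h : ∀ n ≥ n1, c * n ≤ Real.log (Z0 f (A * (n + b)))) : PosLower (Ord0 f) := by
  obtain ⟨C1, hC1, hpi⟩ := pi_up
  have hA0 : (0 : ℝ) < (A : ℝ) := by exact_mod_cast hA
  refine ⟨c / (2 * A * C1), by positivity, max (2 * A * (1 + b)) (max (2 * A * n1) 2), ?_⟩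
  intro x hx
  have hx1 : 2 * A * (1 + b) ≤ x := (le_max_left _ _).trans hx
  have hx2 : 2 * A * n1 ≤ x := (le_max_left _ _).trans ((le_max_right _ _).trans hx)
  have hx3 : 2 ≤ x := (le_max_right _ _).trans ((le_max_right _ _).trans hx)
  obtain ⟨q, hq⟩ : ∃ q : ℕ, q = x / A := ⟨_, rfl⟩
  have hq1 : A * q ≤ x := by rw [hq]; exact Nat.mul_div_le x A
  have hq2 : x < A * (q + 1) := by rw [hq]; exact Nat.lt_mul_div_succ x (by omega)
  have hqb : 1 + b ≤ q := by
    by_contra hcon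
    have h1 : q + 1 ≤ 1 + b := by omega
    have h2 : A * (q + 1) ≤ A * (1 + b) := Nat.mul_le_mul_left _ h1
    have h3 : 2 * A * (1 + b) = A * (1 + b) + A * (1 + b) := by ring
    omega
  obtain ⟨n, hn⟩ : ∃ n : ℕ, n + b = q := ⟨q - b, by omega⟩
  have hn1 : 1 ≤ n := by omega
  have hxr : (x : ℝ) ≤ 2 * A * n := by
    have h1 : (x : ℝ) ≤ A * (q + 1) := by exact_mod_cast hq2.le
    have h2 : (2 : ℝ) * A * (1 + b) ≤ x := by exact_mod_cast hx1
    have h3 : (n : ℝ) + b = q := by exact_mod_cast hn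
    rw [← h3] at h1
    nlinarith
  have hnn : n1 ≤ n := by
    have h1 : (2 : ℝ) * A * n1 ≤ x := by exact_mod_cast hx2
    have h2 : (2 * (A : ℝ)) * n1 ≤ (2 * A) * n := h1.trans hxr
    have h3 : (n1 : ℝ) ≤ n := le_of_mul_le_mul_left h2 (by positivity)
    exact_mod_cast h3
  have h1 := h n hnn
  have hY : 1 ≤ A * (n + b) := Nat.mul_pos (by omega) (by omega)
  have hYx : A * (n + b) ≤ x := by rw [hn]; exact hq1
  have h2 := log_Z0_le f (A * (n + b)) hY
  rw [Adich_card] at h2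
  have h3 : (cnt (Ord0 f) (A * (n + b)) : ℝ) ≤ cnt (Ord0 f) x := by
    exact_mod_cast Adich_mono _ hYx
  have h4 : Real.log ((A * (n + b) : ℕ) : ℝ) ≤ Real.log (x : ℝ) := by
    apply Real.log_le_log
    · exact_mod_cast hY
    · exact_mod_cast hYx
  have hlog0 : 0 < Real.log (x : ℝ) := by
    apply Real.log_pos
    exact_mod_cast hx3
  have h5 : c * n ≤ (cnt (Ord0 f) x : ℝ) * Real.log (x : ℝ) := by
    refine h1.trans (h2.trans ?_)
    exact mul_le_mul h3 h4 (Real.log_nonneg (by exact_mod_cast hY)) (Nat.cast_nonneg _)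
  have h6 := hpi x hx3
  refine le_of_mul_le_mul_right ?_ hlog0
  refine le_trans ?_ h5
  calc c / (2 * A * C1) * (Nat.primeCounting x : ℝ) * Real.log (x : ℝ) =
        c / (2 * A * C1) * ((Nat.primeCounting x : ℝ) * Real.log (x : ℝ)) := by ring
    _ ≤ c / (2 * A * C1) * (C1 * x) := by
        apply mul_le_mul_of_nonneg_left h6
        positivity
    _ ≤ c / (2 * A * C1) * (C1 * (2 * A * n)) := by
        apply mul_le_mul_of_nonneg_left _ (by positivity)
        exact mul_le_mul_of_nonneg_left hxr hC1.le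
    _ = c * n := by
        field_simp

theorem middle_exists (f : ℤ⟦X⟧) (h1 : PosLower (fun p => ¬ Sl2 f p))
    (h2 : ¬ PosLower (Ord0 f)) (L : ℕ) :
    ∃ ℓ ≥ L, ℓ.Prime ∧ ¬ Ord0 f ℓ ∧ ¬ Sl2 f ℓ := by
  classical
  by_contra hcon
  apply h2
  have hall : ∀ p : ℕ, L ≤ p → p.Prime → ¬ Sl2 f p → Ord0 f p := by
    intro p hp hpp hs
    by_contra ho
    exact hcon ⟨p, hp, hpp, ho, hs⟩
  obtain ⟨c, hc, x0, hx0⟩ := h1
  obtain ⟨x1, hx1⟩ := Filter.eventually_atTop.1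
    (Nat.tendsto_primeCounting.eventually_ge_atTop (Nat.ceil (2 * (L : ℝ) / c)))
  refine ⟨c / 2, by positivity, max x0 x1, ?_⟩
  intro x hx
  have a1 := hx0 x ((le_max_left _ _).trans hx)
  have a2 := hx1 x ((le_max_right _ _).trans hx)
  have a3 : 2 * (L : ℝ) / c ≤ (Nat.primeCounting x : ℝ) :=
    (Nat.le_ceil _).trans (by exact_mod_cast a2)
  have a4 : cnt (fun p => ¬ Sl2 f p) x ≤ L + cnt (Ord0 f) x :=
    ORDf_cnt _ _ L (fun p hp hpp hs => hall p hp hpp hs) x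
  have a5 : (cnt (fun p => ¬ Sl2 f p) x : ℝ) ≤ L + cnt (Ord0 f) x := by exact_mod_cast a4
  rw [div_le_iff₀ hc] at a3
  linarith

end Pool.Agent.H6.OR
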