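import Pool.Agent.H6.OR.De
import Pool.Agent.H6.OR.Df

/-!
# Row Dg (project OR): parts B-D together
-/

open PowerSeries

namespace Pool.Agent.H6.OR

open Pool.Agent.H85.OT

theorem ord_posLower (f : ℤ⟦X⟧) (κ r s p0 : ℕ) (h : OrdData f κ r s p0) (hr : 14 ≤ r)
    (h1 : PosLower (fun p => ¬ Sl2 f p)) : PosLower (Ord0 f) := by
  by_contra h2
  obtain ⟨ℓ1, hℓ1⟩ := middle_bound f κ r s p0 h hr
  obtain ⟨ℓ, hge, hp, hO, hS⟩ := middle_exists f h1 h2 (max ℓ1 1)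
  obtain ⟨c, hc, n1, hn1⟩ := hℓ1 ℓ ((le_max_left _ _).trans hge) hp hO hS
  refine h2 (posLower_of_log f (s * ℓ ^ r) (κ * (r * ℓ)) ?_ c hc n1 hn1)
  exact Nat.mul_pos h.spos (pow_pos hp.pos _)

end Pool.Agent.H6.OR
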