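import Pool.Agent.H6.OR.Defs
import Pool.Agent.H85.OT.AofB

/-!
# Row Ea (project OR): positive lower density, up to finitely many primes
-/

open PowerSeries

namespace Pool.Agent.H6.OR

open Pool.Agent.H85.OT

theorem posLower_of_large {P Q : ℕ → Prop} (N : ℕ) (h : ∀ p, p.Prime → N < p → P p → Q p)
    (hP : PosLower P) : PosLower Q := by
  classical
  obtain ⟨c, hc, x0, hx0⟩ := hP
  have ht := Nat.tendsto_primeCounting
  obtain ⟨x1, hx1⟩ := Filter.eventually_atTop.1
    (ht.eventually_ge_atTop (⌈2 * ((N : ℝ) + 1) / c⌉₊))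
  refine ⟨c / 2, by positivity, max x0 x1, fun x hx => ?_⟩
  have h1 := hx0 x ((le_max_left _ _).trans hx)
  have h2 := hx1 x ((le_max_right _ _).trans hx)
  have h3 : 2 * ((N : ℝ) + 1) / c ≤ (Nat.primeCounting x : ℝ) := by
    refine (Nat.le_ceil _).trans ?_
    exact_mod_cast h2
  have h4 : (cnt P x : ℝ) ≤ cnt Q x + (N + 1) := by
    have h5 : cnt P x ≤ cnt Q x + (N + 1) := by
      unfold cnt
      have h6 : (Finset.range (x + 1)).filter (fun p => p.Prime ∧ P p) ⊆
          (Finset.range (x + 1)).filter (fun p => p.Prime ∧ Q p) ∪ Finset.range (N + 1) := by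
        intro p hp
        rw [Finset.mem_filter] at hp
        rw [Finset.mem_union, Finset.mem_filter]
        by_cases hN : N < p
        · exact Or.inl ⟨hp.1, hp.2.1, h p hp.2.1 hN hp.2.2⟩
        · exact Or.inr (Finset.mem_range.2 (by omega))
      refine (Finset.card_le_card h6).trans ((Finset.card_union_le _ _).trans ?_)
      rw [Finset.card_range]
    exact_mod_cast h5
  rw [div_le_iff₀ hc] at h3
  linarith

theorem ord0_not_sl2 {f : ℤ⟦X⟧} {p : ℕ} (h : Ord0 f p) : ¬ Sl2 f p := by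
  intro hS
  obtain ⟨n, hn, hn'⟩ := h
  by_cases hpn : p ∣ n
  · exact hn' ((pow_dvd_pow _ (Nat.le_succ _)).trans (hS n hn hpn))
  · rw [padicValNat.eq_zero_of_not_dvd hpn, pow_zero] at hn'
    exact hn' (one_dvd _)

end Pool.Agent.H6.OR
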