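import Pool.Agent.H6.OR.An
import Pool.Agent.H6.OR.Dg
import Pool.Agent.H6.OR.Ea
import Pool.Agent.H32.CY.DichX

/-!
# Row Eb (project OR): the main theorem for polynomials in `θ₃², θ₄²`, from `NZ`
-/

open PowerSeries

namespace Pool.Agent.H6.OR

open Pool.Agent.H85.OT

theorem ordinary_of_NZ (k : ℕ) (hk : 4 ≤ k) (hNZ : NZ (k - 2)) (f : ℤ⟦X⟧) (hf : IsFormX k f)
    (h0 : PowerSeries.coeff 0 f = 0) (N : ℕ) (hN : 1 ≤ N) (χ : ℕ → ℤ)
    (hecke : ∀ p : ℕ, p.Prime → ¬ p ∣ N → ∀ n : ℕ, 1 ≤ n → PowerSeries.coeff (p * n) f =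
      PowerSeries.coeff p f * PowerSeries.coeff n f -
        χ p * (p : ℤ) ^ (k - 1) * (if p ∣ n then PowerSeries.coeff (n / p) f else 0))
    (n0 : ℕ) (hn0 : ¬ 2 ∣ n0) (hn0' : PowerSeries.coeff n0 f ≠ 0) :
    PosLower (fun p => ¬ (p : ℤ) ∣ PowerSeries.coeff p f) := by
  have hne : f ≠ 0 := by
    rintro rfl
    exact hn0' (map_zero _)
  obtain ⟨p0, hp0⟩ := ordData k hk hNZ f hf h0 N hN χ hecke n0 hn0 hn0' 14 (by norm_num)
  have h1 : PosLower (fun p => ¬ Sl2 f p) :=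
    posLower_of_dich _ _ (fun p hp => ord0_not_sl2 hp)
      (Pool.Agent.H32.CY.dichX k (by omega) f hf hne h0)
  have h2 := ord_posLower f (k - 2) 14 (2 ^ (14 - 1)) p0 hp0 le_rfl h1
  refine posLower_of_large N (fun p hp hNp ho hd => ?_) h2
  refine not_ord0_of_dvd f k p hp hk (χ p) (hecke p hp ?_) hd ho
  intro h
  exact absurd (Nat.le_of_dvd (by omega) h) (by omega)

end Pool.Agent.H6.OR
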